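import Pool.Agent.ARS.StN

/-! ARS: the end of the argument for quasi-homogeneous rings. -/

set_option autoImplicit false

namespace Pool.Agent.ARS

open IsLocalRing

theorem thm_END (hGRD : St_GRD) (hISO : St_ISO) (hRFN : St_RFN) (hDUR : St_DUR) (hABS : St_ABS)
    (hPAL : St_PAL) (hTR1 : St_TR1) (hTR2 : St_TR2) (hFIN : St_FIN) : St_END := by
  intro K R _ _ _ _ _ _ _ D y m h M hM hT hE
  obtain ⟨c, hc⟩ := hDUR K R D y m h
  have habs := hABS K R D y m h M hM hT hE
  have hpal := hPAL K R D y m h c hc M habs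
  obtain ⟨hst, ⟨j, hj⟩, hfree⟩ := hTR1 K R D y m h M hM hT
  have hEf : Module.Finite R (M.hom M).X := (hRFN K R D y m h M M).2.1 hM hM
  have hEt : HWC.TF R (M.hom M).X := (hRFN K R D y m h M M).2.2.1 hT
  have hTf : Module.Finite R ((M.hom M).sub (trc M) hst).X := by
    have := isNoetherian_of_isNoetherianRing_of_finite R (M.hom M).X
    exact (inferInstance : Module.Finite R (trc M))
  have hTt : HWC.TF R ((M.hom M).sub (trc M) hst).X := by
    intro s x hsx
    rcases hEt s x.1 (congrArg Subtype.val hsx) with h1 | h1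
    · exact Or.inl h1
    · exact Or.inr (Subtype.ext h1)
  have h1 := hc ((M.hom M).sub (trc M) hst) hTf hTt
  have hI := hISO K R D y m h.eig (((M.hom M).sub (trc M) hst).hom (NM.one D)) (M.hom M) (M.hom M)
  have h2 := hI.2.2.2.2.1 (hTR2 K R D y m h M hM hT hst)
  have h3 := (hISO K R D y m h.eig _ _ (M.hom M)).2.2.2.1 h2
  rw [h1] at h3
  have h4 : iv (((M.hom M).sub (trc M) hst).red h.eig).ch = iv ((M.hom M).red h.eig).ch := by
    have h5 := h3.trans hpal
    have h6 := congrArg (fun z => xp (-(algebraMap K (AlgebraicClosure K) c)) * z) h5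
    simp only [← mul_assoc] at h6
    rw [(hGRD K).2.2.2.2.1, neg_add_cancel, (hGRD K).2.2.2.2.2.1, one_mul, one_mul] at h6
    exact h6
  have h7 : (((M.hom M).sub (trc M) hst).red h.eig).ch = ((M.hom M).red h.eig).ch := by
    have h8 := congrArg iv h4
    rwa [(hGRD K).2.1, (hGRD K).2.1] at h8
  have h9 := hFIN K R D y m h (M.hom M) hEf hEt (trc M) hst ⟨j, hj⟩ h7
  apply hfree
  rw [h9]
  trivial

/-- all syzygies have the extension property -/
theorem extAll_of_EV (hExt : St_Ext) (R : Type) [CommRing R]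
    [CategoryTheory.HasExt.{0} (ModuleCat.{0} R)] (M : Type) [AddCommGroup M] [Module R M] :
    ∀ (k : ℕ) (X : Type) [AddCommGroup X] [Module R X], EV R X M → ExtAll R M k X := by
  intro k
  induction k with
  | zero => intro X _ _ _; exact trivial
  | succ k ih =>
    intro X _ _ h
    obtain ⟨h1, h2⟩ := hExt R X M h
    exact ⟨h1, fun n p hp => ih _ (h2 n p hp)⟩

/-- transport of `ExtProp` along isomorphisms -/
theorem extProp_iso {R X X' M M' : Type} [CommRing R] [AddCommGroup X] [Module R X]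
    [AddCommGroup X'] [Module R X'] [AddCommGroup M] [Module R M] [AddCommGroup M'] [Module R M']
    (e : X ≃ₗ[R] X') (f : M ≃ₗ[R] M') (h : ExtProp R X M) : ExtProp R X' M' := by
  intro n p hp ψ
  let p' : (Fin n → R) →ₗ[R] X := e.symm.toLinearMap.comp p
  have hk : ∀ v, p' v = 0 ↔ p v = 0 := fun v => by
    show e.symm (p v) = 0 ↔ p v = 0
    exact e.symm.map_eq_zero_iff
  have hp' : Function.Surjective p' := e.symm.surjective.comp hp
  let g : LinearMap.ker p' →ₗ[R] LinearMap.ker p :=
    { toFun := fun v => ⟨v.1, (hk v.1).1 v.2⟩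
      map_add' := fun _ _ => rfl
      map_smul' := fun _ _ => rfl }
  obtain ⟨Ψ, hΨ⟩ := h n p' hp' (f.symm.toLinearMap.comp (ψ.comp g))
  refine ⟨f.toLinearMap.comp Ψ, fun z => ?_⟩
  have h1 := hΨ ⟨z.1, (hk z.1).2 z.2⟩
  show f (Ψ z.1) = ψ z
  rw [show Ψ z.1 = _ from h1]
  exact f.apply_symm_apply _

/-- transport of `ExtAll` along isomorphisms -/
theorem extAll_iso {R M M' : Type} [CommRing R] [AddCommGroup M] [Module R M]
    [AddCommGroup M'] [Module R M'] (f : M ≃ₗ[R] M') :
    ∀ (k : ℕ) (X X' : Type) [AddCommGroup X] [Module R X] [AddCommGroup X'] [Module R X']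
      (_ : X ≃ₗ[R] X'), ExtAll R M k X → ExtAll R M' k X' := by
  intro k
  induction k with
  | zero => intro X X' _ _ _ _ _ _; exact trivial
  | succ k ih =>
    intro X X' _ _ _ _ e h
    refine ⟨extProp_iso e f h.1, fun n p hp => ?_⟩
    have h2 := h.2 n (e.symm.toLinearMap.comp p) (e.symm.surjective.comp hp)
    refine ih _ _ ?_ h2
    refine LinearEquiv.ofEq _ _ ?_
    ext v
    rw [LinearMap.mem_ker, LinearMap.mem_ker]
    show e.symm (p v) = 0 ↔ p v = 0
    exact e.symm.map_eq_zero_iff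

theorem thm_ARQ (hEND : St_END) (hCON : St_CON) (hExt : St_Ext) (hTF : St_TF) : St_ARQ := by
  intro K R _ _ _ _ _ _ _ D y m h _ M _ _ _ hM
  have hEV : EV R M M := fun i hi => (hM i hi).1
  have hEV' : EV R M R := fun i hi => (hM i hi).2
  have htf : HWC.TF R M := hTF R h.pkg M (hExt R M R hEV').1
  obtain ⟨A, ⟨e⟩⟩ := hCON K R D M (hExt R M M hEV).1
  have hfin : Module.Finite R A.X := Module.Finite.equiv e.symm
  have htA : HWC.TF R A.X := by
    intro s x hsx
    rcases htf s (e x) (by rw [← map_smul, hsx, map_zero]) with h1 | h1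
    · exact Or.inl h1
    · exact Or.inr (e.map_eq_zero_iff.1 h1)
  have hfree := hEND K R D y m h A hfin htA fun k =>
    extAll_iso e.symm k M A.X e.symm (extAll_of_EV hExt R M k M hEV)
  exact Module.Free.of_equiv e

end Pool.Agent.ARS
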