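import Pool.Agent.ARS.StN
import Pool.Agent.HWC.ExtFree

/-! ARS: `R / y` is finite dimensional over the residue field. -/

set_option autoImplicit false

namespace Pool.Agent.ARS

open IsLocalRing

private theorem FND_artin (R : Type) [CommRing R] [IsLocalRing R] [IsNoetherianRing R]
    (hP : HWC.Pkg R) (x : R) (hx : x ∈ maximalIdeal R)
    (hx0 : x ≠ 0) : ∃ _ : IsLocalRing (R ⧸ Ideal.span {x}), IsArtinianRing (R ⧸ Ideal.span {x}) := by
  have hne : Ideal.span {x} ≠ ⊤ := by
    intro h1
    rw [Ideal.span_singleton_eq_top] at h1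
    exact (mem_maximalIdeal x).1 hx h1
  have hnt : Nontrivial (R ⧸ Ideal.span {x}) := Ideal.Quotient.nontrivial_iff.2 hne
  have hloc : IsLocalRing (R ⧸ Ideal.span {x}) :=
    IsLocalRing.of_surjective' (Ideal.Quotient.mk (Ideal.span {x})) Ideal.Quotient.mk_surjective
  refine ⟨hloc, ?_⟩
  rw [isArtinianRing_iff_isNilpotent_maximalIdeal,
    Ideal.FG.isNilpotent_iff_le_nilradical (IsNoetherian.noetherian _)]
  intro y hy
  obtain ⟨r, rfl⟩ := Ideal.Quotient.mk_surjective y
  have hr : r ∈ maximalIdeal R := by
    by_contra hr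
    have h1 : IsUnit r := by
      rw [mem_maximalIdeal, mem_nonunits_iff, not_not] at hr
      exact hr
    exact (mem_maximalIdeal _).1 hy (h1.map _)
  obtain ⟨N, hN⟩ := hP.dim1 r hr x hx0
  rw [mem_nilradical]
  refine ⟨N, ?_⟩
  rw [← map_pow, Ideal.Quotient.eq_zero_iff_mem, Ideal.mem_span_singleton]
  exact hN

theorem finite_of_length {K R : Type} [Field K] [CommRing R] [IsLocalRing R] [Algebra K R]
    (hres : ∀ a : R, ∃ k : K, a - algebraMap K R k ∈ maximalIdeal R)
    (M : Type) [AddCommGroup M] [Module R M] (hM : IsFiniteLength R M) :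
    ∀ [Module K M] [IsScalarTower K R M], Module.Finite K M := by
  induction hM with
  | @of_subsingleton M _ _ _ => intro _ _; infer_instance
  | @of_simple_quotient M _ _ N hN _ ih =>
    intro _ _
    have h1 : Module.Finite K N := ih
    have h2 : Module.Finite K (M ⧸ N) := by
      have hnt : Nontrivial (M ⧸ N) := IsSimpleModule.nontrivial R (M ⧸ N)
      obtain ⟨v, hv⟩ := exists_ne (0 : M ⧸ N)
      have hann : ∀ r ∈ maximalIdeal R, r • v = 0 := by
        intro r hr
        have hmax : (Submodule.annihilator (⊤ : Submodule R (M ⧸ N))).IsMaximal := by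
          have := IsSimpleModule.annihilator_isMaximal (R := R) (M := M ⧸ N)
          rwa [Submodule.annihilator_top]
        have h3 := IsLocalRing.eq_maximalIdeal hmax
        rw [← h3, Submodule.mem_annihilator] at hr
        exact hr v trivial
      rw [Module.finite_def]
      refine ⟨{v}, ?_⟩
      rw [eq_top_iff]
      intro w _
      have hw : w ∈ Submodule.span R {v} := by
        rw [(IsSimpleModule.span_singleton_eq_top (R := R) hv)]
        trivial
      obtain ⟨r, rfl⟩ := Submodule.mem_span_singleton.1 hw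
      obtain ⟨k, hk⟩ := hres r
      have h4 : r • v = k • v := by
        have h5 := hann _ hk
        rw [sub_smul, sub_eq_zero, algebraMap_smul] at h5
        exact h5
      rw [h4, Finset.coe_singleton]
      exact Submodule.smul_mem _ _ (Submodule.mem_span_singleton_self v)
    have h1' : Module.Finite K (N.restrictScalars K) := h1
    have h2' : Module.Finite K (M ⧸ N.restrictScalars K) := h2
    exact Module.Finite.of_submodule_quotient (N.restrictScalars K)

theorem FND {K R : Type} [Field K] [CommRing R] [IsDomain R] [IsLocalRing R] [IsNoetherianRing R]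
    [Algebra K R] (hP : HWC.Pkg R)
    (hres : ∀ a : R, ∃ k : K, a - algebraMap K R k ∈ maximalIdeal R)
    (y : R) (hy : y ∈ maximalIdeal R) (hy0 : y ≠ 0) :
    Module.Finite K (R ⧸ Ideal.span {y}) := by
  obtain ⟨_, hart⟩ := FND_artin R hP y hy hy0
  have h1 : IsFiniteLength R (R ⧸ Ideal.span {y}) := by
    rw [isFiniteLength_iff_isNoetherian_isArtinian]
    refine ⟨inferInstance, ?_⟩
    have h2 : IsArtinian (R ⧸ Ideal.span {y}) (R ⧸ Ideal.span {y}) := hart
    exact isArtinian_of_surjective_algebraMap (R := R ⧸ Ideal.span {y})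
      Ideal.Quotient.mk_surjective
  exact finite_of_length hres _ h1

end Pool.Agent.ARS
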