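import Pool.Agent.ARS.StL

/-! Statements of the modules of ARS, part N: modules with a connection (`NM D`) over a
quasi-homogeneous one-dimensional Gorenstein local domain (`QH`).  Do not change this file.
`A.red h.eig` is `A / y A`; `A.ch` is the character of the connection (for finite dimensional `A`).
General lemmas of the team on one-dimensional Gorenstein local domains: `HWC.reflexive`,
`HWC.exists_AF`, `HWC.lift_fun`, `HWC.baer`, `HWC.quot_infIrred` (`Pool/Agent/HWC`). -/

set_option autoImplicit false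

namespace Pool.Agent.ARS

open IsLocalRing

/-- exact sequences of modules with a connection, with given maps -/
structure IsEx {K R : Type} [Field K] [CommRing R] [Algebra K R] {D : Derivation K R R}
    {A B C : NM D} (f : A.X →ₗ[R] B.X) (g : B.X →ₗ[R] C.X) : Prop where
  inj : Function.Injective f
  surj : Function.Surjective g
  exact : ∀ v, g v = 0 ↔ ∃ u, f u = v
  eqf : ∀ u, f (A.N u) = B.N (f u)
  eqg : ∀ v, g (B.N v) = C.N (g v)

/-- the endomorphisms factoring through free modules: the span of the maps `v ↦ f v • x` -/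
def trc {K R : Type} [Field K] [CommRing R] [Algebra K R] {D : Derivation K R R} (M : NM D) :
    Submodule R (M.hom M).X :=
  Submodule.span R {φ : M.X →ₗ[R] M.X | ∃ (f : M.X →ₗ[R] R) (x : M.X), φ = f.smulRight x}

/-- [ISO] Basic facts. -/
def St_ISO : Prop := ∀ (K R : Type) [Field K] [CommRing R] [Algebra K R] (D : Derivation K R R)
  (y : R) (m : ℕ) (hy : D y = (m : R) * y) (A B C : NM D),
  (Iso A A) ∧ (Iso A B → Iso B A) ∧ (Iso A B → Iso B C → Iso A C) ∧
  (Iso A B → A.ch = B.ch) ∧ (Iso A B → Iso (A.red hy) (B.red hy)) ∧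
  (Ex A B C → ExK A.N B.N C.N) ∧
  (∀ (f : A.X →ₗ[R] B.X) (g : B.X →ₗ[R] C.X), IsEx f g → Ex A B C) ∧
  (Iso ((NM.one D).hom (NM.one D)) (NM.one D))

/-- [RFN] Finiteness. (i) `A / y A` is finitely generated over `R / y`, which is finite
dimensional. (ii) Noetherian. (iii) clear. (iv) `A / y A = 0` only for `A = 0` (Nakayama). -/
def St_RFN : Prop := ∀ (K R : Type) [Field K] [CommRing R] [IsDomain R] [IsLocalRing R]
  [IsNoetherianRing R] [Algebra K R] (D : Derivation K R R) (y : R) (m : ℕ)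
  (h : QH K R D y m) (A B : NM D),
  (Module.Finite R A.X → Module.Finite K (A.red h.eig).X) ∧
  (Module.Finite R A.X → Module.Finite R B.X → Module.Finite R (A.hom B).X) ∧
  (HWC.TF R B.X → HWC.TF R (A.hom B).X) ∧
  (Module.Finite R A.X → Subsingleton (A.red h.eig).X → Subsingleton A.X)

/-- [REX] Reduction modulo `y` is exact if `y` is regular on `C`. Proof: injectivity on the left:
if `f u = y w` then `y (g w) = 0`, `g w = 0`, `w = f u'`, `u = y u'`. -/
def St_REX : Prop := ∀ (K R : Type) [Field K] [CommRing R] [Algebra K R] (D : Derivation K R R)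
  (y : R) (m : ℕ) (hy : D y = (m : R) * y) (A B C : NM D),
  Ex A B C → (∀ c : C.X, y • c = 0 → c = 0) → Ex (A.red hy) (B.red hy) (C.red hy)

/-- [POW] (uses ADD, NON, TWI) The character of a twisted power. Proof: induction on
`finrank K Q.X`. `P := maximalIdeal R • ⊤ ≤ Q.X` is stable under the connection (Leibniz,
`h.max`); `P ≠ ⊤` for `Q ≠ 0` (Nakayama; `Q` is finite over `R` because it is over `K`). The
sequence `P → Q → Q / P` is exact, also the sequence of the twisted powers (maps componentwise).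
On `Q / P` the maximal ideal acts as zero, so `a i j` acts as the scalar `a0 i j` and the operator
is `tw (Q/P).N a0`: `St_TWI`. -/
def St_POW : Prop := ∀ (K R : Type) [Field K] [CommRing R] [IsDomain R] [IsLocalRing R]
  [IsNoetherianRing R] [Algebra K R] (D : Derivation K R R) (y : R) (m : ℕ)
  (_ : QH K R D y m) (Q : NM D), Module.Finite K Q.X →
  ∀ (n : ℕ) (a : Matrix (Fin n) (Fin n) R) (a0 : Matrix (Fin n) (Fin n) K),
  (∀ i j, a i j - algebraMap K R (a0 i j) ∈ maximalIdeal R) →
  (Q.pow a).ch = ch (Matrix.toLin' a0) * Q.ch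

/-- [GOR] (uses ADD, NON, HOM) Duality over `A = R / y R`, a local Artinian ring whose zero ideal
is irreducible (`HWC.quot_infIrred`), so its socle (the elements killed by the maximal ideal) is
one-dimensional over `K` (residue field `K`: `h.res`), and `A` is self-injective (`HWC.baer`).
The connection (`D` modulo `y`) preserves the socle: it is the scalar `c` there. Induction on
`finrank K Q.X`: `P := maximalIdeal R • ⊤ ≤ Q.X`, stable, `≠ ⊤` for `Q ≠ 0`. By self-injectivity
`Hom(Q/P, A) → Hom(Q, A) → Hom(P, A)` is exact with surjective right map. Maps from `Q/P`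
(killed by the maximal ideal) have image in the socle, so `Hom_R(Q/P, A)` with its connection is
`hm (Q/P).N (c on K)` (choose a basis vector of the socle), character `iv (ch) * xp c` by
`St_HOM`. All spaces are finite dimensional. -/
def St_GOR : Prop := ∀ (K R : Type) [Field K] [CommRing R] [IsDomain R] [IsLocalRing R]
  [IsNoetherianRing R] [Algebra K R] (D : Derivation K R R) (y : R) (m : ℕ)
  (h : QH K R D y m), ∃ c : K, ∀ Q : NM D, Module.Finite K Q.X → (∀ q : Q.X, y • q = 0) →
  (Q.hom ((NM.one D).red h.eig)).ch = xp (algebraMap K (AlgebraicClosure K) c) * iv Q.ch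

/-- [DUR] (uses GOR, ISO) Duality for torsionfree modules. Proof: `c` from `St_GOR`. The map
`Hom(A, R) → Hom(A, R/y)` is surjective (`HWC.lift_fun`), its kernel is `y Hom(A, R)` (a map with
values in `y R` is `y` times a map). And `Hom(A, R/y) = Hom(A/y, R/y)`. So
`(A.hom one).red ≅ (A.red).hom (one.red)`, compatible with the connections; use `St_GOR` for
`Q = A.red` (finite dimensional by `St_RFN`). -/
def St_DUR : Prop := ∀ (K R : Type) [Field K] [CommRing R] [IsDomain R] [IsLocalRing R]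
  [IsNoetherianRing R] [Algebra K R] (D : Derivation K R R) (y : R) (m : ℕ)
  (h : QH K R D y m), ∃ c : K, ∀ A : NM D, Module.Finite R A.X → HWC.TF R A.X →
  ((A.hom (NM.one D)).red h.eig).ch =
    xp (algebraMap K (AlgebraicClosure K) c) * iv (A.red h.eig).ch

/-- [COV] Minimal cover with a connection. Proof: choose `x 1, .., x n` in `A.X` whose classes are
a basis of `A / max A` over the residue field; they generate (Nakayama), `p v = ∑ i, v i • x i`.
If `p v = 0` then all `v i ∈ max` (linear independence of the classes). Write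
`A.N (x j) = ∑ i, a i j • x i`. Then `p` commutes with the connections:
`A.N (∑ v j • x j) = ∑ D (v j) • x j + ∑ v j • ∑ a i j • x i`. `a0` from `h.res`. -/
def St_COV : Prop := ∀ (K R : Type) [Field K] [CommRing R] [IsDomain R] [IsLocalRing R]
  [IsNoetherianRing R] [Algebra K R] (D : Derivation K R R) (y : R) (m : ℕ)
  (_ : QH K R D y m) (A : NM D), Module.Finite R A.X →
  ∃ (n : ℕ) (a : Matrix (Fin n) (Fin n) R) (a0 : Matrix (Fin n) (Fin n) K)
    (p : (Fin n → R) →ₗ[R] A.X), Function.Surjective p ∧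
    (∀ v : Fin n → R, p (((NM.one D).pow a).N v) = A.N (p v)) ∧
    (∀ v : Fin n → R, p v = 0 → ∀ i, v i ∈ maximalIdeal R) ∧
    (∀ i j, a i j - algebraMap K R (a0 i j) ∈ maximalIdeal R)

/-- [SUP] (uses ADD, NON, ANN, POW, RFN, GRD) Weights of the kernel of a minimal cover. Let
`F = one.pow a`, `B` the kernel of `p` with the induced connection.
Proof. (1) `P := maximalIdeal R / y ⊆ R / y`, stable; `R/y / P` is one-dimensional with
connection zero (`D` maps `R` to `max` modulo..: `D` kills `K`, `h.max`), so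
`ch (R/y) = 1 + ch P` and by `h.wt` and `St_ANN` the support of `ch P` consists of integers
`1 ≤ k ≤ n`. (2) `ch (F/y) = ch (toLin' a0) * ch (R/y)` (`St_POW` for `Q = R/y`; `F/y = (R/y).pow a`),
and `F / max F = K^n` with the operator `a0`; the submodule `max F / y F` of `F/y` has character
`ch (F/y) - ch (toLin' a0) = ch (toLin' a0) * ch P` (`St_ADD`). (3) `A / max A` is a quotient of
`A / y A` and equal to `F / max F` (minimality), so the support of `ch (toLin' a0)` is in the
support of `ch (A/y)`. (4) `B/yB → F/yF` is injective (`y f ∈ B` implies `y p f = 0`, `p f = 0`)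
with image in `max F / y F`; so the support of `ch (B/y)` is in the support of
`ch (toLin' a0) * ch P` (coefficients are nonnegative, `St_ADD`). -/
def St_SUP : Prop := ∀ (K R : Type) [Field K] [CharZero K] [CommRing R] [IsDomain R]
  [IsLocalRing R] [IsNoetherianRing R] [Algebra K R] (D : Derivation K R R) (y : R) (m : ℕ)
  (h : QH K R D y m) (A : NM D), Module.Finite R A.X → HWC.TF R A.X →
  ∀ (n : ℕ) (a : Matrix (Fin n) (Fin n) R) (a0 : Matrix (Fin n) (Fin n) K)
    (p : (Fin n → R) →ₗ[R] A.X), Function.Surjective p →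
    (∀ v : Fin n → R, p (((NM.one D).pow a).N v) = A.N (p v)) →
    (∀ v : Fin n → R, p v = 0 → ∀ i, v i ∈ maximalIdeal R) →
    (∀ i j, a i j - algebraMap K R (a0 i j) ∈ maximalIdeal R) →
  ∀ (B : NM D) (f : B.X →ₗ[R] (Fin n → R)), Function.Injective f →
    (∀ v, p v = 0 ↔ ∃ u, f u = v) → (∀ u, f (B.N u) = ((NM.one D).pow a).N (f u)) →
  ∀ ν, cf (B.red h.eig).ch ν ≠ 0 →
    ∃ (l : AlgebraicClosure K) (k : ℕ), 1 ≤ k ∧ cf (A.red h.eig).ch l ≠ 0 ∧ ν = l + (k : AlgebraicClosure K)

/-- [HEX] `Hom(-, M)` is exact on a sequence if all maps `A → M` extend to `B`. -/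
def St_HEX : Prop := ∀ (K R : Type) [Field K] [CommRing R] [Algebra K R] (D : Derivation K R R)
  (A B C M : NM D) (f : A.X →ₗ[R] B.X) (g : B.X →ₗ[R] C.X), IsEx f g →
  (∀ ψ : A.X →ₗ[R] M.X, ∃ Ψ : B.X →ₗ[R] M.X, ∀ u, Ψ (f u) = ψ u) →
  Ex (C.hom M) (B.hom M) (A.hom M)

/-- [CHF] (uses POW, NEG, ISO, RFN) Characters for the free module `F = one.pow a`. Proof:
`(F.hom M) ≅ M.pow (-a.transpose)` via `φ ↦ (φ (e i))_i` (`F.N (e i) = ∑ k, a k i • e k`),
`(M.pow b).red ≅ (M.red).pow b`, `St_POW`, `St_NEG`. -/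
def St_CHF : Prop := ∀ (K R : Type) [Field K] [CommRing R] [IsDomain R] [IsLocalRing R]
  [IsNoetherianRing R] [Algebra K R] (D : Derivation K R R) (y : R) (m : ℕ)
  (h : QH K R D y m) (M : NM D), Module.Finite R M.X →
  ∀ (n : ℕ) (a : Matrix (Fin n) (Fin n) R) (a0 : Matrix (Fin n) (Fin n) K),
  (∀ i j, a i j - algebraMap K R (a0 i j) ∈ maximalIdeal R) →
  ((((NM.one D).pow a).hom M).red h.eig).ch = iv (ch (Matrix.toLin' a0)) * (M.red h.eig).ch ∧
  (((NM.one D).pow a).red h.eig).ch = ch (Matrix.toLin' a0) * ((NM.one D).red h.eig).ch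

/-- [HSU] (uses HOM, ADD, NON, GRD, RFN) Weights of `Hom(A, M) / y`. Proof:
`Hom(A, M) / y → Hom_K(A/y, M/y)` is injective (a map with values in `y M` is `y` times a map,
`M` torsionfree) and commutes with the connection and `hm`; `St_HOM`, nonnegative
coefficients. -/
def St_HSU : Prop := ∀ (K R : Type) [Field K] [CharZero K] [CommRing R] [IsDomain R]
  [IsLocalRing R] [IsNoetherianRing R] [Algebra K R] (D : Derivation K R R) (y : R) (m : ℕ)
  (h : QH K R D y m) (A M : NM D), Module.Finite R A.X → Module.Finite R M.X →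
  HWC.TF R M.X → ∀ ν, cf ((A.hom M).red h.eig).ch ν ≠ 0 →
    ∃ μ l, cf (M.red h.eig).ch μ ≠ 0 ∧ cf (A.red h.eig).ch l ≠ 0 ∧ ν = μ - l

/-- the difference of the two sides of the identity of Avramov, Buchweitz and Sally -/
noncomputable def Dl {K R : Type} [Field K] [CommRing R] [IsLocalRing R] [Algebra K R]
    {D : Derivation K R R} {y : R} {m : ℕ} (h : QH K R D y m) (A M : NM D) : GR K :=
  ((A.hom M).red h.eig).ch * iv ((NM.one D).red h.eig).ch - iv (A.red h.eig).ch * (M.red h.eig).ch

/-- [STP] (uses ISO, RFN, REX, COV, SUP, HEX, CHF, ADD) One step of the resolution. Proof: take the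
cover `p` of `St_COV`, `F = one.pow a` and `B := F.sub (ker p)`: finite, torsionfree, `IsEx` for
`B → F → A`, and all maps `B.X → M.X` extend to `F` (`ExtProp R A.X M.X`). By `St_HEX`, `St_REX`
(all modules are torsionfree), `St_ADD`: `ch((F.hom M).red) = ch((A.hom M).red) + ch((B.hom M).red)`,
`ch(F.red) = ch(A.red) + ch(B.red)`; with `St_CHF` this gives `Dl A + Dl B = 0`. The bound of the
weights is `St_SUP`. -/
def St_STP : Prop := ∀ (K R : Type) [Field K] [CharZero K] [CommRing R] [IsDomain R]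
  [IsLocalRing R] [IsNoetherianRing R] [Algebra K R] (D : Derivation K R R) (y : R) (m : ℕ)
  (h : QH K R D y m) (A M : NM D), Module.Finite R A.X → HWC.TF R A.X →
  Module.Finite R M.X → HWC.TF R M.X → ExtProp R A.X M.X →
  ∃ B : NM D, Module.Finite R B.X ∧ HWC.TF R B.X ∧ Dl h A M = - Dl h B M ∧
    (∀ ν, cf (B.red h.eig).ch ν ≠ 0 → ∃ (l : AlgebraicClosure K) (k : ℕ), 1 ≤ k ∧
      cf (A.red h.eig).ch l ≠ 0 ∧ ν = l + (k : AlgebraicClosure K)) ∧
    (∀ k, ExtAll R M.X (k + 1) A.X → ExtAll R M.X k B.X)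

/-- [ABS] (uses STP, HSU, WTR, GRD) The identity of Avramov, Buchweitz and Sally. Proof.
Claim: for all `n` and all finite torsionfree `A` with `ExtAll R M.X k A.X` for all `k`: if
`cf (Dl h A M) ν ≠ 0` then `ν = μ - l - k` with `cf (M.red).ch μ ≠ 0`, `cf (A.red).ch l ≠ 0`,
`k : ℕ`, `n ≤ k`. `n = 0`: `St_HSU`, `St_WTR`, supports of products (`St_GRD`). `n + 1`:
`Dl A = - Dl B` (`St_STP`), the claim for `B` and the bound of the weights.
For `A = M`: the pairs `(μ, l)` are finitely many, so for `n` large no `ν` is left (`CharZero`: for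
given `μ, l, ν` at most one `k`): `Dl h M M = 0`. -/
def St_ABS : Prop := ∀ (K R : Type) [Field K] [CharZero K] [CommRing R] [IsDomain R]
  [IsLocalRing R] [IsNoetherianRing R] [Algebra K R] (D : Derivation K R R) (y : R) (m : ℕ)
  (h : QH K R D y m) (M : NM D), Module.Finite R M.X → HWC.TF R M.X →
  (∀ k, ExtAll R M.X k M.X) →
  ((M.hom M).red h.eig).ch * iv ((NM.one D).red h.eig).ch =
    iv (M.red h.eig).ch * (M.red h.eig).ch

/-- [WTR] (uses ANN, NON) The weights of `R / y` are natural numbers. Proof: `R = K + max`, `D`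
kills `K`: so `X * ∏ w ∈ [1, n], (X - w)` at `D` maps `R` to `y R`; `St_ANN`. -/
def St_WTR : Prop := ∀ (K R : Type) [Field K] [CommRing R] [IsDomain R] [IsLocalRing R]
  [IsNoetherianRing R] [Algebra K R] (D : Derivation K R R) (y : R) (m : ℕ)
  (h : QH K R D y m), ∀ ν, cf ((NM.one D).red h.eig).ch ν ≠ 0 →
    ∃ k : ℕ, ν = (k : AlgebraicClosure K)

/-- [PAL] (uses GRD, NON, ISO, RFN) Algebra in the group ring. Write `r = ch(one.red) ≠ 0`,
`e = ch((M.hom M).red)`, `μ = ch(M.red)`. The hypothesis for `A = one` and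
`(one.hom one) ≅ one` give `r = xp c * iv r`. From `e * iv r = iv μ * μ`, applying `iv`:
`iv e * r = μ * iv μ = e * iv r`, so `iv e * xp c * iv r = e * iv r`, `e = xp c * iv e`. -/
def St_PAL : Prop := ∀ (K R : Type) [Field K] [CharZero K] [CommRing R] [IsDomain R]
  [IsLocalRing R] [IsNoetherianRing R] [Algebra K R] (D : Derivation K R R) (y : R) (m : ℕ)
  (h : QH K R D y m) (c : K), (∀ A : NM D, Module.Finite R A.X → HWC.TF R A.X →
    ((A.hom (NM.one D)).red h.eig).ch =
      xp (algebraMap K (AlgebraicClosure K) c) * iv (A.red h.eig).ch) →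
  ∀ M : NM D, ((M.hom M).red h.eig).ch * iv ((NM.one D).red h.eig).ch =
    iv (M.red h.eig).ch * (M.red h.eig).ch →
  ((M.hom M).red h.eig).ch =
    xp (algebraMap K (AlgebraicClosure K) c) * iv ((M.hom M).red h.eig).ch

/-- [TR1] The trace part `trc M`. Proof: stable: `N (v ↦ f v • x) = (v ↦ f v • N x) + (v ↦ (N f) v • x)`
with `(N f) v = D (f v) - f (N v)`. `y ^ j • id ∈ trc M`: `HWC.exists_AF` gives
`q`, `j : R^q → M`, `p : M → R^q` with `j (p v) = y ^ N • v`, so `y ^ N • v = ∑ (p v) i • j (e i)`.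
If `id = ∑ f i • x i` (finite sum of rank one maps) then `M` is a direct summand of `R^n`,
projective, so free over the local ring `R`. -/
def St_TR1 : Prop := ∀ (K R : Type) [Field K] [CommRing R] [IsDomain R]
  [IsLocalRing R] [IsNoetherianRing R] [Algebra K R] (D : Derivation K R R) (y : R) (m : ℕ)
  (_ : QH K R D y m) (M : NM D), Module.Finite R M.X → HWC.TF R M.X →
  (∀ φ ∈ trc M, (M.hom M).N φ ∈ trc M) ∧
  (∃ j : ℕ, ∀ φ : M.X →ₗ[R] M.X, (y ^ j) • φ ∈ trc M) ∧
  ((LinearMap.id : M.X →ₗ[R] M.X) ∈ trc M → Module.Free R M.X)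

/-- [TR2] `Hom(trc M, R) ≅ End M`. Proof: for `e ∈ End M` and `τ = ∑ f i • x i ∈ trc M` put
`⟨e, τ⟩ := ∑ f i (e (x i))`. Well defined: if `∑ f i • x i = 0` as an endomorphism, let
`s • id = ∑ g k • a k`, `s ≠ 0` (`St_TR1`); then
`s • ∑ i, f i (e (x i)) = ∑ i, f i (e (∑ k, g k (x i) • a k)) = ∑ k, g k (∑ i, f i (e (a k)) • x i) = 0`.
(Use that `trc M` is the image of `M.X ⊗ Dual` or define `⟨e, -⟩` on the free module of pairs.)
Injective: `f (e x) = 0` for all `f`, `x` gives `e = 0` (`HWC.reflexive`). Surjective: for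
`θ : trc M → R` and `x`, the map `f ↦ θ (f • x)` is `f ↦ f (e x)` for a unique `e x ∈ M`
(`HWC.reflexive`), `e` is linear. Compatible with the connections:
`D ⟨e, f • x⟩ - ⟨e, N (f • x)⟩ = f (N (e x)) - f (e (N x)) = ⟨N e, f • x⟩`. -/
def St_TR2 : Prop := ∀ (K R : Type) [Field K] [CommRing R] [IsDomain R]
  [IsLocalRing R] [IsNoetherianRing R] [Algebra K R] (D : Derivation K R R) (y : R) (m : ℕ)
  (_ : QH K R D y m) (M : NM D), Module.Finite R M.X → HWC.TF R M.X →
  ∀ hT : ∀ φ ∈ trc M, (M.hom M).N φ ∈ trc M,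
    Iso (((M.hom M).sub (trc M) hT).hom (NM.one D)) (M.hom M)

/-- [FIN] (uses ADD, SHF, NON, GRD, RFN) Proof. `Q := E / T` is finite dimensional (a quotient of
`E / y^j E`). `E / y T` has the submodules `T / y T` and `y E / y T`; the latter is `Q` with the
connection shifted by `m` (`N (y e) = y (N e + m e)`; `y E / y T ≅ E / T` since `E` is
torsionfree). So `ch(T/y) + ch Q = ch(E / y T) = ch(E/y) + xp m * ch Q`, hence
`(1 - xp m) * ch Q = 0`, `m ≠ 0` in `K`, so `ch Q = 0`, `Q = 0`. -/
def St_FIN : Prop := ∀ (K R : Type) [Field K] [CharZero K] [CommRing R] [IsDomain R]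
  [IsLocalRing R] [IsNoetherianRing R] [Algebra K R] (D : Derivation K R R) (y : R) (m : ℕ)
  (h : QH K R D y m) (E : NM D), Module.Finite R E.X → HWC.TF R E.X →
  ∀ (T : Submodule R E.X) (hT : ∀ x ∈ T, E.N x ∈ T), (∃ j : ℕ, ∀ x : E.X, (y ^ j) • x ∈ T) →
  ((E.sub T hT).red h.eig).ch = (E.red h.eig).ch → T = ⊤

/-- [CON] A rigid module has a connection. Proof: `p : R^n → M` surjective, `∂ v = (D (v i))_i`.
On the kernel `v ↦ p (∂ v)` is `R`-linear (`p (∂ (r v)) = D r • p v + r • p (∂ v)`), so it extends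
to `Ψ : R^n → M`; `N (p v) := p (∂ v) - Ψ v` is well defined. `K` acts on `M` through `R`
(`Module.compHom`); the carrier of `A` is `M`. -/
def St_CON : Prop := ∀ (K R : Type) [Field K] [CommRing R] [Algebra K R] (D : Derivation K R R)
  (M : Type) [AddCommGroup M] [Module R M] [Module.Finite R M], ExtProp R M M →
  ∃ A : NM D, Nonempty (A.X ≃ₗ[R] M)

/-- [END] (uses ABS, DUR, PAL, TR1, TR2, FIN, ISO, RFN, GRD) -/
def St_END : Prop := ∀ (K R : Type) [Field K] [CharZero K] [CommRing R] [IsDomain R]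
  [IsLocalRing R] [IsNoetherianRing R] [Algebra K R] (D : Derivation K R R) (y : R) (m : ℕ)
  (_ : QH K R D y m) (M : NM D), Module.Finite R M.X → HWC.TF R M.X →
  (∀ k, ExtAll R M.X k M.X) → Module.Free R M.X

/-- [ARQ] (uses END, CON, `St_Ext`, `St_TF` of `StE.lean`) Quasi-homogeneous rings satisfy (ARC).
`ExtAll R M k X` from `EV R X M` by induction on `k` (`St_Ext`). Transport along `A.X ≃ M`. -/
def St_ARQ : Prop := ∀ (K R : Type) [Field K] [CharZero K] [CommRing R] [IsDomain R]
  [IsLocalRing R] [IsNoetherianRing R] [Algebra K R] (D : Derivation K R R) (y : R) (m : ℕ)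
  (_ : QH K R D y m), ARC R

/-- [SGQ] Semigroup rings are quasi-homogeneous: `D = t d/dt` (`coeff n (D f) = n * coeff n f`),
`y = t ^ (F + 1)` (`S.x K`), `m = F + 1`; `wt` with `n = 2 F + 1`: the operator
`∏ (D - w)` kills the coefficients of index `1, .., 2 F + 1`, and `f` with support in
`[2 F + 2, ∞)` is `t ^ (F + 1)` times a series with support in `[F + 1, ∞) ⊆ G`. `R / y` is finite
dimensional: modulo `y` only the coefficients of index `≤ 2 F + 1` matter. -/
def St_SGQ : Prop := ∀ (S : HWG.SG) (K : Type) [Field K] [CharZero K] [IsLocalRing (S.R K)],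
  (∀ x : S.R K, x ∈ maximalIdeal (S.R K) ↔ PowerSeries.coeff 0 (x : PowerSeries K) = 0) →
  HWC.Pkg (S.R K) →
  ∃ (_ : Algebra K (S.R K)) (D : Derivation K (S.R K) (S.R K)) (y : S.R K) (m : ℕ),
    QH K (S.R K) D y m

/-- [ALL] (uses ARQ, SGQ, HWG.thm_Pack, ...) -/
def St_ALL : Prop := ∀ (S : HWG.SG) (K : Type) [Field K] [CharZero K], ARC (S.R K)

end Pool.Agent.ARS
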