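import Pool.Agent.ARS.StN

/-! # ARS, module ABS: the identity of Avramov, Buchweitz and Sally -/

set_option autoImplicit false

namespace Pool.Agent.ARS

open IsLocalRing

theorem ABS_claim (hSTP : St_STP) (hHSU : St_HSU) (hWTR : St_WTR) (hGRD : St_GRD)
    (K R : Type) [Field K] [CharZero K] [CommRing R] [IsDomain R]
    [IsLocalRing R] [IsNoetherianRing R] [Algebra K R] (D : Derivation K R R) (y : R) (m : ℕ)
    (h : QH K R D y m) (M : NM D) (hM : Module.Finite R M.X) (hMT : HWC.TF R M.X) (n : ℕ) :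
    ∀ A : NM D, Module.Finite R A.X → HWC.TF R A.X → (∀ k, ExtAll R M.X k A.X) →
      ∀ ν, cf (Dl h A M) ν ≠ 0 → ∃ (μ l : AlgebraicClosure K) (k : ℕ),
        cf (M.red h.eig).ch μ ≠ 0 ∧ cf (A.red h.eig).ch l ≠ 0 ∧ n ≤ k ∧
        ν = μ - l - (k : AlgebraicClosure K) := by
  obtain ⟨-, -, hiv, -, -, -, -, hmul, -, hsub, -⟩ := hGRD K
  induction n with
  | zero =>
    intro A hA hAT _ ν hν
    unfold Dl at hν
    rw [hsub] at hν
    by_cases h1 : cf (((A.hom M).red h.eig).ch * iv ((NM.one D).red h.eig).ch) ν = 0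
    · rw [h1, zero_sub, neg_ne_zero] at hν
      obtain ⟨b, c, hb, hc, rfl⟩ := hmul _ _ _ hν
      rw [hiv] at hb
      refine ⟨c, -b, 0, hc, hb, le_refl _, ?_⟩
      push_cast
      ring
    · obtain ⟨b, c, hb, hc, rfl⟩ := hmul _ _ _ h1
      rw [hiv] at hc
      obtain ⟨k, hk⟩ := hWTR K R D y m h _ hc
      obtain ⟨μ, l, hμ, hl, rfl⟩ := hHSU K R D y m h A M hA hM hMT b hb
      refine ⟨μ, l, k, hμ, hl, Nat.zero_le _, ?_⟩
      rw [← hk]
      ring
  | succ n ih =>
    intro A hA hAT hE ν hν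
    obtain ⟨B, hB, hBT, hD, hW, hEB⟩ := hSTP K R D y m h A M hA hAT hM hMT (hE 1).1
    have h1 : cf (Dl h B M) ν ≠ 0 := by
      intro h0
      apply hν
      rw [hD]
      have h2 := hsub 0 (Dl h B M) ν
      rw [zero_sub] at h2
      rw [h2, h0, sub_zero]
      rfl
    obtain ⟨μ, l', k, hμ, hl', hk, rfl⟩ := ih B hB hBT (fun k => hEB k (hE (k + 1))) ν h1
    obtain ⟨l, k', hk', hl, rfl⟩ := hW l' hl'
    refine ⟨μ, l, k + k', hμ, hl, by omega, ?_⟩
    push_cast
    ring

theorem thm_ABS (hSTP : St_STP) (hHSU : St_HSU) (hWTR : St_WTR) (hGRD : St_GRD) : St_ABS := by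
  classical
  intro K R _ _ _ _ _ _ _ D y m h M hM hMT hE
  have hcl := fun n => ABS_claim hSTP hHSU hWTR hGRD K R D y m h M hM hMT n M hM hMT hE
  have hzero : ∀ f : GR K, (∀ a, cf f a = 0) → f = 0 :=
    (hGRD K).2.2.2.2.2.2.2.2.2.2
  have hD : Dl h M M = 0 := by
    apply hzero
    intro ν
    by_contra hν
    set S : Finset (AlgebraicClosure K) :=
      ((M.red h.eig).ch.coeff.support ×ˢ (M.red h.eig).ch.coeff.support).image
        fun p => p.1 - p.2 with hS
    have hfin : {k : ℕ | ν + (k : AlgebraicClosure K) ∈ S}.Finite := by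
      refine Set.Finite.preimage ?_ S.finite_toSet
      intro a _ b _ hab
      have hab' : ν + (a : AlgebraicClosure K) = ν + (b : AlgebraicClosure K) := hab
      exact Nat.cast_injective (add_left_cancel hab')
    obtain ⟨N, hN⟩ := hfin.bddAbove
    obtain ⟨μ, l, k, hμ, hl, hk, hν'⟩ := hcl (N + 1) ν hν
    have hmem : k ∈ {k : ℕ | ν + (k : AlgebraicClosure K) ∈ S} := by
      show ν + (k : AlgebraicClosure K) ∈ S
      rw [hS, Finset.mem_image]
      refine ⟨(μ, l), ?_, ?_⟩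
      · rw [Finset.mem_product]
        exact ⟨Finsupp.mem_support_iff.mpr hμ, Finsupp.mem_support_iff.mpr hl⟩
      · rw [hν']
        ring
    have := hN hmem
    omega
  exact sub_eq_zero.mp hD

end Pool.Agent.ARS
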