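import Pool.Agent.ARS.StL

/-! ARS, module ADD: characters are additive on exact sequences (helper15). -/

set_option autoImplicit false

namespace Pool.Agent.ARS

open Polynomial

/-- the splitting of an exact sequence -/
private theorem ADD_split {K A B C : Type} [Field K] [AddCommGroup A] [Module K A]
    [AddCommGroup B] [Module K B] [AddCommGroup C] [Module K C] (f : A →ₗ[K] B) (g : B →ₗ[K] C)
    (hf : Function.Injective f) (hg : Function.Surjective g)
    (hfg : ∀ v, g v = 0 ↔ ∃ u, f u = v) :
    ∃ e : (A × C) ≃ₗ[K] B, (∀ u, e (u, 0) = f u) ∧ ∀ x, g (e x) = x.2 := by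
  obtain ⟨s, hs⟩ := g.exists_rightInverse_of_surjective (LinearMap.range_eq_top.2 hg)
  have hs' : ∀ w, g (s w) = w := fun w => LinearMap.congr_fun hs w
  have hgf : ∀ u, g (f u) = 0 := fun u => (hfg (f u)).2 ⟨u, rfl⟩
  have h0 : ∀ x : A × C, (f.coprod s) x = f x.1 + s x.2 := fun x => LinearMap.coprod_apply f s x
  have h1 : ∀ x : A × C, g ((f.coprod s) x) = x.2 := fun x => by
    rw [h0, map_add, hgf, hs', zero_add]
  have hinj : Function.Injective (f.coprod s) := by
    rw [injective_iff_map_eq_zero]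
    intro x hx
    have h2 : x.2 = 0 := by rw [← h1 x, hx, map_zero]
    have h3 : f x.1 = 0 := by rw [h0, h2, map_zero, add_zero] at hx; exact hx
    have h4 : x.1 = 0 := hf (by rw [h3, map_zero])
    exact Prod.ext h4 h2
  have hsurj : Function.Surjective (f.coprod s) := by
    intro v
    obtain ⟨u, hu⟩ := (hfg (v - s (g v))).1 (by rw [map_sub, hs', sub_self])
    exact ⟨(u, g v), by rw [h0, hu]; exact sub_add_cancel _ _⟩
  refine ⟨LinearEquiv.ofBijective (f.coprod s) ⟨hinj, hsurj⟩, fun u => ?_, fun x => ?_⟩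
  · show (f.coprod s) (u, 0) = f u
    rw [h0, map_zero, add_zero]
  · exact h1 x

private theorem ADD_charpoly (K A B C : Type) [Field K] [AddCommGroup A] [Module K A]
    [Module.Finite K A] [AddCommGroup B] [Module K B] [Module.Finite K B]
    [AddCommGroup C] [Module K C] [Module.Finite K C] (a : A →ₗ[K] A) (b : B →ₗ[K] B)
    (c : C →ₗ[K] C) (h : ExK a b c) : b.charpoly = a.charpoly * c.charpoly := by
  obtain ⟨f, g, hf, hg, hfg, hfa, hgb⟩ := h
  obtain ⟨e, he1, he2⟩ := ADD_split f g hf hg hfg
  have hT1 : ∀ u, (e.symm.conj b) (u, 0) = (a u, 0) := fun u => by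
    rw [LinearEquiv.conj_apply_apply, LinearEquiv.symm_symm, he1, ← hfa, ← he1,
      LinearEquiv.symm_apply_apply]
  have hT2 : ∀ x, ((e.symm.conj b) x).2 = c x.2 := fun x => by
    rw [← he2 ((e.symm.conj b) x), LinearEquiv.conj_apply_apply, LinearEquiv.symm_symm,
      LinearEquiv.apply_symm_apply, hgb, he2]
  rw [← LinearEquiv.charpoly_conj e.symm b]
  obtain ⟨T, hT⟩ : ∃ T : Module.End K (A × C), T = e.symm.conj b := ⟨_, rfl⟩
  rw [← hT] at hT1 hT2 ⊢
  let bA := Module.Free.chooseBasis K A
  let bC := Module.Free.chooseBasis K C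
  rw [← LinearMap.charpoly_toMatrix a bA, ← LinearMap.charpoly_toMatrix c bC,
    ← LinearMap.charpoly_toMatrix T (bA.prod bC)]
  have hM : LinearMap.toMatrix (bA.prod bC) (bA.prod bC) T =
      Matrix.fromBlocks (LinearMap.toMatrix bA bA a)
        ((LinearMap.toMatrix (bA.prod bC) (bA.prod bC) T).toBlocks₁₂) 0
        (LinearMap.toMatrix bC bC c) := by
    ext i j
    rcases i with i | i
    · rcases j with j | j
      · rw [Matrix.fromBlocks_apply₁₁, LinearMap.toMatrix_apply, LinearMap.toMatrix_apply,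
          Module.Basis.prod_repr_inl]
        have h1 : (bA.prod bC) (Sum.inl j) = (bA j, 0) := by
          ext <;> simp
        rw [h1, hT1]
      · rfl
    · rcases j with j | j
      · rw [Matrix.fromBlocks_apply₂₁, LinearMap.toMatrix_apply, Module.Basis.prod_repr_inr]
        have h1 : (bA.prod bC) (Sum.inl j) = (bA j, 0) := by
          ext <;> simp
        rw [h1, hT1]
        simp
      · rw [Matrix.fromBlocks_apply₂₂, LinearMap.toMatrix_apply, LinearMap.toMatrix_apply,
          Module.Basis.prod_repr_inr, hT2]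
        have h1 : ((bA.prod bC) (Sum.inr j)).2 = bC j := by simp
        rw [h1]
  rw [hM, Matrix.charpoly_fromBlocks_zero₂₁]

theorem thm_ADD : St_ADD := by
  refine ⟨fun K A B C _ _ _ _ _ _ _ _ _ _ a b c h => ADD_charpoly K A B C a b c h, ?_⟩
  intro K A B C _ _ _ _ _ _ _ a b c h
  obtain ⟨f, g, hf, hg, hfg, hfa, hgb⟩ := id h
  obtain ⟨e, he1, he2⟩ := ADD_split f g hf hg hfg
  refine ⟨fun hB => ?_, fun hA hC => Module.Finite.equiv e⟩
  have hA : Module.Finite K A := Module.Finite.of_injective f hf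
  have hC : Module.Finite K C := Module.Finite.of_surjective g hg
  refine ⟨hA, hC, ?_⟩
  have h1 := ADD_charpoly K A B C a b c h
  unfold ch
  rw [dif_pos hB, dif_pos hA, dif_pos hC, h1, Polynomial.aroots_mul, Multiset.map_add,
    Multiset.sum_add]
  exact mul_ne_zero (LinearMap.charpoly_monic a).ne_zero (LinearMap.charpoly_monic c).ne_zero

end Pool.Agent.ARS
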