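import Pool.Agent.ARS.StL

/-! ARS, module ANN: roots of the characteristic polynomial are roots of every annihilating
polynomial (MP_7dc157_al). -/

set_option autoImplicit false

namespace Pool.Agent.ARS

open Polynomial

theorem thm_ANN : St_ANN := by
  intro K Q _ _ _ _ A p hp a ha
  have h1 : (A.baseChange (AlgebraicClosure K)).charpoly =
      A.charpoly.map (algebraMap K (AlgebraicClosure K)) :=
    LinearMap.charpoly_baseChange A (AlgebraicClosure K)
  have h2 : (A.baseChange (AlgebraicClosure K)).charpoly.IsRoot a := by
    rw [h1, IsRoot.def, eval_map_algebraMap]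
    exact ha
  have h3 : Module.End.HasEigenvalue (A.baseChange (AlgebraicClosure K)) a :=
    (Module.End.hasEigenvalue_iff_isRoot_charpoly _ _).2 h2
  obtain ⟨v, hv⟩ := h3.exists_hasEigenvector
  have h4 : aeval (Module.End.baseChangeHom K (AlgebraicClosure K) Q A) p = 0 := by
    rw [aeval_algHom_apply, hp, map_zero]
  have h5 := Module.End.aeval_apply_of_hasEigenvector
    (p := p.map (algebraMap K (AlgebraicClosure K))) hv
  rw [aeval_map_algebraMap] at h5
  have h6 : aeval (A.baseChange (AlgebraicClosure K) :
      Module.End (AlgebraicClosure K) _) p = 0 := h4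
  rw [h6, LinearMap.zero_apply, eval_map_algebraMap] at h5
  have h7 := smul_eq_zero.1 h5.symm
  exact h7.resolve_right hv.2

end Pool.Agent.ARS
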