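import Pool.Agent.ARS.StN

/-!
# ARS : module CHF, characters for free modules
-/

set_option autoImplicit false

namespace Pool.Agent.ARS

open IsLocalRing

section CHF

variable {K R : Type} [Field K] [CommRing R] [Algebra K R] {D : Derivation K R R}

/-- linear maps out of a free module with a connection -/
private theorem CHF_hom (M : NM D) {n : ℕ} (a : Matrix (Fin n) (Fin n) R) :
    Iso (M.pow (-a.transpose)) (((NM.one D).pow a).hom M) := by
  refine ⟨Module.piEquiv (Fin n) R M.X, fun v => ?_⟩
  apply LinearMap.ext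
  intro (w : Fin n → R)
  have h1 : ∀ (v : Fin n → M.X) (w : Fin n → R),
      Module.piEquiv (Fin n) R M.X v w = ∑ i, w i • v i := fun v w =>
    Module.piEquiv_apply_apply (Fin n) R M.X v w
  refine Eq.trans (h1 _ w) ?_
  obtain ⟨W, hW⟩ : ∃ W : Fin n → R, W = ((NM.one D).pow a).N w := ⟨_, rfl⟩
  refine Eq.trans ?_ (congrArg₂ (fun s t : M.X => s - t) (congrArg M.N (h1 v w)).symm
    ((h1 v W).symm.trans (congrArg (Module.piEquiv (Fin n) R M.X v) hW)))
  have h2 : ∀ i, (M.pow (-a.transpose)).N v i = M.N (v i) + ∑ j, (-a.transpose) i j • v j :=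
    fun i => rfl
  have h3 : ∀ i, W i = D (w i) + ∑ j, a i j * w j := fun i => congrFun hW i
  have h4 : ∑ i, w i • ∑ j, (-a.transpose) i j • v j = -∑ i, (∑ j, a i j * w j) • v i := by
    simp only [Finset.smul_sum, Finset.sum_smul]
    rw [Finset.sum_comm, ← Finset.sum_neg_distrib]
    refine Finset.sum_congr rfl fun i _ => ?_
    rw [← Finset.sum_neg_distrib]
    refine Finset.sum_congr rfl fun j _ => ?_
    rw [smul_smul, ← neg_smul]
    congr 1
    show w j * -(a i j) = -(a i j * w j)
    ring
  have h5 : ∑ i, w i • (M.pow (-a.transpose)).N v i =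
      ∑ i, w i • M.N (v i) + ∑ i, w i • ∑ j, (-a.transpose) i j • v j := by
    rw [← Finset.sum_add_distrib]
    refine Finset.sum_congr rfl fun i _ => ?_
    rw [h2, smul_add]
  have h6 : ∑ i, W i • v i =
      ∑ i, D (w i) • v i + ∑ i, (∑ j, a i j * w j) • v i := by
    rw [← Finset.sum_add_distrib]
    refine Finset.sum_congr rfl fun i _ => ?_
    rw [h3, add_smul]
  have h7 : M.N (∑ i, w i • v i) = ∑ i, D (w i) • v i + ∑ i, w i • M.N (v i) := by
    rw [map_sum, ← Finset.sum_add_distrib]
    exact Finset.sum_congr rfl fun i _ => M.leib (w i) (v i)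
  rw [h5, h4, h7, h6]
  abel

/-- reduction of a power -/
private theorem CHF_red (M : NM D) {y : R} {m : ℕ} (hy : D y = (m : R) * y) {n : ℕ}
    (b : Matrix (Fin n) (Fin n) R) : Iso ((M.pow b).red hy) ((M.red hy).pow b) := by
  let f : (Fin n → M.X) →ₗ[R] (Fin n → (M.red hy).X) := (M.mod hy).compLeft (Fin n)
  have hf : ∀ v i, f v i = M.mod hy (v i) := fun v i => rfl
  have hk : ∀ v : Fin n → M.X, f v = 0 ↔
      v ∈ (Ideal.span {y} • ⊤ : Submodule R (Fin n → M.X)) := by
    intro v
    rw [Submodule.ideal_span_singleton_smul, Submodule.mem_smul_pointwise_iff_exists]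
    constructor
    · intro h
      have h1 : ∀ i, ∃ w : M.X, y • w = v i := by
        intro i
        have h2 : M.mod hy (v i) = 0 := by
          rw [← hf, h]
          rfl
        have h3 : v i ∈ (Ideal.span {y} • ⊤ : Submodule R M.X) :=
          (Submodule.Quotient.mk_eq_zero _).1 h2
        rw [Submodule.ideal_span_singleton_smul, Submodule.mem_smul_pointwise_iff_exists] at h3
        obtain ⟨w, _, hw⟩ := h3
        exact ⟨w, hw⟩
      choose w hw using h1
      exact ⟨w, trivial, funext hw⟩
    · rintro ⟨w, _, rfl⟩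
      funext i
      rw [hf]
      refine (Submodule.Quotient.mk_eq_zero _).2 ?_
      rw [Submodule.ideal_span_singleton_smul, Submodule.mem_smul_pointwise_iff_exists]
      exact ⟨w i, trivial, rfl⟩
  have hle : (Ideal.span {y} • ⊤ : Submodule R (Fin n → M.X)) ≤ LinearMap.ker f :=
    fun v hv => (hk v).2 hv
  let F : ((M.pow b).red hy).X →ₗ[R] (Fin n → (M.red hy).X) :=
    (Ideal.span {y} • ⊤ : Submodule R (Fin n → M.X)).liftQ f hle
  have hF : ∀ v : Fin n → M.X,
      F ((Ideal.span {y} • ⊤ : Submodule R (Fin n → M.X)).mkQ v) = f v := fun v => rfl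
  have hinj : Function.Injective F := by
    rw [injective_iff_map_eq_zero]
    intro x hx
    obtain ⟨v, rfl⟩ := (Ideal.span {y} • ⊤ : Submodule R (Fin n → M.X)).mkQ_surjective x
    exact (Submodule.Quotient.mk_eq_zero _).2 ((hk v).1 hx)
  have hsurj : Function.Surjective F := by
    intro x
    choose w hw using fun i => (Ideal.span {y} • ⊤ : Submodule R M.X).mkQ_surjective (x i)
    exact ⟨(Ideal.span {y} • ⊤ : Submodule R (Fin n → M.X)).mkQ w, funext hw⟩
  refine ⟨LinearEquiv.ofBijective F ⟨hinj, hsurj⟩, fun x => ?_⟩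
  obtain ⟨v, rfl⟩ := (Ideal.span {y} • ⊤ : Submodule R (Fin n → M.X)).mkQ_surjective x
  funext i
  show M.mod hy (M.N (v i) + ∑ j, b i j • v j) =
    (M.red hy).N (M.mod hy (v i)) + ∑ j, b i j • M.mod hy (v j)
  rw [map_add, map_sum]
  refine congrArg₂ _ rfl ?_
  exact Finset.sum_congr rfl fun j _ => map_smul _ _ _

end CHF

/-- [CHF] Characters for the free module `F = one.pow a`. -/
theorem thm_CHF (hPOW : St_POW) (hNEG : St_NEG) (hISO : St_ISO) (hRFN : St_RFN) : St_CHF := by
  intro K R _ _ _ _ _ _ D y m h M hM n a a0 ha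
  have ired : ∀ A B : NM D, Iso A B → Iso (A.red h.eig) (B.red h.eig) := fun A B =>
    (hISO K R D y m h.eig A B A).2.2.2.2.1
  have ich : ∀ A B : NM D, Iso A B → A.ch = B.ch := fun A B =>
    (hISO K R D y m h.eig A B A).2.2.2.1
  constructor
  · have h1 := ich _ _ (ired _ _ (CHF_hom M a))
    have h2 := ich _ _ (CHF_red M h.eig (-a.transpose))
    have h3 := hPOW K R D y m h (M.red h.eig) ((hRFN K R D y m h M M).1 hM) n (-a.transpose)
      (-a0.transpose) (fun i j => by
        have h4 : (-a.transpose) i j - algebraMap K R ((-a0.transpose) i j) =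
            -(a j i - algebraMap K R (a0 j i)) := by
          show -(a j i) - algebraMap K R (-(a0 j i)) = _
          rw [map_neg]
          ring
        rw [h4]
        exact neg_mem (ha j i))
    rw [← h1, h2, h3, hNEG]
  · have h2 := ich _ _ (CHF_red (NM.one D) h.eig a)
    have h3 := hPOW K R D y m h ((NM.one D).red h.eig)
      ((hRFN K R D y m h (NM.one D) M).1 (inferInstanceAs (Module.Finite R R))) n a a0 ha
    rw [h2, h3]

end Pool.Agent.ARS
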