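import Pool.Agent.ARS.StN

/-! ARS [CON] : a rigid module has a connection. -/

set_option autoImplicit false

namespace Pool.Agent.ARS

section

variable {K R : Type} [Field K] [CommRing R] [Algebra K R] (D : Derivation K R R)

private def CON_d {n : ℕ} (v : Fin n → R) : Fin n → R := fun i => D (v i)

private theorem CON_d_add {n : ℕ} (v w : Fin n → R) : CON_d D (v + w) = CON_d D v + CON_d D w := by
  funext i
  exact map_add D _ _

private theorem CON_d_sub {n : ℕ} (v w : Fin n → R) : CON_d D (v - w) = CON_d D v - CON_d D w := by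
  funext i
  exact map_sub D _ _

private theorem CON_d_smul {n : ℕ} (r : R) (v : Fin n → R) :
    CON_d D (r • v) = D r • v + r • CON_d D v := by
  funext i
  change D (r * v i) = D r * v i + r * D (v i)
  rw [D.leibniz, smul_eq_mul, smul_eq_mul]
  ring

end

theorem thm_CON : St_CON := by
  intro K R _ _ _ D M _ _ _ hE
  obtain ⟨n, p, hp⟩ := Module.Finite.exists_fin' R M
  -- the linear map on the kernel
  let ψ : LinearMap.ker p →ₗ[R] M :=
    { toFun := fun v => p (CON_d D v)
      map_add' := fun v w => by
        change p (CON_d D ((v : Fin n → R) + w)) = _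
        rw [CON_d_add, map_add]
      map_smul' := fun r v => by
        change p (CON_d D (r • (v : Fin n → R))) = r • p (CON_d D v)
        rw [CON_d_smul, map_add, map_smul, map_smul, LinearMap.mem_ker.mp v.2, smul_zero,
          zero_add] }
  obtain ⟨φ, hφ⟩ := hE n p hp ψ
  let s : M → (Fin n → R) := Function.surjInv hp
  have hs : ∀ x, p (s x) = x := Function.surjInv_eq hp
  have key : ∀ v : Fin n → R, p (CON_d D (s (p v))) - φ (s (p v)) = p (CON_d D v) - φ v := by
    intro v
    have h1 : v - s (p v) ∈ LinearMap.ker p := by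
      rw [LinearMap.mem_ker, map_sub, hs, sub_self]
    have h2 : φ (v - s (p v)) = p (CON_d D (v - s (p v))) := hφ ⟨v - s (p v), h1⟩
    rw [CON_d_sub, map_sub, map_sub] at h2
    have h3 : p (CON_d D v) = φ v - φ (s (p v)) + p (CON_d D (s (p v))) := by
      rw [h2, sub_add_cancel]
    rw [h3]
    abel
  let N₀ : M → M := fun x => p (CON_d D (s x)) - φ (s x)
  have hN : ∀ v, N₀ (p v) = p (CON_d D v) - φ v := key
  have hadd : ∀ x y, N₀ (x + y) = N₀ x + N₀ y := by
    intro x y
    have h1 : x + y = p (s x + s y) := by rw [map_add, hs, hs]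
    rw [h1, hN, CON_d_add, map_add, map_add]
    change _ = (p (CON_d D (s x)) - φ (s x)) + (p (CON_d D (s y)) - φ (s y))
    abel
  have hleib : ∀ (r : R) (x : M), N₀ (r • x) = D r • x + r • N₀ x := by
    intro r x
    have h1 : r • x = p (r • s x) := by rw [map_smul, hs]
    rw [h1, hN, CON_d_smul, map_add, map_smul, map_smul, map_smul, hs]
    change _ = D r • x + r • (p (CON_d D (s x)) - φ (s x))
    rw [smul_sub, add_sub_assoc]
  letI iK : Module K M := Module.compHom M (algebraMap K R)
  haveI iT : IsScalarTower K R M := IsScalarTower.of_algebraMap_smul (fun _ _ => rfl)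
  refine ⟨⟨M, { toFun := N₀, map_add' := hadd, map_smul' := ?_ }, hleib⟩, ⟨LinearEquiv.refl R M⟩⟩
  intro c x
  change N₀ (algebraMap K R c • x) = algebraMap K R c • N₀ x
  rw [hleib, Derivation.map_algebraMap, zero_smul, zero_add]

end Pool.Agent.ARS
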