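import Pool.Agent.ARS.StN
import Pool.Agent.HWC.ExtFree

/-! ARS DUR: duality for torsionfree modules -/

set_option autoImplicit false

namespace Pool.Agent.ARS

open IsLocalRing

/-- membership in `y X` -/
private theorem DUR_mem {R X : Type} [CommRing R] [AddCommGroup X] [Module R X] (y : R) (x : X) :
    x ∈ (Ideal.span {y} • ⊤ : Submodule R X) ↔ ∃ w : X, y • w = x := by
  rw [Submodule.ideal_span_singleton_smul, Submodule.mem_smul_pointwise_iff_exists]
  constructor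
  · rintro ⟨w, _, h⟩
    exact ⟨w, h⟩
  · rintro ⟨w, h⟩
    exact ⟨w, trivial, h⟩

/-- the reduction of a functional -/
private def DUR_F {R : Type} [CommRing R] (X : Type) [AddCommGroup X] [Module R X] (y : R) :
    (X →ₗ[R] R) →ₗ[R] ((X ⧸ (Ideal.span {y} • ⊤ : Submodule R X)) →ₗ[R]
      (R ⧸ (Ideal.span {y} • ⊤ : Submodule R R))) where
  toFun f := Submodule.liftQ _ ((Submodule.mkQ (Ideal.span {y} • ⊤ : Submodule R R)).comp f) (by
    intro x hx
    obtain ⟨w, rfl⟩ := (DUR_mem y x).1 hx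
    rw [LinearMap.mem_ker, LinearMap.comp_apply, Submodule.mkQ_apply,
      Submodule.Quotient.mk_eq_zero, DUR_mem]
    exact ⟨f w, (map_smul f y w).symm⟩)
  map_add' f g := by
    ext v
    rfl
  map_smul' r f := by
    ext v
    rfl

private theorem DUR_F_apply {R : Type} [CommRing R] (X : Type) [AddCommGroup X] [Module R X]
    (y : R) (f : X →ₗ[R] R) (v : X) :
    DUR_F X y f ((Ideal.span {y} • ⊤ : Submodule R X).mkQ v) =
      (Ideal.span {y} • ⊤ : Submodule R R).mkQ (f v) := rfl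

private theorem DUR_ker {R : Type} [CommRing R] [IsDomain R] (X : Type) [AddCommGroup X]
    [Module R X] (y : R) (hy : y ≠ 0) :
    (Ideal.span {y} • ⊤ : Submodule R (X →ₗ[R] R)) = LinearMap.ker (DUR_F X y) := by
  ext f
  rw [DUR_mem, LinearMap.mem_ker]
  constructor
  · rintro ⟨g, rfl⟩
    apply LinearMap.ext
    intro q
    obtain ⟨v, rfl⟩ := Submodule.mkQ_surjective _ q
    rw [DUR_F_apply, Submodule.mkQ_apply, LinearMap.zero_apply, Submodule.Quotient.mk_eq_zero,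
      DUR_mem]
    exact ⟨g v, rfl⟩
  · intro hf
    have hd : ∀ v, ∃ r : R, y * r = f v := by
      intro v
      have h1 := LinearMap.congr_fun hf ((Ideal.span {y} • ⊤ : Submodule R X).mkQ v)
      rw [DUR_F_apply, Submodule.mkQ_apply, LinearMap.zero_apply, Submodule.Quotient.mk_eq_zero,
        DUR_mem] at h1
      exact h1
    choose g hg using hd
    refine ⟨⟨⟨g, ?_⟩, ?_⟩, ?_⟩
    · intro v w
      apply mul_left_cancel₀ hy
      rw [mul_add, hg, hg, hg, map_add]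
    · intro r v
      apply mul_left_cancel₀ hy
      show y * g (r • v) = y * (r * g v)
      rw [hg, map_smul, smul_eq_mul, ← hg v]
      ring
    · apply LinearMap.ext
      intro v
      exact hg v

private theorem DUR_surj {R : Type} [CommRing R] [IsDomain R] [IsLocalRing R]
    [IsNoetherianRing R] (hP : HWC.Pkg R) (X : Type) [AddCommGroup X] [Module R X]
    [Module.Finite R X] (hX : HWC.TF R X) (y : R) (hy : y ≠ 0) :
    Function.Surjective (DUR_F X y) := by
  intro φ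
  have heq : (Ideal.span {y} • ⊤ : Submodule R R) = Ideal.span {y} := by
    ext r
    rw [DUR_mem, Ideal.mem_span_singleton]
    constructor
    · rintro ⟨w, hw⟩
      exact ⟨w, hw.symm⟩
    · rintro ⟨w, hw⟩
      exact ⟨w, hw.symm⟩
  obtain ⟨ψ, hψ⟩ := HWC.lift_fun R hP X hX y hy
    ((Submodule.quotEquivOfEq _ _ heq).toLinearMap.comp
      (φ.comp (Ideal.span {y} • ⊤ : Submodule R X).mkQ))
  refine ⟨ψ, ?_⟩
  apply LinearMap.ext
  intro q
  obtain ⟨v, rfl⟩ := Submodule.mkQ_surjective _ q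
  apply (Submodule.quotEquivOfEq _ _ heq).injective
  exact hψ v

private theorem DUR_equiv {R : Type} [CommRing R] [IsDomain R] [IsLocalRing R]
    [IsNoetherianRing R] (hP : HWC.Pkg R) (X : Type) [AddCommGroup X] [Module R X]
    [Module.Finite R X] (hX : HWC.TF R X) (y : R) (hy : y ≠ 0) :
    ∃ e : ((X →ₗ[R] R) ⧸ (Ideal.span {y} • ⊤ : Submodule R (X →ₗ[R] R))) ≃ₗ[R]
      ((X ⧸ (Ideal.span {y} • ⊤ : Submodule R X)) →ₗ[R]
        (R ⧸ (Ideal.span {y} • ⊤ : Submodule R R))),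
      ∀ (f : X →ₗ[R] R) (v : X),
        e ((Ideal.span {y} • ⊤ : Submodule R (X →ₗ[R] R)).mkQ f)
          ((Ideal.span {y} • ⊤ : Submodule R X).mkQ v) =
        (Ideal.span {y} • ⊤ : Submodule R R).mkQ (f v) := by
  refine ⟨(Submodule.quotEquivOfEq _ _ (DUR_ker X y hy)).trans
    ((DUR_F X y).quotKerEquivOfSurjective (DUR_surj hP X hX y hy)), ?_⟩
  intro f v
  rfl

theorem thm_DUR (hGOR : St_GOR) (hISO : St_ISO) (hRFN : St_RFN) : St_DUR := by
  intro K R _ _ _ _ _ _ D y m h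
  obtain ⟨c, hc⟩ := hGOR K R D y m h
  refine ⟨c, ?_⟩
  intro A hfin hTF
  have h1 := hc (A.red h.eig) ((hRFN K R D y m h A A).1 hfin) (by
    intro q
    obtain ⟨x, rfl⟩ := Submodule.mkQ_surjective _ q
    show y • (Ideal.span {y} • ⊤ : Submodule R A.X).mkQ x = 0
    rw [← map_smul, Submodule.mkQ_apply, Submodule.Quotient.mk_eq_zero, DUR_mem]
    exact ⟨x, rfl⟩)
  rw [← h1]
  refine (hISO K R D y m h.eig _ _ (NM.one D)).2.2.2.1 ?_
  obtain ⟨e, he⟩ := DUR_equiv h.pkg A.X hTF y h.ne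
  refine ⟨e, ?_⟩
  intro u
  obtain ⟨f, rfl⟩ : ∃ f : A.X →ₗ[R] R,
    (Ideal.span {y} • ⊤ : Submodule R (A.X →ₗ[R] R)).mkQ f = u := Submodule.mkQ_surjective _ u
  apply LinearMap.ext
  intro q
  obtain ⟨v, rfl⟩ : ∃ v : A.X, (Ideal.span {y} • ⊤ : Submodule R A.X).mkQ v = q :=
    Submodule.mkQ_surjective _ q
  let Z : NM D := (NM.one D).red h.eig
  let π : R → Z.X := fun r => (Ideal.span {y} • ⊤ : Submodule R R).mkQ r
  obtain ⟨g, hg⟩ : ∃ g : A.X →ₗ[R] R, g = (A.hom (NM.one D)).N f := ⟨_, rfl⟩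
  have hgv : g v = D (f v) - f (A.N v) := by
    rw [hg]
    rfl
  have e1 : e ((Ideal.span {y} • ⊤ : Submodule R (A.X →ₗ[R] R)).mkQ g)
      ((Ideal.span {y} • ⊤ : Submodule R A.X).mkQ v) = π (g v) := he g v
  have e2 : e ((Ideal.span {y} • ⊤ : Submodule R (A.X →ₗ[R] R)).mkQ f)
      ((Ideal.span {y} • ⊤ : Submodule R A.X).mkQ v) = π (f v) := he f v
  have e3 : e ((Ideal.span {y} • ⊤ : Submodule R (A.X →ₗ[R] R)).mkQ f)
      ((Ideal.span {y} • ⊤ : Submodule R A.X).mkQ (A.N v)) = π (f (A.N v)) := he f (A.N v)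
  have e4 : π (g v) = Z.N (π (f v)) - π (f (A.N v)) := by
    rw [hgv]
    exact map_sub (Submodule.mkQ (Ideal.span {y} • ⊤ : Submodule R R)) (D (f v)) (f (A.N v))
  have e5 := e1.trans e4
  rw [← e2, ← e3, hg] at e5
  exact e5

end Pool.Agent.ARS
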