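import Pool.Agent.ARS.StE
import Pool.Agent.HWR.ExtLift
import Pool.Agent.HWC.Reflex

/-! helper11. The Ext modules of ARS. -/

set_option autoImplicit false

namespace Pool.Agent.ARS

theorem thm_Ext : St_Ext := by
  intro R _ _ X M _ _ _ _ h
  refine ⟨fun n p hp ψ => HWR.ext_lift (h 1 le_rfl) p hp ψ, fun n p hp i hi => ?_⟩
  exact HWR.ext_shift i hi (h (i + 1) (by omega)) p hp

theorem thm_TF : St_TF := by
  intro R _ _ _ _ hP M _ _ _ hE s m hsm
  by_cases hs : s = 0
  · exact Or.inl hs
  right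
  obtain ⟨n, p, hp⟩ := Module.Finite.exists_fin' R M
  obtain ⟨v, rfl⟩ := hp m
  have hsv : s • v ∈ LinearMap.ker p := by
    rw [LinearMap.mem_ker, map_smul]; exact hsm
  have htf : HWC.TF R (LinearMap.ker p) := by
    intro c k hck
    by_cases hc : c = 0
    · exact Or.inl hc
    right
    apply Subtype.ext
    funext i
    have h1 := congrFun (congrArg Subtype.val hck) i
    have h2 : c * (k : Fin n → R) i = 0 := h1
    exact (mul_eq_zero.1 h2).resolve_left hc
  have hrefl := HWC.reflexive R hP (LinearMap.ker p) htf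
  have hex : ∀ φ : Module.Dual R (LinearMap.ker p), ∃ c : R, s * c = φ ⟨s • v, hsv⟩ := by
    intro φ
    obtain ⟨ψ, hψ⟩ := hE n p hp φ
    refine ⟨ψ v, ?_⟩
    rw [← hψ, map_smul, smul_eq_mul]
  choose c hc using hex
  let ξ : Module.Dual R (Module.Dual R (LinearMap.ker p)) :=
    { toFun := c
      map_add' := fun φ φ' => by
        apply mul_left_cancel₀ hs
        rw [mul_add, hc, hc, hc]
        rfl
      map_smul' := fun r φ => by
        apply mul_left_cancel₀ hs
        rw [RingHom.id_apply, smul_eq_mul, hc, mul_left_comm, hc]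
        rfl }
  obtain ⟨w, hw⟩ := hrefl.bijective_dual_eval'.2 ξ
  have hwv : (w : Fin n → R) = v := by
    funext i
    apply mul_left_cancel₀ hs
    let φ : Module.Dual R (LinearMap.ker p) := (LinearMap.proj i).comp (Submodule.subtype _)
    have h1 := hc φ
    have h2 : (w : Fin n → R) i = c φ := congrArg (fun z => z φ) hw
    rw [h2, h1]
    rfl
  rw [← hwv]
  exact w.2

theorem thm_Split : St_Split := by
  intro R _ X M E _ _ _ _ _ _ _ hE j q hj hq hjq
  obtain ⟨n, p, hp⟩ := Module.Finite.exists_fin' R X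
  -- lift the cover of `X` to `E`
  obtain ⟨P, hP⟩ : ∃ P : (Fin n → R) →ₗ[R] E, ∀ v, q (P v) = p v := by
    choose e he using fun i : Fin n => hq (p (Pi.single i 1))
    refine ⟨(Pi.basisFun R (Fin n)).constr R e, fun v => ?_⟩
    have h1 : q.comp ((Pi.basisFun R (Fin n)).constr R e) = p := by
      apply (Pi.basisFun R (Fin n)).ext
      intro i
      rw [LinearMap.comp_apply, Module.Basis.constr_basis, he, Pi.basisFun_apply]
    exact congrArg (fun z => z v) h1
  have hk : ∀ k : LinearMap.ker p, ∃ m, j m = P k := fun k => (hjq _).1 (by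
    rw [hP]; exact k.2)
  choose φ0 hφ0 using hk
  let φ : LinearMap.ker p →ₗ[R] M :=
    { toFun := φ0
      map_add' := fun a b => hj (by
        rw [map_add, hφ0, hφ0, hφ0, Submodule.coe_add, map_add])
      map_smul' := fun r a => hj (by
        rw [RingHom.id_apply, map_smul, hφ0, hφ0, Submodule.coe_smul, map_smul]) }
  obtain ⟨ψ, hψ⟩ := hE n p hp φ
  have hzero : ∀ v, p v = 0 → P v = j (ψ v) := by
    intro v hv
    have h1 := hψ ⟨v, hv⟩
    rw [show ψ v = φ ⟨v, hv⟩ from h1]
    exact (hφ0 ⟨v, hv⟩).symm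
  choose s0 hs0 using hp
  have key : ∀ v w, p v = p w → P v - j (ψ v) = P w - j (ψ w) := by
    intro v w h
    have h1 := hzero (v - w) (by rw [map_sub, h, sub_self])
    rw [map_sub, map_sub, map_sub] at h1
    rw [sub_eq_sub_iff_sub_eq_sub]
    exact h1
  refine ⟨{ toFun := fun x => P (s0 x) - j (ψ (s0 x)), map_add' := ?_, map_smul' := ?_ }, ?_⟩
  · intro x y
    rw [key (s0 (x + y)) (s0 x + s0 y) (by rw [map_add, hs0, hs0, hs0]), map_add, map_add, map_add]
    abel
  · intro r x
    rw [RingHom.id_apply, key (s0 (r • x)) (r • s0 x) (by rw [map_smul, hs0, hs0]), map_smul,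
      map_smul, map_smul, smul_sub]
  · intro x
    show q (P (s0 x) - j (ψ (s0 x))) = x
    rw [map_sub, hP, hs0, (hjq _).2 ⟨_, rfl⟩, sub_zero]

end Pool.Agent.ARS
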