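import Pool.Agent.ARS.FND

/-! ARS FIN (helper9). -/

set_option autoImplicit false

namespace Pool.Agent.ARS

open IsLocalRing

private theorem FINt_mem {R X : Type} [CommRing R] [AddCommGroup X] [Module R X] (y : R) (x : X) :
    x ∈ (Ideal.span {y} • ⊤ : Submodule R X) ↔ ∃ w : X, y • w = x := by
  rw [Submodule.ideal_span_singleton_smul, Submodule.mem_smul_pointwise_iff_exists]
  exact ⟨fun ⟨b, _, hb⟩ => ⟨b, hb⟩, fun ⟨b, hb⟩ => ⟨b, trivial, hb⟩⟩

private theorem FINt_fin {K R : Type} [Field K] [CommRing R] [Algebra K R] (I : Ideal R)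
    (hI : Module.Finite K (R ⧸ I)) (Q : Type) [AddCommGroup Q] [Module R Q] [Module K Q]
    [IsScalarTower K R Q] [Module.Finite R Q] (hQ : ∀ r ∈ I, ∀ q : Q, r • q = 0) :
    Module.Finite K Q := by
  obtain ⟨n, p, hp⟩ := Module.Finite.exists_fin' R Q
  let g : Fin n → ((R ⧸ I) →ₗ[R] Q) := fun i =>
    Submodule.liftQ I (LinearMap.toSpanSingleton R Q (p (Pi.single i 1))) (fun r hr => by
      rw [LinearMap.mem_ker, LinearMap.toSpanSingleton_apply]
      exact hQ r hr _)
  let G : (Fin n → R ⧸ I) →ₗ[K] Q :=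
    ∑ i, ((g i).restrictScalars K).comp (LinearMap.proj i)
  have hG : Function.Surjective G := by
    intro q
    obtain ⟨v, rfl⟩ := hp q
    refine ⟨fun i => Ideal.Quotient.mk I (v i), ?_⟩
    have h1 : G (fun i => Ideal.Quotient.mk I (v i)) = ∑ i, v i • p (Pi.single i 1) := by
      show (∑ i, ((g i).restrictScalars K).comp (LinearMap.proj i)) _ = _
      rw [LinearMap.sum_apply]
      rfl
    rw [h1]
    have h2 : v = ∑ i, v i • (Pi.single i (1 : R) : Fin n → R) := by
      funext k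
      rw [Finset.sum_apply, Finset.sum_eq_single k]
      · rw [Pi.smul_apply, Pi.single_eq_same, smul_eq_mul, mul_one]
      · intro b _ hb
        rw [Pi.smul_apply, Pi.single_eq_of_ne (Ne.symm hb), smul_zero]
      · intro h; exact absurd (Finset.mem_univ _) h
    conv_rhs => rw [h2]
    rw [map_sum]
    simp only [map_smul]
  exact Module.Finite.of_surjective G hG

theorem thm_FINt (hADD : St_ADD) (hSHF : St_SHF) (hNON : St_NON) (hGRD : St_GRD)
    (hRFN : St_RFN) : St_FIN := by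
  intro K R _ _ _ _ _ _ _ D y m h E hE hEt T hT hj hch
  obtain ⟨j, hj⟩ := hj
  -- the quotient is finite dimensional
  have hQf : Module.Finite K (E.quo T hT).X := by
    have hI : Module.Finite K (R ⧸ Ideal.span {y ^ (j + 1)}) :=
      FND h.pkg h.res (y ^ (j + 1)) (Ideal.pow_mem_of_mem _ h.mem _ (by omega))
        (pow_ne_zero _ h.ne)
    have hfin : Module.Finite R (E.X ⧸ T) := inferInstance
    refine FINt_fin (Ideal.span {y ^ (j + 1)}) hI (E.X ⧸ T) ?_
    intro r hr q
    obtain ⟨e, rfl⟩ := T.mkQ_surjective q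
    obtain ⟨s, rfl⟩ := Ideal.mem_span_singleton'.1 hr
    rw [← map_smul, ← LinearMap.mem_ker, Submodule.ker_mkQ, mul_smul, pow_succ, mul_smul]
    exact T.smul_mem _ (hj _)
  have hcan : ∀ u v : E.X, y • u = y • v → u = v := by
    intro u v huv
    rcases hEt y (u - v) (by rw [smul_sub, huv, sub_self]) with h2 | h2
    · exact absurd h2 h.ne
    · exact sub_eq_zero.1 h2
  -- the submodule `y T`
  let Y : Submodule R E.X := T.map (LinearMap.lsmul R E.X y)
  have hYm : ∀ e, e ∈ Y ↔ ∃ t ∈ T, y • t = e := fun e => Iff.rfl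
  have hN : ∀ e : E.X, E.N (y • e) = y • ((m : R) • e + E.N e) := by
    intro e
    rw [E.leib, h.eig, smul_add, mul_comm, mul_smul]
  have hY : ∀ e ∈ Y, E.N e ∈ Y := by
    intro e he
    obtain ⟨t, ht, rfl⟩ := (hYm e).1 he
    rw [hN]
    exact (hYm _).2 ⟨_, T.add_mem (T.smul_mem _ ht) (hT t ht), rfl⟩
  let P : Submodule R E.X := Ideal.span {y} • ⊤
  let PT : Submodule R T := Ideal.span {y} • ⊤
  -- first sequence
  have ex1 : ExK ((E.sub T hT).red h.eig).N (E.quo Y hY).N (E.quo T hT).N := by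
    have hf0 : PT ≤ Y.comap T.subtype := by
      intro t ht
      obtain ⟨w, rfl⟩ := (FINt_mem y t).1 ht
      exact (hYm _).2 ⟨w, w.2, rfl⟩
    have hg0 : Y ≤ T.comap LinearMap.id := by
      intro e he
      obtain ⟨t, ht, rfl⟩ := (hYm e).1 he
      exact T.smul_mem _ ht
    let f : (T ⧸ PT) →ₗ[R] (E.X ⧸ Y) := PT.mapQ Y T.subtype hf0
    let g : (E.X ⧸ Y) →ₗ[R] (E.X ⧸ T) := Y.mapQ T LinearMap.id hg0
    refine ⟨f.restrictScalars K, g.restrictScalars K, ?_, ?_, ?_, ?_, ?_⟩
    · show Function.Injective f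
      rw [injective_iff_map_eq_zero]
      intro u hu
      obtain ⟨t, rfl⟩ := PT.mkQ_surjective u
      have h1 : Y.mkQ (t : E.X) = 0 := hu
      rw [← LinearMap.mem_ker, Submodule.ker_mkQ] at h1
      obtain ⟨t', ht', h2⟩ := (hYm _).1 h1
      rw [← LinearMap.mem_ker, Submodule.ker_mkQ]
      exact (FINt_mem y t).2 ⟨⟨t', ht'⟩, Subtype.ext h2⟩
    · show Function.Surjective g
      intro v
      obtain ⟨e, rfl⟩ := T.mkQ_surjective v
      exact ⟨Y.mkQ e, rfl⟩
    · show ∀ v, g v = 0 ↔ ∃ u, f u = v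
      intro v
      obtain ⟨e, rfl⟩ := Y.mkQ_surjective v
      constructor
      · intro hv
        have h1 : T.mkQ e = 0 := hv
        rw [← LinearMap.mem_ker, Submodule.ker_mkQ] at h1
        exact ⟨PT.mkQ ⟨e, h1⟩, rfl⟩
      · rintro ⟨u, hu⟩
        obtain ⟨t, rfl⟩ := PT.mkQ_surjective u
        rw [← hu]
        show T.mkQ (t : E.X) = 0
        rw [← LinearMap.mem_ker, Submodule.ker_mkQ]
        exact t.2
    · intro (u : T ⧸ PT)
      obtain ⟨t, rfl⟩ := PT.mkQ_surjective u
      rfl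
    · intro (v : E.X ⧸ Y)
      obtain ⟨e, rfl⟩ := Y.mkQ_surjective v
      rfl
  -- second sequence
  have ex2 : ExK ((E.quo T hT).N + (m : K) • LinearMap.id) (E.quo Y hY).N (E.red h.eig).N := by
    have hf0 : T ≤ Y.comap (LinearMap.lsmul R E.X y) := fun t ht => (hYm _).2 ⟨t, ht, rfl⟩
    have hg0 : Y ≤ P.comap LinearMap.id := by
      intro e he
      obtain ⟨t, ht, rfl⟩ := (hYm e).1 he
      exact (FINt_mem y _).2 ⟨t, rfl⟩
    let f : (E.X ⧸ T) →ₗ[R] (E.X ⧸ Y) := T.mapQ Y (LinearMap.lsmul R E.X y) hf0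
    let g : (E.X ⧸ Y) →ₗ[R] (E.X ⧸ P) := Y.mapQ P LinearMap.id hg0
    refine ⟨f.restrictScalars K, g.restrictScalars K, ?_, ?_, ?_, ?_, ?_⟩
    · show Function.Injective f
      rw [injective_iff_map_eq_zero]
      intro u hu
      obtain ⟨t, rfl⟩ := T.mkQ_surjective u
      have h1 : Y.mkQ (y • t) = 0 := hu
      rw [← LinearMap.mem_ker, Submodule.ker_mkQ] at h1
      obtain ⟨t', ht', h2⟩ := (hYm _).1 h1
      rw [← LinearMap.mem_ker, Submodule.ker_mkQ, ← hcan _ _ h2]
      exact ht'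
    · show Function.Surjective g
      intro v
      obtain ⟨e, rfl⟩ := P.mkQ_surjective v
      exact ⟨Y.mkQ e, rfl⟩
    · show ∀ v, g v = 0 ↔ ∃ u, f u = v
      intro v
      obtain ⟨e, rfl⟩ := Y.mkQ_surjective v
      constructor
      · intro hv
        have h1 : P.mkQ e = 0 := hv
        rw [← LinearMap.mem_ker, Submodule.ker_mkQ] at h1
        obtain ⟨w, rfl⟩ := (FINt_mem y e).1 h1
        exact ⟨T.mkQ w, rfl⟩
      · rintro ⟨u, hu⟩
        obtain ⟨t, rfl⟩ := T.mkQ_surjective u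
        rw [← hu]
        show P.mkQ (y • t) = 0
        rw [← LinearMap.mem_ker, Submodule.ker_mkQ]
        exact (FINt_mem y _).2 ⟨t, rfl⟩
    · intro (u : E.X ⧸ T)
      obtain ⟨t, rfl⟩ := T.mkQ_surjective u
      show f (T.mkQ (E.N t) + (m : K) • T.mkQ t) = Y.mkQ (E.N (y • t))
      have h1 : T.mkQ (E.N t) + (m : K) • T.mkQ t = T.mkQ ((m : R) • t + E.N t) := by
        rw [map_add, map_smul, add_comm]
        congr 1
        rw [← map_natCast (algebraMap K R) m, algebraMap_smul]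
      rw [h1, hN]
      rfl
    · intro (v : E.X ⧸ Y)
      obtain ⟨e, rfl⟩ := Y.mkQ_surjective v
      rfl
  have hTf : Module.Finite K ((E.sub T hT).red h.eig).X := by
    have hfin : Module.Finite R (E.sub T hT).X := by
      have := isNoetherian_of_isNoetherianRing_of_finite R E.X
      exact (inferInstance : Module.Finite R T)
    exact (hRFN K R D y m h (E.sub T hT) E).1 hfin
  have hXf : Module.Finite K (E.quo Y hY).X := (hADD.2 K _ _ _ _ _ _ ex1).2 hTf hQf
  have e1 := ((hADD.2 K _ _ _ _ _ _ ex1).1 hXf).2.2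
  have e2 := ((hADD.2 K _ _ _ _ _ _ ex2).1 hXf).2.2
  rw [hSHF K _ (E.quo T hT).N (m : K)] at e2
  have e3 : ((E.sub T hT).red h.eig).ch = (E.red h.eig).ch := hch
  have e4 : ch (E.quo T hT).N = xp (algebraMap K (AlgebraicClosure K) (m : K)) *
      ch (E.quo T hT).N := by
    have e5 := e1.symm.trans e2
    have e6 : ch ((E.sub T hT).red h.eig).N = ch (E.red h.eig).N := e3
    rw [e6, add_comm] at e5
    exact add_right_cancel e5
  have e7 : (1 - xp (algebraMap K (AlgebraicClosure K) (m : K))) * ch (E.quo T hT).N = 0 := by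
    rw [sub_mul, one_mul, ← e4, sub_self]
  rcases (hGRD K).1 _ _ e7 with e8 | e8
  · exfalso
    have e9 : (xp (algebraMap K (AlgebraicClosure K) (m : K)) : GR K) = xp 0 := by
      rw [(hGRD K).2.2.2.2.2.1]
      exact (sub_eq_zero.1 e8).symm
    have e10 : (algebraMap K (AlgebraicClosure K) (m : K)) = 0 := by
      have e11 := congrArg (fun f : GR K => f.coeff 0) e9
      simp only [xp, AddMonoidAlgebra.coeff_single] at e11
      by_contra hne
      rw [Finsupp.single_eq_of_ne (Ne.symm hne), Finsupp.single_eq_same] at e11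
      exact zero_ne_one e11
    rw [map_eq_zero, Nat.cast_eq_zero] at e10
    exact h.pos.ne' e10
  · have e12 : Subsingleton (E.X ⧸ T) := (hNON K (E.quo T hT).X (E.quo T hT).X (E.quo T hT).N
      (E.quo T hT).N).2.2.1 e8
    exact Submodule.Quotient.subsingleton_iff.1 e12

end Pool.Agent.ARS
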