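import Pool.Agent.ARS.StN
import Pool.Agent.HWC.QuotGor
import Pool.Agent.HWC.Baer

/-!
# Module GOR : duality over the Artinian Gorenstein ring `R / y`
-/

set_option autoImplicit false

namespace Pool.Agent.ARS

open IsLocalRing

/-- extension of maps into `R / y` from modules killed by `y` -/
private theorem GOR_ext {R : Type} [CommRing R] (y : R)
    (hb : Module.Baer (R ⧸ Ideal.span {y}) (R ⧸ Ideal.span {y}))
    (P Q : Type) [AddCommGroup P] [Module R P] [AddCommGroup Q] [Module R Q] (f : P →ₗ[R] Q)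
    (hf : Function.Injective f) (hQ : ∀ q : Q, y • q = 0) (g : P →ₗ[R] (R ⧸ Ideal.span {y})) :
    ∃ h : Q →ₗ[R] (R ⧸ Ideal.span {y}), ∀ p, h (f p) = g p := by
  have hP : ∀ p : P, y • p = 0 := fun p => hf (by rw [map_smul, hQ, map_zero])
  have tQ : Module.IsTorsionBySet R Q (Ideal.span {y} : Set R) :=
    (Module.isTorsionBySet_span_singleton_iff y).mpr fun q => hQ q
  have tP : Module.IsTorsionBySet R P (Ideal.span {y} : Set R) :=
    (Module.isTorsionBySet_span_singleton_iff y).mpr fun q => hP q
  let _ := tQ.module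
  let _ := tP.module
  have : IsScalarTower R (R ⧸ Ideal.span {y}) Q := tQ.isScalarTower
  have : IsScalarTower R (R ⧸ Ideal.span {y}) P := tP.isScalarTower
  have hs : Function.Surjective (algebraMap R (R ⧸ Ideal.span {y})) :=
    Ideal.Quotient.mk_surjective
  obtain ⟨h, hh⟩ := hb.extension_property (LinearMap.extendScalarsOfSurjective hs f)
    (fun a b hab => hf hab) (LinearMap.extendScalarsOfSurjective hs g)
  exact ⟨h.restrictScalars R, fun p => LinearMap.congr_fun hh p⟩

/-- the socle of `R / y` -/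
private theorem GOR_soc {K R : Type} [Field K] [CommRing R] [IsLocalRing R] [Algebra K R] (y : R)
    (hres : ∀ a : R, ∃ k : K, a - algebraMap K R k ∈ maximalIdeal R)
    [IsLocalRing (R ⧸ Ideal.span {y})] [IsArtinianRing (R ⧸ Ideal.span {y})]
    (hirr : InfIrred (⊥ : Ideal (R ⧸ Ideal.span {y}))) :
    ∃ σ : R ⧸ Ideal.span {y}, σ ≠ 0 ∧ (∀ r ∈ maximalIdeal R, r • σ = 0) ∧
      ∀ τ : R ⧸ Ideal.span {y}, (∀ r ∈ maximalIdeal R, r • τ = 0) →
        ∃ k : K, τ = algebraMap K R k • σ := by
  have hmk : ∀ r ∈ maximalIdeal R, Ideal.Quotient.mk (Ideal.span {y}) r ∈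
      maximalIdeal (R ⧸ Ideal.span {y}) := by
    have h1 : ((maximalIdeal (R ⧸ Ideal.span {y})).comap
        (Ideal.Quotient.mk (Ideal.span {y}))).IsMaximal :=
      Ideal.comap_isMaximal_of_surjective _ Ideal.Quotient.mk_surjective
    have h2 := IsLocalRing.eq_maximalIdeal h1
    intro r hr
    rw [← h2] at hr
    exact hr
  have hsm : ∀ (r : R) (a : R ⧸ Ideal.span {y}), r • a = Ideal.Quotient.mk (Ideal.span {y}) r * a := by
    intro r a
    rw [Algebra.smul_def]
    rfl
  obtain ⟨S, hS, -⟩ := (eq_bot_or_exists_atom_le (⊤ : Ideal (R ⧸ Ideal.span {y}))).resolve_left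
    top_ne_bot
  have hSm : maximalIdeal (R ⧸ Ideal.span {y}) • S = ⊥ := by
    rcases lt_or_eq_of_le (Submodule.smul_le_right :
      maximalIdeal (R ⧸ Ideal.span {y}) • S ≤ S) with h | h
    · exact hS.2 _ h
    · exfalso
      apply hS.1
      exact Submodule.eq_bot_of_le_smul_of_le_jacobson_bot _ _ (IsNoetherian.noetherian S) h.ge
        (IsLocalRing.maximalIdeal_le_jacobson _)
  obtain ⟨σ, hσS, hσ⟩ := Submodule.exists_mem_ne_zero_of_ne_bot hS.1
  have hσm : ∀ r ∈ maximalIdeal R, r • σ = 0 := by
    intro r hr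
    have h1 : Ideal.Quotient.mk (Ideal.span {y}) r • σ ∈
        maximalIdeal (R ⧸ Ideal.span {y}) • S := Submodule.smul_mem_smul (hmk r hr) hσS
    rw [hSm, Submodule.mem_bot] at h1
    rw [hsm]
    exact h1
  refine ⟨σ, hσ, hσm, ?_⟩
  intro τ hτm
  by_cases hτ : τ = 0
  · exact ⟨0, by rw [map_zero, zero_smul, hτ]⟩
  have h1 : Ideal.span {σ} ⊓ Ideal.span {τ} ≠ (⊥ : Ideal (R ⧸ Ideal.span {y})) := by
    intro h
    rcases hirr.2 h with h | h
    · exact hσ (Ideal.span_singleton_eq_bot.mp h)
    · exact hτ (Ideal.span_singleton_eq_bot.mp h)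
  obtain ⟨u, ⟨hu1, hu2⟩, hu⟩ := Submodule.exists_mem_ne_zero_of_ne_bot h1
  obtain ⟨a, ha⟩ := Ideal.mem_span_singleton'.mp hu1
  obtain ⟨b, hb⟩ := Ideal.mem_span_singleton'.mp hu2
  obtain ⟨a, rfl⟩ := Ideal.Quotient.mk_surjective a
  obtain ⟨b, rfl⟩ := Ideal.Quotient.mk_surjective b
  rw [← hsm] at ha hb
  obtain ⟨k, hk⟩ := hres a
  obtain ⟨l, hl⟩ := hres b
  have e1 : a • σ = algebraMap K R k • σ := by
    have h := hσm _ hk
    rwa [sub_smul, sub_eq_zero] at h
  have e2 : b • τ = algebraMap K R l • τ := by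
    have h := hτm _ hl
    rwa [sub_smul, sub_eq_zero] at h
  have hl0 : l ≠ 0 := by
    rintro rfl
    rw [map_zero, zero_smul] at e2
    exact hu (hb ▸ e2)
  refine ⟨l⁻¹ * k, ?_⟩
  rw [map_mul, mul_smul, ← e1, ha, ← hb, e2, ← mul_smul, ← map_mul, inv_mul_cancel₀ hl0, map_one,
    one_smul]

section

variable {K R : Type} [Field K] [CommRing R] [IsLocalRing R] [Algebra K R]
  {D : Derivation K R R}

/-- an element of `Hom` as a linear map -/
private def GOR_f {A B : NM D} (φ : (A.hom B).X) : A.X →ₗ[R] B.X := φ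

omit [IsLocalRing R] in
private theorem GOR_hext {A B : NM D} {φ φ' : (A.hom B).X} (h : ∀ v, GOR_f φ v = GOR_f φ' v) :
    φ = φ' := LinearMap.ext h

/-- modules killed by the maximal ideal -/
private theorem GOR_simple (hNON : St_NON) (hHOM : St_HOM)
    (hres : ∀ a : R, ∃ k : K, a - algebraMap K R k ∈ maximalIdeal R) (T : NM D) (σ : T.X)
    (hσ : σ ≠ 0) (hσm : ∀ r ∈ maximalIdeal R, r • σ = 0)
    (hσu : ∀ τ : T.X, (∀ r ∈ maximalIdeal R, r • τ = 0) → ∃ k : K, τ = algebraMap K R k • σ)
    (c : K) (hc : T.N σ = c • σ) (C : NM D) (hfin : Module.Finite K C.X)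
    (hC : ∀ r ∈ maximalIdeal R, ∀ v : C.X, r • v = 0) :
    (C.hom T).ch = xp (algebraMap K (AlgebraicClosure K) c) * iv C.ch := by
  have hrv : ∀ (r : R) (k : K), r - algebraMap K R k ∈ maximalIdeal R → ∀ v : C.X, r • v = k • v := by
    intro r k hk v
    have h := hC _ hk v
    rwa [sub_smul, sub_eq_zero, algebraMap_smul] at h
  have hrσ : ∀ (r : R) (k : K), r - algebraMap K R k ∈ maximalIdeal R → r • σ = k • σ := by
    intro r k hk
    have h := hσm _ hk
    rwa [sub_smul, sub_eq_zero, algebraMap_smul] at h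
  let Φ : (C.X →ₗ[K] K) →ₗ[K] (C.hom T).X :=
    { toFun := fun ψ =>
        ({ toFun := fun v => ψ v • σ
           map_add' := fun v w => by rw [map_add, add_smul]
           map_smul' := fun r v => by
             obtain ⟨k, hk⟩ := hres r
             rw [hrv r k hk, map_smul, RingHom.id_apply, smul_comm r, hrσ r k hk, smul_smul,
               smul_eq_mul, mul_comm] } : C.X →ₗ[R] T.X)
      map_add' := fun ψ ψ' => LinearMap.ext fun v => add_smul (ψ v) (ψ' v) σ
      map_smul' := fun k ψ => LinearMap.ext fun v => mul_smul k (ψ v) σ }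
  have hΦ : ∀ (ψ : C.X →ₗ[K] K) (v : C.X), GOR_f (Φ ψ) v = ψ v • σ := fun ψ v => rfl
  have hinj : Function.Injective Φ := by
    intro ψ ψ' h
    refine LinearMap.ext fun v => ?_
    have h1 : GOR_f (Φ ψ) v = GOR_f (Φ ψ') v := by rw [h]
    rw [hΦ, hΦ] at h1
    exact smul_left_injective K hσ h1
  have hsurj : Function.Surjective Φ := by
    intro f
    let f' : C.X →ₗ[R] T.X := f
    have h1 : ∀ v, f' v ∈ Submodule.span K {σ} := by
      intro v
      obtain ⟨k, hk⟩ := hσu (f' v) (fun r hr => by rw [← map_smul, hC r hr, map_zero])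
      rw [hk, algebraMap_smul]
      exact Submodule.smul_mem _ _ (Submodule.mem_span_singleton_self σ)
    let e := LinearEquiv.toSpanNonzeroSingleton K T.X σ hσ
    refine ⟨e.symm.toLinearMap.comp ((f'.restrictScalars K).codRestrict _ h1), ?_⟩
    refine LinearMap.ext fun v => ?_
    show (e.symm ⟨f' v, h1 v⟩) • σ = f' v
    have h2 := congrArg Subtype.val (e.apply_symm_apply ⟨f' v, h1 v⟩)
    exact h2
  let e : (C.X →ₗ[K] K) ≃ₗ[K] (C.hom T).X := LinearEquiv.ofBijective Φ ⟨hinj, hsurj⟩
  have h5 := (hNON K (C.X →ₗ[K] K) (C.hom T).X (hm C.N (c • LinearMap.id)) (C.hom T).N).2.2.2.2.2 e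
    (by
      intro ψ
      refine LinearMap.ext fun v => ?_
      show (hm C.N (c • LinearMap.id) ψ) v • σ = T.N (ψ v • σ) - ψ (C.N v) • σ
      rw [map_smul, hc]
      show (c • ψ v - ψ (C.N v)) • σ = ψ v • c • σ - ψ (C.N v) • σ
      rw [sub_smul, smul_smul, smul_eq_mul, mul_comm])
  have h6 := (hNON K K K (c • LinearMap.id) (c • LinearMap.id)).2.2.2.2.1 c
    (Module.finrank_self K) (fun v => rfl)
  show ARS.ch (C.hom T).N = _
  rw [h5, hHOM K C.X K C.N (c • LinearMap.id), h6, mul_comm]
  rfl

/-- Duality from the socle and the extension of maps. -/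
private theorem GOR_main (hADD : St_ADD) (hNON : St_NON) (hHOM : St_HOM) (y : R)
    (hmax : ∀ a ∈ maximalIdeal R, D a ∈ maximalIdeal R)
    (hres : ∀ a : R, ∃ k : K, a - algebraMap K R k ∈ maximalIdeal R) (T : NM D) (σ : T.X)
    (hσ : σ ≠ 0) (hσm : ∀ r ∈ maximalIdeal R, r • σ = 0)
    (hσu : ∀ τ : T.X, (∀ r ∈ maximalIdeal R, r • τ = 0) → ∃ k : K, τ = algebraMap K R k • σ)
    (hTfin : Module.Finite K T.X)
    (hext : ∀ (P Q : Type) [AddCommGroup P] [Module R P] [AddCommGroup Q] [Module R Q]
      (f : P →ₗ[R] Q), Function.Injective f → (∀ q : Q, y • q = 0) → ∀ g : P →ₗ[R] T.X,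
      ∃ h : Q →ₗ[R] T.X, ∀ p, h (f p) = g p) :
    ∃ c : K, ∀ Q : NM D, Module.Finite K Q.X → (∀ q : Q.X, y • q = 0) →
      (Q.hom T).ch = xp (algebraMap K (AlgebraicClosure K) c) * iv Q.ch := by
  obtain ⟨c, hc⟩ : ∃ c : K, T.N σ = c • σ := by
    obtain ⟨k, hk⟩ := hσu (T.N σ) (fun r hr => by
      have h := T.leib r σ
      rw [hσm r hr, map_zero, hσm _ (hmax r hr), zero_add] at h
      exact h.symm)
    exact ⟨k, by rw [hk, algebraMap_smul]⟩
  refine ⟨c, ?_⟩
  have main : ∀ n : ℕ, ∀ Q : NM D, Module.finrank K Q.X = n → Module.Finite K Q.X →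
      (∀ q : Q.X, y • q = 0) →
      (Q.hom T).ch = xp (algebraMap K (AlgebraicClosure K) c) * iv Q.ch := by
    intro n
    induction n using Nat.strong_induction_on with
    | _ n ih =>
      intro Q hn hQfin hQy
      rcases subsingleton_or_nontrivial Q.X with hsub | hnt
      · have hs : Subsingleton (Q.hom T).X :=
          ⟨fun f g => GOR_hext fun v => by
            rw [Subsingleton.elim v 0, map_zero, map_zero]⟩
        have h1 := (hNON K (Q.hom T).X Q.X (Q.hom T).N Q.N).2.2.2.1 hs
        have h2 := (hNON K Q.X Q.X Q.N Q.N).2.2.2.1 hsub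
        show ARS.ch (Q.hom T).N = _ * iv (ARS.ch Q.N)
        rw [h1, h2, map_zero, mul_zero]
      · let P : Submodule R Q.X := maximalIdeal R • ⊤
        have hst : ∀ x ∈ P, Q.N x ∈ P := by
          intro x hx
          refine Submodule.smul_induction_on hx ?_ ?_
          · intro r hr v _
            rw [Q.leib]
            exact Submodule.add_mem _ (Submodule.smul_mem_smul (hmax r hr) trivial)
              (Submodule.smul_mem_smul hr trivial)
          · intro v w hv hw
            rw [map_add]
            exact Submodule.add_mem _ hv hw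
        have hRfin : Module.Finite R Q.X := Module.Finite.of_restrictScalars_finite K R Q.X
        have hPne : P ≠ ⊤ := by
          intro h
          have h1 : (⊤ : Submodule R Q.X) = ⊥ :=
            Submodule.eq_bot_of_le_smul_of_le_jacobson_bot (maximalIdeal R) _ hRfin.fg_top h.ge
              (IsLocalRing.maximalIdeal_le_jacobson _)
          exact bot_ne_top h1.symm
        let A1 : NM D := Q.sub P hst
        let C1 : NM D := Q.quo P hst
        have ex1 : ExK A1.N Q.N C1.N :=
          ⟨P.subtype.restrictScalars K, P.mkQ.restrictScalars K, P.subtype_injective,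
            P.mkQ_surjective, fun v => by
              show P.mkQ v = 0 ↔ ∃ u : P, (u : Q.X) = v
              rw [Submodule.mkQ_apply, Submodule.Quotient.mk_eq_zero]
              exact ⟨fun h => ⟨⟨v, h⟩, rfl⟩, fun ⟨u, hu⟩ => hu ▸ u.2⟩,
            fun u => rfl, fun v => rfl⟩
        have ex2 : ExK (C1.hom T).N (Q.hom T).N (A1.hom T).N := by
          let u1 : (C1.hom T).X →ₗ[K] (Q.hom T).X :=
            { toFun := fun φ => (GOR_f φ).comp P.mkQ
              map_add' := fun _ _ => rfl
              map_smul' := fun _ _ => rfl }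
          let u2 : (Q.hom T).X →ₗ[K] (A1.hom T).X :=
            { toFun := fun φ => (GOR_f φ).comp P.subtype
              map_add' := fun _ _ => rfl
              map_smul' := fun _ _ => rfl }
          refine ⟨u1, u2, ?_, ?_, ?_, ?_, ?_⟩
          · intro φ φ' h
            refine GOR_hext fun v => ?_
            obtain ⟨w, rfl⟩ := P.mkQ_surjective v
            have h1 : GOR_f (u1 φ) w = GOR_f (u1 φ') w := by rw [h]
            exact h1
          · intro g
            obtain ⟨h, hh⟩ := hext P Q.X P.subtype P.subtype_injective hQy g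
            exact ⟨h, LinearMap.ext fun p => hh p⟩
          · intro φ
            constructor
            · intro h
              have h1 : P ≤ LinearMap.ker (GOR_f φ) := fun v hv => by
                have h2 : GOR_f (u2 φ) (⟨v, hv⟩ : P) = 0 := by
                  rw [h]
                  rfl
                exact h2
              exact ⟨P.liftQ (GOR_f φ) h1, P.liftQ_mkQ _ h1⟩
            · rintro ⟨ψ, rfl⟩
              refine GOR_hext fun (p : P) => ?_
              show GOR_f ψ (P.mkQ (p : Q.X)) = 0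
              have h2 : P.mkQ (p : Q.X) = 0 := (Submodule.Quotient.mk_eq_zero P).mpr p.2
              exact (congrArg (GOR_f ψ) h2).trans (map_zero (GOR_f ψ))
          · intro φ
            rfl
          · intro φ
            rfl
        have hhomfin : Module.Finite K (Q.hom T).X := by
          let u3 : (Q.hom T).X →ₗ[K] (Q.X →ₗ[K] T.X) :=
            { toFun := fun φ => (GOR_f φ).restrictScalars K
              map_add' := fun _ _ => rfl
              map_smul' := fun _ _ => rfl }
          refine Module.Finite.of_injective u3 ?_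
          intro φ φ' h
          refine GOR_hext fun v => ?_
          have h1 : u3 φ v = u3 φ' v := by rw [h]
          exact h1
        obtain ⟨hA1fin, hC1fin, hch1⟩ := (hADD.2 K A1.X Q.X C1.X A1.N Q.N C1.N ex1).1 hQfin
        obtain ⟨-, -, hch2⟩ := (hADD.2 K _ _ _ _ _ _ ex2).1 hhomfin
        have hlt : Module.finrank K A1.X < n := by
          rw [← hn]
          have h1 : P.restrictScalars K < ⊤ := by
            rw [lt_top_iff_ne_top]
            intro h
            apply hPne
            rwa [Submodule.restrictScalars_eq_top_iff] at h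
          exact Submodule.finrank_lt h1.ne
        have hA := ih _ hlt A1 rfl hA1fin (fun (q : P) => Subtype.ext (hQy q.1))
        have hC := GOR_simple hNON hHOM hres T σ hσ hσm hσu c hc C1 hC1fin (by
          intro r hr v
          obtain ⟨w, rfl⟩ := P.mkQ_surjective v
          show P.mkQ (r • w) = 0
          rw [Submodule.mkQ_apply, Submodule.Quotient.mk_eq_zero]
          exact Submodule.smul_mem_smul hr trivial)
        show ARS.ch (Q.hom T).N = _ * iv (ARS.ch Q.N)
        rw [hch2, hch1, map_add, mul_add]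
        rw [add_comm]
        exact congrArg₂ (· + ·) hA hC
  exact fun Q => main _ Q rfl

end

/-- [GOR] Duality over the Artinian Gorenstein ring `R / y`.

Proof. The ring `R / y` is local and Artinian (`h.fin`), its zero ideal is irreducible
(`HWC.quot_infIrred`), so it is self-injective (`HWC.baer`), and every map of `R`-modules `P → R / y`
extends along an injection `P → Q` if `y Q = 0` (`GOR_ext`). The socle is `K σ` for one `σ ≠ 0`
(`GOR_soc`: an atom of the lattice of ideals is killed by the maximal ideal; two elements of the socle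
have a nonzero common multiple). The connection preserves the socle: `N σ = c σ`. Induction on
`finrank K Q.X` (`GOR_main`): if `Q = 0` both sides are `0`. Let `P = max Q`, a stable proper submodule.
`Hom(Q/P, T) → Hom(Q, T) → Hom(P, T)` is exact, and surjective on the right by `GOR_ext`; `St_ADD` and the
induction hypothesis for `P` reduce the claim to `Q/P`, which is killed by the maximal ideal. For such
a module `C` the map `ψ ↦ (v ↦ ψ v • σ)` is an isomorphism from `Hom_K(C, K)` onto `Hom_R(C, T)`, and the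
connection corresponds to `hm C.N c` (`GOR_simple`); use `St_HOM`. -/
theorem thm_GOR (hADD : St_ADD) (hNON : St_NON) (hHOM : St_HOM) : St_GOR := by
  intro K R _ _ _ _ _ _ D y m h
  obtain ⟨hloc, hart⟩ : ∃ _ : IsLocalRing (R ⧸ Ideal.span {y}),
      IsArtinianRing (R ⧸ Ideal.span {y}) := by
    have hne : Ideal.span {y} ≠ ⊤ := by
      intro h1
      rw [Ideal.span_singleton_eq_top] at h1
      exact (mem_maximalIdeal y).1 h.mem h1
    have hnt : Nontrivial (R ⧸ Ideal.span {y}) := Ideal.Quotient.nontrivial_iff.2 hne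
    have hfin := h.fin
    exact ⟨IsLocalRing.of_surjective' (Ideal.Quotient.mk (Ideal.span {y}))
      Ideal.Quotient.mk_surjective, IsArtinianRing.of_finite K _⟩
  have hirr := HWC.quot_infIrred R h.pkg y h.mem h.ne
  have hb := HWC.baer (R ⧸ Ideal.span {y}) hirr
  obtain ⟨σ, hσ, hσm, hσu⟩ := GOR_soc (K := K) y h.res hirr
  have hJ : (Ideal.span {y} • ⊤ : Submodule R R) = Ideal.span {y} := by
    rw [smul_eq_mul, Ideal.mul_top]
  let ε : ((NM.one D).red h.eig).X ≃ₗ[R] (R ⧸ Ideal.span {y}) := Submodule.quotEquivOfEq _ _ hJ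
  refine GOR_main hADD hNON hHOM y h.max h.res ((NM.one D).red h.eig) (ε.symm σ) ?_ ?_ ?_ ?_ ?_
  · intro h1
    exact hσ (by rw [← ε.apply_symm_apply σ, h1, map_zero])
  · intro r hr
    rw [← map_smul, hσm r hr, map_zero]
  · intro τ hτ
    obtain ⟨k, hk⟩ := hσu (ε τ) (fun r hr => by rw [← map_smul, hτ r hr, map_zero])
    refine ⟨k, ?_⟩
    rw [← map_smul, ← hk, ε.symm_apply_apply]
  · have hfin := h.fin
    exact Module.Finite.equiv (ε.symm.restrictScalars K)
  · intro P Q _ _ _ _ f hf hQ g
    obtain ⟨u, hu⟩ := GOR_ext y hb P Q f hf hQ (ε.toLinearMap.comp g)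
    refine ⟨ε.symm.toLinearMap.comp u, fun p => ?_⟩
    show ε.symm (u (f p)) = g p
    rw [hu]
    exact ε.symm_apply_apply (g p)

end Pool.Agent.ARS
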