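import Pool.Agent.ARS.StL

/-!
# ARS: the group ring of the additive group of an algebraic closure
-/

set_option autoImplicit false

namespace Pool.Agent.ARS

open Polynomial
open scoped Pointwise

section

variable {K : Type} [Field K]

private lemma GRD_iv_single (a : AlgebraicClosure K) (n : ℤ) :
    (iv (AddMonoidAlgebra.single a n) : GR K) = AddMonoidAlgebra.single (-a) n :=
  AddMonoidAlgebra.mapDomain_single

private lemma GRD_cf_single (a b : AlgebraicClosure K) (n : ℤ) [Decidable (a = b)] :
    cf (AddMonoidAlgebra.single a n : GR K) b = if a = b then n else 0 :=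
  Finsupp.single_apply

private lemma GRD_cf_add (f g : GR K) (a : AlgebraicClosure K) :
    cf (f + g) a = cf f a + cf g a := rfl

private lemma GRD_ext (f g : GR K) (h : ∀ a, cf f a = cf g a) : f = g :=
  AddMonoidAlgebra.ext (Finsupp.ext h)

private lemma GRD_cf_iv (f : GR K) (a : AlgebraicClosure K) : cf (iv f) a = cf f (-a) := by
  classical
  induction f using AddMonoidAlgebra.induction_linear with
  | zero => rw [map_zero]; rfl
  | add f g hf hg => rw [map_add, GRD_cf_add, GRD_cf_add, hf, hg]
  | single b n =>
    rw [GRD_iv_single, GRD_cf_single, GRD_cf_single]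
    refine if_congr ?_ rfl rfl
    exact ⟨fun h => by rw [← h, neg_neg], fun h => by rw [h, neg_neg]⟩

private lemma GRD_cf_xp (f : GR K) (a b : AlgebraicClosure K) :
    cf (xp a * f) b = cf f (b - a) := by
  classical
  induction f using AddMonoidAlgebra.induction_linear with
  | zero => rw [mul_zero]; rfl
  | add f g hf hg => rw [mul_add, GRD_cf_add, GRD_cf_add, hf, hg]
  | single c n =>
    unfold xp
    rw [AddMonoidAlgebra.single_mul_single, one_mul, GRD_cf_single, GRD_cf_single]
    refine if_congr ?_ rfl rfl
    exact ⟨fun h => by rw [← h, add_sub_cancel_left], fun h => by rw [h, add_sub_cancel]⟩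

end

theorem thm_GRD : St_GRD := by
  intro K _ _
  have h0 : CharZero (AlgebraicClosure K) := charZero_of_injective_algebraMap
    (algebraMap K (AlgebraicClosure K)).injective
  have h1 : Module ℚ (AlgebraicClosure K) := DivisionRing.toRatAlgebra.toModule
  have h2 : TwoUniqueSums (AlgebraicClosure K) := inferInstance
  have h3 : NoZeroDivisors (GR K) := inferInstance
  refine ⟨fun f g h => mul_eq_zero.1 h, ?_, GRD_cf_iv, fun a => GRD_iv_single a 1, ?_, rfl,
    GRD_cf_xp, ?_, fun _ _ _ => rfl, fun _ _ _ => rfl, fun f h => GRD_ext f 0 h⟩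
  · intro f
    refine GRD_ext _ _ fun a => ?_
    rw [GRD_cf_iv, GRD_cf_iv, neg_neg]
  · intro a b
    unfold xp
    rw [AddMonoidAlgebra.single_mul_single, one_mul]
  · intro f g a h
    classical
    have h4 := AddMonoidAlgebra.support_coeff_mul_subset f g (Finsupp.mem_support_iff.2 h)
    obtain ⟨b, hb, c, hc, hbc⟩ := Finset.mem_add.1 h4
    exact ⟨b, c, Finsupp.mem_support_iff.1 hb, Finsupp.mem_support_iff.1 hc, hbc.symm⟩

end Pool.Agent.ARS
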