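import Pool.Agent.ARS.StN

/-! Module HEX: `Hom(-, M)` is exact on a sequence of modules with a connection if all maps
into `M` extend. -/

set_option autoImplicit false

namespace Pool.Agent.ARS

theorem thm_HEX : St_HEX := by
  intro K R _ _ _ D A B C M f g h hext
  let F : (C.X →ₗ[R] M.X) →ₗ[R] (B.X →ₗ[R] M.X) := LinearMap.lcomp R M.X g
  let G : (B.X →ₗ[R] M.X) →ₗ[R] (A.X →ₗ[R] M.X) := LinearMap.lcomp R M.X f
  have hF : ∀ (ψ : C.X →ₗ[R] M.X) (v : B.X), F ψ v = ψ (g v) := fun _ _ => rfl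
  have hG : ∀ (φ : B.X →ₗ[R] M.X) (u : A.X), G φ u = φ (f u) := fun _ _ => rfl
  refine ⟨F, G, ?_, ?_, ?_, ?_, ?_⟩
  · intro ψ ψ' hψ
    refine LinearMap.ext fun c => ?_
    obtain ⟨v, rfl⟩ := h.surj c
    have h1 : F ψ = F ψ' := hψ
    have h2 := LinearMap.congr_fun h1 v
    rwa [hF, hF] at h2
  · intro ψ
    obtain ⟨Ψ, hΨ⟩ := hext ψ
    exact ⟨Ψ, LinearMap.ext fun u => hΨ u⟩
  · intro (φ : B.X →ₗ[R] M.X)
    show G φ = 0 ↔ ∃ ψ : C.X →ₗ[R] M.X, F ψ = φ
    constructor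
    · intro h0
      have hker : LinearMap.ker g ≤ LinearMap.ker φ := by
        intro v hv
        obtain ⟨u, rfl⟩ := (h.exact v).1 hv
        have h1 := LinearMap.congr_fun h0 u
        rw [hG] at h1
        exact h1
      let e := g.quotKerEquivOfSurjective h.surj
      refine ⟨((LinearMap.ker g).liftQ φ hker).comp e.symm.toLinearMap, ?_⟩
      refine LinearMap.ext fun v => ?_
      have h2 : e.symm (g v) = (LinearMap.ker g).mkQ v := by
        rw [LinearEquiv.symm_apply_eq]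
        rfl
      show (LinearMap.ker g).liftQ φ hker (e.symm (g v)) = φ v
      rw [h2]
      rfl
    · rintro ⟨ψ, rfl⟩
      refine LinearMap.ext fun u => ?_
      rw [hG, hF, (h.exact (f u)).2 ⟨u, rfl⟩, map_zero]
      rfl
  · intro (ψ : C.X →ₗ[R] M.X)
    refine LinearMap.ext fun v => ?_
    show M.N (ψ (g v)) - ψ (C.N (g v)) = M.N (ψ (g v)) - ψ (g (B.N v))
    rw [h.eqg]
  · intro (φ : B.X →ₗ[R] M.X)
    refine LinearMap.ext fun u => ?_
    show M.N (φ (f u)) - φ (B.N (f u)) = M.N (φ (f u)) - φ (f (A.N u))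
    rw [h.eqf]

end Pool.Agent.ARS
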