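import Pool.Agent.ARS.StL

/-! ARS, module HOM: the character of `Hom`. -/

set_option autoImplicit false

namespace Pool.Agent.ARS

theorem thm_HOM (hTWI : St_TWI) (hNEG : St_NEG) (hNON : St_NON) : St_HOM := by
  intro K P Q _ _ _ _ _ _ _ A B
  set e := Module.finBasis K P with he
  set a := LinearMap.toMatrix e e A with ha
  -- the matrix of `A`
  have h1 : ch A = ch (Matrix.toLin' a) := by
    refine (hNON K (Fin (Module.finrank K P) → K) P (Matrix.toLin' a) A).2.2.2.2.2
      e.equivFun.symm ?_
    intro v
    rw [LinearEquiv.symm_apply_eq, Matrix.toLin'_apply]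
    have h2 := LinearMap.toMatrix_mulVec_repr e e A (e.equivFun.symm v)
    have h3 : (⇑(e.repr (e.equivFun.symm v)) : Fin (Module.finrank K P) → K) = v :=
      e.equivFun.apply_symm_apply v
    rw [h3] at h2
    exact h2
  -- the identification of `Hom` with a power
  have h4 : ch (hm A B) = ch (tw B (-a.transpose)) := by
    refine (hNON K (Fin (Module.finrank K P) → Q) (P →ₗ[K] Q) (tw B (-a.transpose))
      (hm A B)).2.2.2.2.2 (e.constr K) ?_
    intro v
    refine e.ext fun i => ?_
    rw [Module.Basis.constr_basis]
    show B (v i) + ∑ j, (-a.transpose) i j • v j =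
      B (e.constr K v (e i)) - e.constr K v (A (e i))
    rw [Module.Basis.constr_basis, sub_eq_add_neg]
    congr 1
    have h5 : A (e i) = ∑ j, a j i • e j := by
      rw [← e.sum_repr (A (e i))]
      refine Finset.sum_congr rfl fun j _ => ?_
      rw [ha, LinearMap.toMatrix_apply]
    rw [h5, map_sum, ← Finset.sum_neg_distrib]
    refine Finset.sum_congr rfl fun j _ => ?_
    rw [map_smul, Module.Basis.constr_basis, Matrix.neg_apply, Matrix.transpose_apply, neg_smul]
  rw [h4, hTWI, hNEG, ← h1]

end Pool.Agent.ARS
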