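import Pool.Agent.ARS.StN

set_option autoImplicit false

namespace Pool.Agent.ARS

open IsLocalRing

private lemma HSUt_inj {K V W : Type} [Field K] [AddCommGroup V] [Module K V] [AddCommGroup W]
    [Module K W] (hADD : St_ADD) (hNON : St_NON) [Module.Finite K W] (a : V →ₗ[K] V)
    (b : W →ₗ[K] W) (φ : V →ₗ[K] W) (hφ : Function.Injective φ) (hc : ∀ v, φ (a v) = b (φ v))
    (ν : AlgebraicClosure K) (h : cf (ch a) ν ≠ 0) : cf (ch b) ν ≠ 0 := by
  have hst : LinearMap.range φ ≤ (LinearMap.range φ).comap b := by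
    rintro _ ⟨v, rfl⟩
    exact ⟨a v, hc v⟩
  have h1 : ExK a b ((LinearMap.range φ).mapQ (LinearMap.range φ) b hst) := by
    refine ⟨φ, (LinearMap.range φ).mkQ, hφ, Submodule.mkQ_surjective _, fun v => ?_, hc,
      fun v => rfl⟩
    rw [← LinearMap.mem_ker, Submodule.ker_mkQ]
    exact Iff.rfl
  obtain ⟨h2, h3, h4⟩ := (hADD.2 K V W _ a b _ h1).1 inferInstance
  have h5 := (hNON K V V a a).1 ν
  have h6 := (hNON K _ V ((LinearMap.range φ).mapQ (LinearMap.range φ) b hst) a).1 ν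
  have h7 : cf (ch b) ν = cf (ch a) ν +
      cf (ch ((LinearMap.range φ).mapQ (LinearMap.range φ) b hst)) ν := by
    rw [h4]
    rfl
  omega

private theorem HSUt_mem {R X : Type} [CommRing R] [AddCommGroup X] [Module R X] (y : R) (x : X) :
    x ∈ (Ideal.span {y} • ⊤ : Submodule R X) ↔ ∃ w : X, y • w = x := by
  rw [Submodule.ideal_span_singleton_smul, Submodule.mem_smul_pointwise_iff_exists]
  exact ⟨fun ⟨b, _, hb⟩ => ⟨b, hb⟩, fun ⟨b, hb⟩ => ⟨b, trivial, hb⟩⟩

theorem thm_HSUt (hHOM : St_HOM) (hADD : St_ADD) (hNON : St_NON) (hGRD : St_GRD)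
    (hRFN : St_RFN) : St_HSU := by
  intro K R _ _ _ _ _ _ _ D y m h A M hA hM hT ν hν
  have hAf : Module.Finite K (A.red h.eig).X := (hRFN K R D y m h A M).1 hA
  have hMf : Module.Finite K (M.red h.eig).X := (hRFN K R D y m h M M).1 hM
  let PA : Submodule R A.X := Ideal.span {y} • ⊤
  let PM : Submodule R M.X := Ideal.span {y} • ⊤
  have hmap : ∀ φ : A.X →ₗ[R] M.X, PA ≤ PM.comap φ := by
    intro φ x hx
    obtain ⟨w, rfl⟩ := (HSUt_mem y x).1 hx
    exact (HSUt_mem y _).2 ⟨φ w, by rw [map_smul]⟩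
  let j0 : (A.X →ₗ[R] M.X) →ₗ[R] ((A.X ⧸ PA) →ₗ[R] (M.X ⧸ PM)) :=
    { toFun := fun φ => PA.mapQ PM φ (hmap φ)
      map_add' := fun φ ψ => by
        apply Submodule.linearMap_qext
        rfl
      map_smul' := fun r φ => by
        apply Submodule.linearMap_qext
        rfl }
  have hj0 : (Ideal.span {y} • ⊤ : Submodule R (A.X →ₗ[R] M.X)) ≤ LinearMap.ker j0 := by
    intro φ hφ
    obtain ⟨w, rfl⟩ := (HSUt_mem y φ).1 hφ
    rw [LinearMap.mem_ker]
    apply Submodule.linearMap_qext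
    apply LinearMap.ext
    intro a
    show PM.mkQ (y • w a) = 0
    rw [← LinearMap.mem_ker, Submodule.ker_mkQ]
    exact (HSUt_mem y _).2 ⟨w a, rfl⟩
  let j1 := (Ideal.span {y} • ⊤ : Submodule R (A.X →ₗ[R] M.X)).liftQ j0 hj0
  have hsm : ∀ (c : K) (q : (A.X →ₗ[R] M.X) ⧸ (Ideal.span {y} • ⊤ : Submodule R (A.X →ₗ[R] M.X))),
      j1 (c • q) = c • j1 q := by
    intro c q
    have h2 := j1.map_smul (algebraMap K R c) q
    rw [algebraMap_smul, algebraMap_smul] at h2
    exact h2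
  let j : ((A.X →ₗ[R] M.X) ⧸ (Ideal.span {y} • ⊤ : Submodule R (A.X →ₗ[R] M.X))) →ₗ[K]
      ((A.X ⧸ PA) →ₗ[K] (M.X ⧸ PM)) :=
    { toFun := fun q => (j1 q).restrictScalars K
      map_add' := fun p q => by
        rw [map_add]
        rfl
      map_smul' := fun c q => by
        rw [hsm]
        rfl }
  have hinj : Function.Injective j := by
    rw [injective_iff_map_eq_zero]
    intro q hq
    obtain ⟨(φ : A.X →ₗ[R] M.X), rfl⟩ := Submodule.mkQ_surjective _ q
    have h1 : ∀ a : A.X, ∃ w : M.X, y • w = φ a := by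
      intro a
      have h2 := LinearMap.congr_fun hq (PA.mkQ a)
      have h3 : PM.mkQ (φ a) = 0 := h2
      rw [← LinearMap.mem_ker, Submodule.ker_mkQ] at h3
      exact (HSUt_mem y _).1 h3
    choose w hw using h1
    have hcan : ∀ u v : M.X, y • u = y • v → u = v := by
      intro u v huv
      have h2 := hT y (u - v) (by rw [smul_sub, huv, sub_self])
      rcases h2 with h2 | h2
      · exact absurd h2 h.ne
      · exact sub_eq_zero.1 h2
    let ψ : A.X →ₗ[R] M.X :=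
      { toFun := w
        map_add' := fun a b => hcan _ _ (by rw [smul_add, hw, hw, hw, map_add])
        map_smul' := fun r a => hcan _ _ (by
          rw [RingHom.id_apply, hw, map_smul, smul_comm, hw]) }
    rw [← LinearMap.mem_ker, Submodule.ker_mkQ]
    exact (HSUt_mem y _).2 ⟨ψ, LinearMap.ext hw⟩
  have hcom : ∀ q, j (((A.hom M).red h.eig).N q) = hm (A.red h.eig).N (M.red h.eig).N (j q) := by
    intro (q : (A.X →ₗ[R] M.X) ⧸ (Ideal.span {y} • ⊤ : Submodule R (A.X →ₗ[R] M.X)))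
    obtain ⟨(φ : A.X →ₗ[R] M.X), rfl⟩ := Submodule.mkQ_surjective _ q
    apply LinearMap.ext
    intro (a : A.X ⧸ PA)
    obtain ⟨a, rfl⟩ := Submodule.mkQ_surjective _ a
    rfl
  have h1 := HSUt_inj hADD hNON ((A.hom M).red h.eig).N (hm (A.red h.eig).N (M.red h.eig).N) j
    hinj hcom ν hν
  rw [hHOM] at h1
  obtain ⟨b, c, hb, hc, hbc⟩ := (hGRD K).2.2.2.2.2.2.2.1 _ _ _ h1
  rw [(hGRD K).2.2.1] at hb
  exact ⟨c, -b, hc, hb, by rw [hbc]; ring⟩

end Pool.Agent.ARS
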