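import Pool.Agent.ARS.StN

/-! [ISO] Basic facts on modules with a connection. -/

set_option autoImplicit false

namespace Pool.Agent.ARS

/-- characters are invariant under isomorphisms -/
theorem ISO_ch {K P Q : Type} [Field K] [AddCommGroup P] [Module K P] [AddCommGroup Q]
    [Module K Q] (e : P ≃ₗ[K] Q) (a : P →ₗ[K] P) (b : Q →ₗ[K] Q)
    (h : ∀ u, e (a u) = b (e u)) : ch a = ch b := by
  by_cases hP : Module.Finite K P
  · have hQ : Module.Finite K Q := Module.Finite.equiv e
    have hb : b = e.conj a := by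
      apply LinearMap.ext
      intro v
      rw [LinearEquiv.conj_apply_apply, h, LinearEquiv.apply_symm_apply]
    have hc : b.charpoly = a.charpoly := by
      rw [hb]
      exact LinearEquiv.charpoly_conj e a
    unfold ch
    rw [dif_pos hP, dif_pos hQ, hc]
  · have hQ : ¬ Module.Finite K Q := fun h => hP (Module.Finite.equiv e.symm)
    unfold ch
    rw [dif_neg hP, dif_neg hQ]

variable {K R : Type} [Field K] [CommRing R] [Algebra K R] {D : Derivation K R R}

theorem ISO_refl (A : NM D) : Iso A A := ⟨LinearEquiv.refl R A.X, fun _ => rfl⟩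

theorem ISO_symm {A B : NM D} (h : Iso A B) : Iso B A := by
  obtain ⟨e, he⟩ := h
  refine ⟨e.symm, fun u => ?_⟩
  rw [LinearEquiv.symm_apply_eq, he, LinearEquiv.apply_symm_apply]

theorem ISO_trans {A B C : NM D} (h : Iso A B) (h' : Iso B C) : Iso A C := by
  obtain ⟨e, he⟩ := h
  obtain ⟨f, hf⟩ := h'
  refine ⟨e.trans f, fun u => ?_⟩
  rw [LinearEquiv.trans_apply, LinearEquiv.trans_apply, he, hf]

theorem ISO_chIso {A B : NM D} (h : Iso A B) : A.ch = B.ch := by
  obtain ⟨e, he⟩ := h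
  exact ISO_ch (e.restrictScalars K) A.N B.N he

theorem ISO_red {y : R} {m : ℕ} (hy : D y = (m : R) * y) {A B : NM D} (h : Iso A B) :
    Iso (A.red hy) (B.red hy) := by
  obtain ⟨e, he⟩ := h
  have hmap : (Ideal.span {y} • ⊤ : Submodule R A.X).map (e : A.X →ₗ[R] B.X) =
      (Ideal.span {y} • ⊤ : Submodule R B.X) := by
    rw [Submodule.map_smul'', Submodule.map_top, LinearEquiv.range]
  refine ⟨Submodule.Quotient.equiv _ _ e hmap, fun u => ?_⟩
  obtain ⟨x, rfl⟩ := (Ideal.span {y} • ⊤ : Submodule R A.X).mkQ_surjective u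
  show (Ideal.span {y} • ⊤ : Submodule R B.X).mkQ (e (A.N x)) =
    (Ideal.span {y} • ⊤ : Submodule R B.X).mkQ (B.N (e x))
  rw [he]

theorem ISO_ex {A B C : NM D} (h : Ex A B C) : ExK A.N B.N C.N := by
  obtain ⟨f, g, h1, h2, h3, h4, h5⟩ := h
  exact ⟨f.restrictScalars K, g.restrictScalars K, h1, h2, h3, h4, h5⟩

theorem ISO_one (D : Derivation K R R) : Iso ((NM.one D).hom (NM.one D)) (NM.one D) := by
  refine ⟨LinearMap.ringLmapEquivSelf R R R, fun (u : R →ₗ[R] R) => ?_⟩
  show D (u 1) - u (D 1) = D (u 1)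
  rw [D.map_one_eq_zero, map_zero, sub_zero]

theorem thm_ISO : St_ISO := by
  intro K R _ _ _ D y m hy A B C
  exact ⟨ISO_refl A, ISO_symm, ISO_trans, ISO_chIso, ISO_red hy, ISO_ex,
    fun f g h => ⟨f, g, h.inj, h.surj, h.exact, h.eqf, h.eqg⟩, ISO_one D⟩

end Pool.Agent.ARS
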