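import Pool.Agent.ARS.StL

/-!
# ARS : module NEG, transpose and negative
-/

set_option autoImplicit false

namespace Pool.Agent.ARS

open Polynomial

section NEG

private theorem NEG_charpoly {R : Type} [CommRing R] {n : ℕ} (a : Matrix (Fin n) (Fin n) R) :
    a.charpoly.comp (-X) = (-1) ^ n * (-a).charpoly := by
  have h1 : a.charpoly.comp (-X) = (Polynomial.compRingHom (-X)) a.charpoly := rfl
  have h2 : (Polynomial.compRingHom (-X)).mapMatrix a.charmatrix = -(-a).charmatrix := by
    ext1 i j
    show (a.charmatrix i j).comp (-X) = -((-a).charmatrix i j)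
    rw [Matrix.charmatrix_apply, Matrix.charmatrix_apply, Polynomial.sub_comp,
      Polynomial.C_comp, Matrix.neg_apply, C_neg]
    by_cases h : i = j
    · rw [h, Matrix.diagonal_apply_eq, Polynomial.X_comp]
      ring
    · rw [Matrix.diagonal_apply_ne _ h, Polynomial.zero_comp]
      ring
  rw [h1, Matrix.charpoly, RingHom.map_det, h2, Matrix.det_neg, Fintype.card_fin]
  rfl

private theorem NEG_iv_xp {K : Type} [Field K] (a : AlgebraicClosure K) :
    iv (xp a : GR K) = xp (-a) := by
  unfold iv xp
  rw [AddMonoidAlgebra.mapDomainRingHom_apply, AddMonoidAlgebra.mapDomain_single]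
  rfl

/-- [NEG] Transpose and negative. -/
theorem thm_NEG : St_NEG := by
  intro K _ n a
  classical
  have hf : Module.Finite K (Fin n → K) := inferInstance
  unfold ch
  rw [dif_pos hf, dif_pos hf, Matrix.charpoly_toLin', Matrix.charpoly_toLin']
  have h1 : (-a.transpose).charpoly = (-a).charpoly := by
    rw [← Matrix.transpose_neg, Matrix.charpoly_transpose]
  have h2 : (-a).charpoly.aroots (AlgebraicClosure K) =
      (a.charpoly.aroots (AlgebraicClosure K)).map fun x => -x := by
    have h3 := NEG_charpoly a
    have h4 : (a.charpoly.map (algebraMap K (AlgebraicClosure K))).comp (-X) =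
        (C ((-1) ^ n)) * (-a).charpoly.map (algebraMap K (AlgebraicClosure K)) := by
      have h5 := congrArg (Polynomial.map (algebraMap K (AlgebraicClosure K))) h3
      rw [Polynomial.map_comp, Polynomial.map_neg, Polynomial.map_X, Polynomial.map_mul,
        Polynomial.map_pow, Polynomial.map_neg, Polynomial.map_one] at h5
      rw [h5, C_pow, C_neg, C_1]
    unfold Polynomial.aroots
    rw [← Polynomial.roots_comp_neg_X, h4, Polynomial.roots_C_mul]
    exact pow_ne_zero _ (neg_ne_zero.2 one_ne_zero)
  rw [h1, h2, map_multiset_sum, Multiset.map_map, Multiset.map_map]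
  refine congrArg Multiset.sum (Multiset.map_congr rfl fun x _ => ?_)
  exact (NEG_iv_xp x).symm

end NEG

end Pool.Agent.ARS
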