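import Pool.Agent.ARS.StL

/-! # ARS, module NON: basic properties of the character -/

set_option autoImplicit false

namespace Pool.Agent.ARS

open Polynomial

theorem NON_ch_eq {K Q : Type} [Field K] [AddCommGroup Q] [Module K Q] [Module.Finite K Q]
    (A : Q →ₗ[K] Q) :
    ch A = ((A.charpoly.aroots (AlgebraicClosure K)).map fun a => xp a).sum := by
  unfold ch
  rw [dif_pos ‹Module.Finite K Q›]

theorem NON_count {K : Type} [Field K] [DecidableEq (AlgebraicClosure K)]
    (s : Multiset (AlgebraicClosure K)) (a : AlgebraicClosure K) :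
    cf ((s.map fun b => (xp b : GR K)).sum) a = (s.count a : ℤ) := by
  induction s using Multiset.induction_on with
  | empty => simp [cf]
  | cons b s ih =>
    rw [Multiset.map_cons, Multiset.sum_cons, Multiset.count_cons]
    unfold cf at ih ⊢
    rw [AddMonoidAlgebra.coeff_add, Finsupp.add_apply, ih, xp, AddMonoidAlgebra.coeff_single,
      Finsupp.single_apply]
    by_cases h : b = a
    · subst h
      simp [add_comm]
    · rw [if_neg h, if_neg (fun h' => h h'.symm)]
      simp

theorem NON_card {K Q : Type} [Field K] [AddCommGroup Q] [Module K Q] [Module.Finite K Q]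
    (A : Q →ₗ[K] Q) :
    (A.charpoly.aroots (AlgebraicClosure K)).card = Module.finrank K Q := by
  rw [IsAlgClosed.card_aroots_eq_natDegree, A.charpoly_natDegree]

theorem thm_NON : St_NON := by
  classical
  intro K Q Q' _ _ _ _ _ _ A A'
  refine ⟨fun a => ?_, fun a => ?_, fun h => ?_, fun h => ?_, fun c h1 hc => ?_, fun e he => ?_⟩
  · rw [NON_ch_eq, NON_count]
    exact Int.natCast_nonneg _
  · rw [NON_ch_eq, NON_count, Int.natCast_ne_zero, Multiset.count_ne_zero, mem_aroots]
    exact ⟨fun h => h.2, fun h => ⟨A.charpoly_monic.ne_zero, h⟩⟩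
  · have h0 : A.charpoly.aroots (AlgebraicClosure K) = 0 := by
      refine Multiset.eq_zero_of_forall_notMem fun a ha => ?_
      have h2 := NON_count (A.charpoly.aroots (AlgebraicClosure K)) a
      rw [← NON_ch_eq, h] at h2
      have h3 : (A.charpoly.aroots (AlgebraicClosure K)).count a = 0 := by
        have : (0 : ℤ) = ((A.charpoly.aroots (AlgebraicClosure K)).count a : ℤ) := h2
        exact_mod_cast this.symm
      exact Multiset.count_ne_zero.mpr ha h3
    have h1 := NON_card A
    rw [h0, Multiset.card_zero] at h1
    exact Module.finrank_zero_iff.mp h1.symm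
  · have h1 := NON_card A
    rw [Module.finrank_zero_iff.mpr h, Multiset.card_eq_zero] at h1
    rw [NON_ch_eq, h1]
    simp
  · have hd : A.charpoly.natDegree = 1 := by rw [A.charpoly_natDegree, h1]
    obtain ⟨v, hv⟩ : ∃ v : Q, v ≠ 0 := by
      have : Nontrivial Q := Module.nontrivial_of_finrank_eq_succ h1
      exact exists_ne 0
    have hp : A.charpoly = X + C (A.charpoly.coeff 0) := by
      have h2 := A.charpoly_monic
      exact h2.eq_X_add_C hd
    have hb : A.charpoly.coeff 0 = -c := by
      have h2 := A.aeval_self_charpoly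
      rw [hp] at h2
      have h3 : A v + (A.charpoly.coeff 0) • v = 0 := by
        have h4 := LinearMap.congr_fun h2 v
        simpa [Algebra.algebraMap_eq_smul_one] using h4
      rw [hc v, ← add_smul] at h3
      have h5 := (smul_eq_zero.mp h3).resolve_right hv
      linear_combination h5
    rw [NON_ch_eq, hp, hb]
    have h6 : (X + C (-c) : K[X]) = X - C c := by rw [C_neg]; ring
    rw [h6, aroots_X_sub_C]
    simp
  · have : Module.Finite K Q' := Module.Finite.equiv e
    have h1 : A' = e.conj A := by
      apply LinearMap.ext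
      intro v
      rw [LinearEquiv.conj_apply_apply, he, LinearEquiv.apply_symm_apply]
    rw [NON_ch_eq, NON_ch_eq, h1, LinearEquiv.charpoly_conj]

end Pool.Agent.ARS
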