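import Pool.Agent.ARS.StN

/-! ARS, module POW: the character of a twisted power. -/

set_option autoImplicit false

namespace Pool.Agent.ARS

open IsLocalRing

private theorem POW_stable {K R : Type} [Field K] [CommRing R] [IsLocalRing R] [Algebra K R]
    {D : Derivation K R R} (hmax : ∀ a ∈ maximalIdeal R, D a ∈ maximalIdeal R) (Q : NM D) :
    ∀ x ∈ (maximalIdeal R • ⊤ : Submodule R Q.X), Q.N x ∈ (maximalIdeal R • ⊤ : Submodule R Q.X) := by
  intro x hx
  refine Submodule.smul_induction_on hx ?_ ?_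
  · intro r hr q _
    rw [Q.leib]
    exact Submodule.add_mem _ (Submodule.smul_mem_smul (hmax r hr) trivial)
      (Submodule.smul_mem_smul hr trivial)
  · intro u v hu hv
    rw [map_add]
    exact Submodule.add_mem _ hu hv

private theorem POW_ex {K R : Type} [Field K] [CommRing R] [Algebra K R]
    {D : Derivation K R R} (Q : NM D) (P : Submodule R Q.X) (hP : ∀ x ∈ P, Q.N x ∈ P) :
    ExK (Q.sub P hP).N Q.N (Q.quo P hP).N := by
  refine ⟨(P.subtype.restrictScalars K : P →ₗ[K] Q.X), (P.mkQ.restrictScalars K : Q.X →ₗ[K] (Q.X ⧸ P)),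
    ?_, ?_, ?_, ?_, ?_⟩
  · exact Subtype.val_injective
  · exact P.mkQ_surjective
  · intro v
    show P.mkQ v = 0 ↔ _
    rw [Submodule.mkQ_apply, Submodule.Quotient.mk_eq_zero]
    exact ⟨fun h => ⟨⟨v, h⟩, rfl⟩, fun ⟨u, hu⟩ => hu ▸ u.2⟩
  · intro u
    rfl
  · intro v
    rfl

private theorem POW_expow {K R : Type} [Field K] [CommRing R] [Algebra K R]
    {D : Derivation K R R} (Q : NM D) (P : Submodule R Q.X) (hP : ∀ x ∈ P, Q.N x ∈ P) {n : ℕ}
    (a : Matrix (Fin n) (Fin n) R) :
    ExK ((Q.sub P hP).pow a).N (Q.pow a).N ((Q.quo P hP).pow a).N := by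
  refine ⟨((P.subtype.restrictScalars K : P →ₗ[K] Q.X).compLeft (Fin n)),
    ((P.mkQ.restrictScalars K : Q.X →ₗ[K] (Q.X ⧸ P)).compLeft (Fin n)),
    ?_, ?_, ?_, ?_, ?_⟩
  · intro u v huv
    funext i
    exact Subtype.ext (congrFun huv i)
  · intro v
    choose w hw using fun i => P.mkQ_surjective (v i)
    exact ⟨w, funext hw⟩
  · intro v
    constructor
    · intro h
      have h1 : ∀ i, v i ∈ P := fun i => by
        have := congrFun h i
        exact (Submodule.Quotient.mk_eq_zero P).1 this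
      exact ⟨fun i => ⟨v i, h1 i⟩, rfl⟩
    · rintro ⟨u, rfl⟩
      funext i
      exact (Submodule.Quotient.mk_eq_zero P).2 (u i).2
  · intro u
    funext i
    show P.subtype ((Q.sub P hP).N (u i) + ∑ j, a i j • u j) =
      Q.N (P.subtype (u i)) + ∑ j, a i j • P.subtype (u j)
    have h1 : P.subtype (∑ j, a i j • u j) = ∑ j, a i j • P.subtype (u j) := by
      rw [map_sum]
      rfl
    rw [← h1]
    rfl
  · intro v
    funext i
    show P.mkQ (Q.N (v i) + ∑ j, a i j • v j) =
      P.mkQ (Q.N (v i)) + ∑ j, a i j • P.mkQ (v j)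
    rw [map_add, map_sum]
    rfl

private theorem POW_aux (hADD : St_ADD) (hNON : St_NON) (hTWI : St_TWI)
    (K R : Type) [Field K] [CommRing R] [IsLocalRing R]
    [IsNoetherianRing R] [Algebra K R] (D : Derivation K R R)
    (hmax : ∀ a ∈ maximalIdeal R, D a ∈ maximalIdeal R) (n : ℕ) (a : Matrix (Fin n) (Fin n) R)
    (a0 : Matrix (Fin n) (Fin n) K)
    (ha : ∀ i j, a i j - algebraMap K R (a0 i j) ∈ maximalIdeal R) :
    ∀ (d : ℕ) (Q : NM D), Module.Finite K Q.X → Module.finrank K Q.X ≤ d →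
      (Q.pow a).ch = ch (Matrix.toLin' a0) * Q.ch := by
  have hsub : ∀ Q : NM D, Subsingleton Q.X → (Q.pow a).ch = ch (Matrix.toLin' a0) * Q.ch := by
    intro Q hQ
    have h1 : Q.ch = 0 := (hNON K Q.X Q.X Q.N Q.N).2.2.2.1 hQ
    have hQ' : Subsingleton (Q.pow a).X := inferInstanceAs (Subsingleton (Fin n → Q.X))
    have h2 : (Q.pow a).ch = 0 :=
      (hNON K (Q.pow a).X (Q.pow a).X (Q.pow a).N (Q.pow a).N).2.2.2.1 hQ'
    rw [h1, h2, mul_zero]
  intro d
  induction d with
  | zero =>
    intro Q hfin hd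
    exact hsub Q (Module.finrank_zero_iff.1 (Nat.le_zero.1 hd))
  | succ d ih =>
    intro Q hfin hd
    rcases subsingleton_or_nontrivial Q.X with hQ | hQ
    · exact hsub Q hQ
    have hfinR : Module.Finite R Q.X := Module.Finite.of_restrictScalars_finite K R Q.X
    let P : Submodule R Q.X := maximalIdeal R • ⊤
    have hP : ∀ x ∈ P, Q.N x ∈ P := POW_stable hmax Q
    have hne : P ≠ ⊤ := by
      intro h
      have h1 : (⊤ : Submodule R Q.X) ≤ maximalIdeal R • (⊤ : Submodule R Q.X) := h.ge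
      have h2 := Submodule.eq_bot_of_le_smul_of_le_jacobson_bot (maximalIdeal R)
        (⊤ : Submodule R Q.X) Module.Finite.fg_top h1 (IsLocalRing.maximalIdeal_le_jacobson _)
      exact bot_ne_top h2.symm
    have e1 := (hADD.2 K (Q.sub P hP).X Q.X (Q.quo P hP).X (Q.sub P hP).N Q.N (Q.quo P hP).N
      (POW_ex Q P hP)).1 hfin
    have hfinp : Module.Finite K (Q.pow a).X := inferInstanceAs (Module.Finite K (Fin n → Q.X))
    have e2 := (hADD.2 K ((Q.sub P hP).pow a).X (Q.pow a).X ((Q.quo P hP).pow a).X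
      ((Q.sub P hP).pow a).N (Q.pow a).N ((Q.quo P hP).pow a).N (POW_expow Q P hP a)).1 hfinp
    have e3 : ((Q.sub P hP).pow a).ch = ch (Matrix.toLin' a0) * (Q.sub P hP).ch := by
      refine ih (Q.sub P hP) e1.1 ?_
      have hlt : Module.finrank K (P.restrictScalars K) < Module.finrank K Q.X := by
        apply Submodule.finrank_lt
        intro h
        apply hne
        exact (Submodule.restrictScalars_eq_top_iff K R Q.X).1 h
      have heq : Module.finrank K (Q.sub P hP).X = Module.finrank K (P.restrictScalars K) := rfl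
      omega
    have hact : ∀ (i j : Fin n) (c : (Q.quo P hP).X), a i j • c = a0 i j • c := by
      intro i j c
      obtain ⟨q, rfl⟩ : ∃ q : Q.X, P.mkQ q = c := P.mkQ_surjective c
      have h1 : (a i j - algebraMap K R (a0 i j)) • q ∈ P :=
        Submodule.smul_mem_smul (ha i j) trivial
      have h2 : P.mkQ ((a i j - algebraMap K R (a0 i j)) • q) = 0 :=
        (Submodule.Quotient.mk_eq_zero P).2 h1
      rw [sub_smul, map_sub, sub_eq_zero, algebraMap_smul] at h2
      exact h2
    have e4 : ((Q.quo P hP).pow a).ch = ch (Matrix.toLin' a0) * (Q.quo P hP).ch := by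
      have hfc : Module.Finite K (Q.quo P hP).X := e1.2.1
      have h1 := hTWI K (Q.quo P hP).X (Q.quo P hP).N n a0
      have h2 : ((Q.quo P hP).pow a).N = tw (Q.quo P hP).N a0 := by
        apply LinearMap.ext
        intro q
        funext i
        show (Q.quo P hP).N (q i) + ∑ j, a i j • q j = (Q.quo P hP).N (q i) + ∑ j, a0 i j • q j
        rw [Finset.sum_congr rfl fun j _ => hact i j (q j)]
      show ch ((Q.quo P hP).pow a).N = _
      rw [h2]
      exact h1
    have e1' : Q.ch = (Q.sub P hP).ch + (Q.quo P hP).ch := e1.2.2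
    have e2' : (Q.pow a).ch = ((Q.sub P hP).pow a).ch + ((Q.quo P hP).pow a).ch := e2.2.2
    rw [e1', e2', e3, e4, mul_add]

theorem thm_POW (hADD : St_ADD) (hNON : St_NON) (hTWI : St_TWI) : St_POW := by
  intro K R _ _ _ _ _ _ D y m h Q hfin n a a0 ha
  exact POW_aux hADD hNON hTWI K R D h.max n a a0 ha _ Q hfin le_rfl

end Pool.Agent.ARS
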