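import Pool.Agent.ARS.StN

/-!
# ARS [REX]: reduction modulo `y` is exact
-/

set_option autoImplicit false

namespace Pool.Agent.ARS

section

variable {K R : Type} [Field K] [CommRing R] [Algebra K R] {D : Derivation K R R}

private theorem REX_mem (A : NM D) (y : R) (x : A.X) :
    x ∈ (Ideal.span {y} • ⊤ : Submodule R A.X) ↔ ∃ w : A.X, y • w = x := by
  rw [Submodule.ideal_span_singleton_smul, Submodule.mem_smul_pointwise_iff_exists]
  constructor
  · rintro ⟨w, _, h⟩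
    exact ⟨w, h⟩
  · rintro ⟨w, h⟩
    exact ⟨w, trivial, h⟩

private theorem REX_le {A B : NM D} (f : A.X →ₗ[R] B.X) (y : R) :
    (Ideal.span {y} • ⊤ : Submodule R A.X) ≤ (Ideal.span {y} • ⊤ : Submodule R B.X).comap f := by
  intro x hx
  rw [REX_mem] at hx
  obtain ⟨w, rfl⟩ := hx
  rw [Submodule.mem_comap, map_smul, REX_mem]
  exact ⟨f w, rfl⟩

private theorem REX_zero (A : NM D) (y : R) (x : A.X) :
    (Ideal.span {y} • ⊤ : Submodule R A.X).mkQ x = 0 ↔ ∃ w : A.X, y • w = x := by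
  rw [Submodule.mkQ_apply, Submodule.Quotient.mk_eq_zero, REX_mem]

end

theorem thm_REX : St_REX := by
  intro K R _ _ _ D y m hy A B C hE hreg
  obtain ⟨f, g, h1, h2, h3, h4, h5⟩ := hE
  have hinj : Function.Injective (Submodule.mapQ (Ideal.span {y} • ⊤ : Submodule R A.X)
      (Ideal.span {y} • ⊤ : Submodule R B.X) f (REX_le f y)) := by
    rw [injective_iff_map_eq_zero]
    intro u hu
    obtain ⟨u, rfl⟩ := (Ideal.span {y} • ⊤ : Submodule R A.X).mkQ_surjective u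
    have hu' : (Ideal.span {y} • ⊤ : Submodule R B.X).mkQ (f u) = 0 := hu
    rw [REX_zero] at hu'
    obtain ⟨w, hw⟩ := hu'
    have h6 : y • g w = 0 := by
      rw [← map_smul, hw]
      exact (h3 (f u)).2 ⟨u, rfl⟩
    obtain ⟨u', hu'⟩ := (h3 w).1 (hreg _ h6)
    rw [REX_zero]
    refine ⟨u', h1 ?_⟩
    rw [map_smul, hu', hw]
  refine ⟨Submodule.mapQ _ _ f (REX_le f y), Submodule.mapQ _ _ g (REX_le g y), hinj,
    ?_, ?_, ?_, ?_⟩
  · intro c
    obtain ⟨c, rfl⟩ := (Ideal.span {y} • ⊤ : Submodule R C.X).mkQ_surjective c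
    obtain ⟨v, rfl⟩ := h2 c
    exact ⟨(Ideal.span {y} • ⊤ : Submodule R B.X).mkQ v, rfl⟩
  · intro v
    obtain ⟨v, rfl⟩ := (Ideal.span {y} • ⊤ : Submodule R B.X).mkQ_surjective v
    constructor
    · intro hv
      have hv' : (Ideal.span {y} • ⊤ : Submodule R C.X).mkQ (g v) = 0 := hv
      rw [REX_zero] at hv'
      obtain ⟨c, hc⟩ := hv'
      obtain ⟨w, rfl⟩ := h2 c
      have h6 : g (v - y • w) = 0 := by
        rw [map_sub, map_smul, hc, sub_self]
      obtain ⟨u, hu⟩ := (h3 _).1 h6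
      refine ⟨(Ideal.span {y} • ⊤ : Submodule R A.X).mkQ u, ?_⟩
      show (Ideal.span {y} • ⊤ : Submodule R B.X).mkQ (f u) =
        (Ideal.span {y} • ⊤ : Submodule R B.X).mkQ v
      rw [hu, map_sub, sub_eq_self, REX_zero]
      exact ⟨w, rfl⟩
    · rintro ⟨u, hu⟩
      obtain ⟨u, rfl⟩ := (Ideal.span {y} • ⊤ : Submodule R A.X).mkQ_surjective u
      rw [← hu]
      show (Ideal.span {y} • ⊤ : Submodule R C.X).mkQ (g (f u)) = 0
      rw [(h3 (f u)).2 ⟨u, rfl⟩, map_zero]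
  · intro u
    obtain ⟨u, rfl⟩ := (Ideal.span {y} • ⊤ : Submodule R A.X).mkQ_surjective u
    show (Ideal.span {y} • ⊤ : Submodule R B.X).mkQ (f (A.N u)) =
      (Ideal.span {y} • ⊤ : Submodule R B.X).mkQ (B.N (f u))
    rw [h4]
  · intro v
    obtain ⟨v, rfl⟩ := (Ideal.span {y} • ⊤ : Submodule R B.X).mkQ_surjective v
    show (Ideal.span {y} • ⊤ : Submodule R C.X).mkQ (g (B.N v)) =
      (Ideal.span {y} • ⊤ : Submodule R C.X).mkQ (C.N (g v))
    rw [h5]

end Pool.Agent.ARS
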