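import Pool.Agent.ARS.StN

/-! Module RFN of ARS: finiteness of the reductions and of `Hom`. -/

set_option autoImplicit false

namespace Pool.Agent.ARS

open IsLocalRing

private theorem RFN_fin {K R X : Type} [Field K] [CommRing R] [Algebra K R] [AddCommGroup X]
    [Module K X] [Module R X] [IsScalarTower K R X] (I : Ideal R) [Module.Finite K (R ⧸ I)]
    [Module.Finite R X] : Module.Finite K (X ⧸ (I • ⊤ : Submodule R X)) := by
  have : IsScalarTower K (R ⧸ I) (X ⧸ (I • ⊤ : Submodule R X)) := by
    refine ⟨fun k a x => ?_⟩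
    obtain ⟨r, rfl⟩ := Ideal.Quotient.mk_surjective a
    obtain ⟨v, rfl⟩ := Submodule.mkQ_surjective _ x
    change (I • ⊤ : Submodule R X).mkQ ((k • r) • v) =
      k • (I • ⊤ : Submodule R X).mkQ (r • v)
    rw [smul_assoc]
    rfl
  have : IsScalarTower R (R ⧸ I) (X ⧸ (I • ⊤ : Submodule R X)) := by
    refine ⟨fun k a x => ?_⟩
    obtain ⟨r, rfl⟩ := Ideal.Quotient.mk_surjective a
    obtain ⟨v, rfl⟩ := Submodule.mkQ_surjective _ x
    change (I • ⊤ : Submodule R X).mkQ ((k * r) • v) =
      k • (I • ⊤ : Submodule R X).mkQ (r • v)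
    rw [mul_smul]
    rfl
  have : Module.Finite (R ⧸ I) (X ⧸ (I • ⊤ : Submodule R X)) :=
    Module.Finite.of_restrictScalars_finite R (R ⧸ I) _
  exact Module.Finite.trans (R ⧸ I) _

/-- [RFN] Finiteness. -/
theorem thm_RFN : St_RFN := by
  intro K R _ _ _ _ _ _ D y m h A B
  refine ⟨fun hA => ?_, fun hA hB => ?_, fun hB s (f : A.X →ₗ[R] B.X) hsf => ?_, fun hA hs => ?_⟩
  · have := h.fin
    have := hA
    exact RFN_fin (Ideal.span {y})
  · have := hA
    have := hB
    obtain ⟨n, p, hp⟩ := Module.Finite.exists_fin' R A.X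
    let Φ : (A.X →ₗ[R] B.X) →ₗ[R] ((Fin n → R) →ₗ[R] B.X) :=
      { toFun := fun f => f.comp p
        map_add' := fun f g => LinearMap.add_comp _ _ _
        map_smul' := fun r f => LinearMap.smul_comp _ _ _ }
    have hΦ : Function.Injective Φ := by
      intro f g hfg
      apply LinearMap.ext
      intro x
      obtain ⟨v, rfl⟩ := hp x
      exact LinearMap.congr_fun hfg v
    exact Module.Finite.of_injective Φ hΦ
  · by_cases h0 : s = 0
    · exact Or.inl h0
    · right
      apply LinearMap.ext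
      intro x
      have h1 : s • f x = 0 := LinearMap.congr_fun hsf x
      rcases hB s (f x) h1 with h2 | h2
      · exact absurd h2 h0
      · exact h2
  · have := hA
    have h1 : (⊤ : Submodule R A.X) ≤ Ideal.span {y} • ⊤ := by
      intro x _
      have h2 : (Ideal.span {y} • ⊤ : Submodule R A.X).mkQ x = 0 := by
        exact @Subsingleton.elim (A.red h.eig).X hs _ _
      rwa [Submodule.mkQ_apply, Submodule.Quotient.mk_eq_zero] at h2
    have h3 : (⊤ : Submodule R A.X) = ⊥ := by
      apply Submodule.eq_bot_of_le_smul_of_le_jacobson_bot (Ideal.span {y}) ⊤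
        Module.Finite.fg_top h1
      rw [IsLocalRing.jacobson_eq_maximalIdeal _ bot_ne_top, Ideal.span_singleton_le_iff_mem]
      exact h.mem
    refine ⟨fun a b => ?_⟩
    have ha : a ∈ (⊤ : Submodule R A.X) := trivial
    have hb : b ∈ (⊤ : Submodule R A.X) := trivial
    rw [h3, Submodule.mem_bot] at ha hb
    rw [ha, hb]

end Pool.Agent.ARS
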