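import Pool.Agent.ARS.Inst

/-!
helper82. `Pool.Agent.ARS.thm_SGQ` is proved in `Pool/Agent/ARS/Inst.lean` (helper11); this file only
imports it, so that both files can be imported together.
-/
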