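import Pool.Agent.ARS.StL

/-!
# ARS : module SHF, shift by a scalar
-/

set_option autoImplicit false

namespace Pool.Agent.ARS

open Polynomial

section SHF

private theorem SHF_xp {K : Type} [Field K] (a b : AlgebraicClosure K) :
    (xp a * xp b : GR K) = xp (a + b) := by
  unfold xp
  rw [AddMonoidAlgebra.single_mul_single, one_mul]

/-- [SHF] Shift by a scalar. -/
theorem thm_SHF : St_SHF := by
  intro K Q _ _ _ hf A c
  classical
  unfold ch
  rw [dif_pos hf, dif_pos hf]
  have h1 : (A + c • LinearMap.id).charpoly = A.charpoly.comp (X + C (-c)) := by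
    rw [← LinearMap.charpoly_sub_smul]
    refine congrArg LinearMap.charpoly ?_
    ext v
    show A v + c • v = A v - (-c) • v
    rw [neg_smul, sub_neg_eq_add]
  have h2 : (A + c • LinearMap.id).charpoly.aroots (AlgebraicClosure K) =
      (A.charpoly.aroots (AlgebraicClosure K)).map
        fun x => algebraMap K (AlgebraicClosure K) c + x := by
    unfold Polynomial.aroots
    rw [h1, Polynomial.map_comp, Polynomial.map_add, Polynomial.map_X, Polynomial.map_C]
    have h3 := Polynomial.roots_comp_C_mul_X_add_C
      (A.charpoly.map (algebraMap K (AlgebraicClosure K))) 1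
      (algebraMap K (AlgebraicClosure K) (-c)) isUnit_one
    rw [C_1, one_mul] at h3
    rw [h3]
    refine Multiset.map_congr rfl fun x _ => ?_
    rw [Ring.inverse_one, one_mul, map_neg, sub_neg_eq_add, add_comm]
  rw [h2, Multiset.map_map]
  have h4 : ∀ s : Multiset (AlgebraicClosure K),
      (s.map ((fun a => (xp a : GR K)) ∘ fun x => algebraMap K (AlgebraicClosure K) c + x)).sum =
        xp (algebraMap K (AlgebraicClosure K) c) * (s.map fun a => (xp a : GR K)).sum := by
    intro s
    rw [← Multiset.sum_map_mul_left]
    refine congrArg Multiset.sum (Multiset.map_congr rfl fun x _ => ?_)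
    exact (SHF_xp _ _).symm
  exact h4 _

end SHF

end Pool.Agent.ARS
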