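import Pool.Agent.ARS.StN

/-!
# ARS / STP : one step of the resolution (helper77)
-/

set_option autoImplicit false

namespace Pool.Agent.ARS

open IsLocalRing

/-- [STP] One step of the resolution. -/
theorem thm_STP (hISO : St_ISO) (hRFN : St_RFN) (hREX : St_REX) (hCOV : St_COV) (hSUP : St_SUP)
    (hHEX : St_HEX) (hCHF : St_CHF) (hADD : St_ADD) : St_STP := by
  intro K R _ _ _ _ _ _ _ D y m h A M hAf hAt hMf hMt hExt
  obtain ⟨n, a, a0, p, hp, hpN, hpm, haa⟩ := hCOV K R D y m h A hAf
  let F : NM D := (NM.one D).pow a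
  have hker : ∀ x ∈ LinearMap.ker p, ((NM.one D).pow a).N x ∈ LinearMap.ker p := by
    intro x hx
    have hx' : p x = 0 := hx
    show p (((NM.one D).pow a).N x) = 0
    rw [hpN, hx', map_zero]
  let B : NM D := F.sub (LinearMap.ker p) hker
  -- finiteness, torsion freeness
  have hFf : Module.Finite R F.X := by
    show Module.Finite R (Fin n → R)
    infer_instance
  have hBf : Module.Finite R B.X := by
    show Module.Finite R (LinearMap.ker p)
    infer_instance
  have hBt : HWC.TF R B.X := by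
    intro s v hv
    rcases eq_or_ne s 0 with h0 | h0
    · exact Or.inl h0
    · right
      have hv1 : ∀ v : LinearMap.ker p, s • v = 0 → v = 0 := by
        intro v hv
        have hv' : s • (v : Fin n → R) = 0 :=
          congrArg (fun w : LinearMap.ker p => (w : Fin n → R)) hv
        exact Subtype.ext ((smul_eq_zero.1 hv').resolve_left h0)
      exact hv1 v hv
  have hy0 := h.ne
  have reg : ∀ C : NM D, HWC.TF R C.X → ∀ c : C.X, y • c = 0 → c = 0 := by
    intro C hC c hc
    exact (hC y c hc).resolve_left hy0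
  -- the exact sequence
  let f : B.X →ₗ[R] F.X := (LinearMap.ker p).subtype
  let g : F.X →ₗ[R] A.X := p
  have hE : IsEx f g :=
    { inj := Subtype.val_injective
      surj := hp
      exact := by
        intro v
        constructor
        · intro hv
          exact ⟨⟨v, hv⟩, rfl⟩
        · rintro ⟨u, rfl⟩
          exact u.2
      eqf := fun u => rfl
      eqg := hpN }
  have hE1 : Ex B F A := (hISO K R D y m h.eig B F A).2.2.2.2.2.2.1 f g hE
  have hE2 : Ex (B.red h.eig) (F.red h.eig) (A.red h.eig) :=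
    hREX K R D y m h.eig B F A hE1 (reg A hAt)
  have hH : Ex (A.hom M) (F.hom M) (B.hom M) := hHEX K R D B F A M f g hE (by
    intro ψ
    obtain ⟨φ, hφ⟩ := hExt n p hp ψ
    exact ⟨φ, hφ⟩)
  have hH2 : Ex ((A.hom M).red h.eig) ((F.hom M).red h.eig) ((B.hom M).red h.eig) :=
    hREX K R D y m h.eig _ _ _ hH (reg _ ((hRFN K R D y m h B M).2.2.1 hMt))
  have e1 : (F.red h.eig).ch = (B.red h.eig).ch + (A.red h.eig).ch :=
    ((hADD.2 K _ _ _ _ _ _ ((hISO K R D y m h.eig _ _ _).2.2.2.2.2.1 hE2)).1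
      ((hRFN K R D y m h F F).1 hFf)).2.2
  have e2 : ((F.hom M).red h.eig).ch = ((A.hom M).red h.eig).ch + ((B.hom M).red h.eig).ch :=
    ((hADD.2 K _ _ _ _ _ _ ((hISO K R D y m h.eig _ _ _).2.2.2.2.2.1 hH2)).1
      ((hRFN K R D y m h (F.hom M) F).1 ((hRFN K R D y m h F M).2.1 hFf hMf))).2.2
  obtain ⟨c1, c2⟩ := hCHF K R D y m h M hMf n a a0 haa
  refine ⟨B, hBf, hBt, ?_, ?_, ?_⟩
  · have e3 : ((A.hom M).red h.eig).ch =
        iv (ch (Matrix.toLin' a0)) * (M.red h.eig).ch - ((B.hom M).red h.eig).ch := by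
      rw [← c1]
      exact eq_sub_of_add_eq e2.symm
    have e4 : (A.red h.eig).ch =
        ch (Matrix.toLin' a0) * ((NM.one D).red h.eig).ch - (B.red h.eig).ch := by
      rw [← c2]
      exact eq_sub_of_add_eq' e1.symm
    unfold Dl
    rw [e3, e4, map_sub, map_mul]
    ring
  · exact hSUP K R D y m h A hAf hAt n a a0 p hp hpN hpm haa B f hE.inj hE.exact hE.eqf
  · intro k he
    exact he.2 n p hp

end Pool.Agent.ARS
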