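import Pool.Agent.ARS.StN

/-!
# ARS: weights of the kernel of a minimal cover
-/

set_option autoImplicit false

namespace Pool.Agent.ARS

open IsLocalRing

/-! ### linear algebra -/

section

variable {K V W : Type} [Field K] [AddCommGroup V] [Module K V] [AddCommGroup W] [Module K W]

/-- Subspaces. -/
private lemma SUP_inj (hADD : St_ADD) (hNON : St_NON) [Module.Finite K W] (a : V →ₗ[K] V)
    (b : W →ₗ[K] W) (φ : V →ₗ[K] W) (hφ : Function.Injective φ) (hc : ∀ v, φ (a v) = b (φ v))
    (ν : AlgebraicClosure K) (h : cf (ch a) ν ≠ 0) : cf (ch b) ν ≠ 0 := by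
  have hst : LinearMap.range φ ≤ (LinearMap.range φ).comap b := by
    rintro _ ⟨v, rfl⟩
    exact ⟨a v, hc v⟩
  have h1 : ExK a b ((LinearMap.range φ).mapQ (LinearMap.range φ) b hst) := by
    refine ⟨φ, (LinearMap.range φ).mkQ, hφ, Submodule.mkQ_surjective _, fun v => ?_, hc,
      fun v => rfl⟩
    rw [← LinearMap.mem_ker, Submodule.ker_mkQ]
    exact Iff.rfl
  obtain ⟨h2, h3, h4⟩ := (hADD.2 K V W _ a b _ h1).1 inferInstance
  have h5 := (hNON K V V a a).1 ν
  have h6 := (hNON K _ V ((LinearMap.range φ).mapQ (LinearMap.range φ) b hst) a).1 ν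
  have h7 : cf (ch b) ν = cf (ch a) ν +
      cf (ch ((LinearMap.range φ).mapQ (LinearMap.range φ) b hst)) ν := by
    rw [h4]
    rfl
  omega

/-- Quotients. -/
private lemma SUP_surj (hADD : St_ADD) (hNON : St_NON) [Module.Finite K V] (a : V →ₗ[K] V)
    (b : W →ₗ[K] W) (φ : V →ₗ[K] W) (hφ : Function.Surjective φ) (hc : ∀ v, φ (a v) = b (φ v))
    (ν : AlgebraicClosure K) (h : cf (ch b) ν ≠ 0) : cf (ch a) ν ≠ 0 := by
  have hst : ∀ v ∈ LinearMap.ker φ, a v ∈ LinearMap.ker φ := by
    intro v hv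
    rw [LinearMap.mem_ker] at hv ⊢
    rw [hc, hv, map_zero]
  have h1 : ExK (a.restrict hst) a b := by
    refine ⟨(LinearMap.ker φ).subtype, φ, Subtype.val_injective, hφ, fun v => ?_, fun _ => rfl,
      hc⟩
    exact ⟨fun h => ⟨⟨v, h⟩, rfl⟩, fun ⟨u, hu⟩ => by rw [← hu]; exact u.2⟩
  obtain ⟨h2, h3, h4⟩ := (hADD.2 K _ V W _ a b h1).1 inferInstance
  have h5 := (hNON K _ V (a.restrict hst) a).1 ν
  have h6 := (hNON K W V b a).1 ν
  have h7 : cf (ch a) ν = cf (ch (a.restrict hst)) ν + cf (ch b) ν := by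
    rw [h4]
    rfl
  omega

/-- Polynomials in intertwined operators. -/
private lemma SUP_aeval (a : V →ₗ[K] V) (b : W →ₗ[K] W) (φ : V →ₗ[K] W)
    (hc : ∀ v, φ (a v) = b (φ v)) (q : Polynomial K) (v : V) :
    φ (Polynomial.aeval (a : Module.End K V) q v) =
      Polynomial.aeval (b : Module.End K W) q (φ v) := by
  induction q using Polynomial.induction_on' with
  | add q r hq hr =>
    rw [map_add, map_add, LinearMap.add_apply, LinearMap.add_apply, map_add, hq, hr]
  | monomial k c =>
    rw [Polynomial.aeval_monomial, Polynomial.aeval_monomial]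
    have h1 : ∀ (k : ℕ), φ ((a ^ k : Module.End K V) v) = (b ^ k : Module.End K W) (φ v) := by
      intro k
      induction k with
      | zero => rfl
      | succ k ih =>
        rw [pow_succ', pow_succ', Module.End.mul_apply, Module.End.mul_apply, hc, ih]
    rw [Module.End.mul_apply, Module.End.mul_apply, Module.algebraMap_end_apply,
      Module.algebraMap_end_apply, map_smul, h1]

/-- Factorization. -/
private lemma SUP_factor {U : Type} [AddCommGroup U] [Module K U] (P : V →ₗ[K] W)
    (hP : Function.Surjective P) (ρ : V →ₗ[K] U) (h : ∀ v, P v = 0 → ρ v = 0) :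
    ∃ σ : W →ₗ[K] U, ∀ v, σ (P v) = ρ v := by
  obtain ⟨s, hs⟩ := P.exists_rightInverse_of_surjective (LinearMap.range_eq_top.2 hP)
  refine ⟨ρ.comp s, fun v => ?_⟩
  have h1 : P (s (P v) - v) = 0 := by
    rw [map_sub, sub_eq_zero]
    exact LinearMap.congr_fun hs (P v)
  have h2 := h _ h1
  rw [map_sub, sub_eq_zero] at h2
  exact h2

end

/-! ### modules with a connection -/

section

variable {K R : Type} [Field K] [CommRing R] [Algebra K R] {D : Derivation K R R}

private lemma SUP_mod (A : NM D) {y : R} {m : ℕ} (hy : D y = (m : R) * y) (x : A.X) :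
    A.mod hy x = 0 ↔ ∃ w, x = y • w := by
  refine (Submodule.Quotient.mk_eq_zero _).trans ?_
  rw [Submodule.ideal_span_singleton_smul, Submodule.mem_smul_pointwise_iff_exists]
  exact ⟨fun ⟨w, _, hw⟩ => ⟨w, hw.symm⟩, fun ⟨w, hw⟩ => ⟨w, trivial, hw.symm⟩⟩

variable [IsLocalRing R] {y : R} {m : ℕ}

/-- The ideal `max / y`. -/
private noncomputable def SUP_P (h : QH K R D y m) : NM D :=
  ((NM.one D).red h.eig).sub (Submodule.map ((NM.one D).mod h.eig) (maximalIdeal R)) (by
    rintro _ ⟨r, hr, rfl⟩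
    exact ⟨D r, h.max r hr, rfl⟩)

private noncomputable def SUP_ι (h : QH K R D y m) :
    (SUP_P h).X →ₗ[K] ((NM.one D).red h.eig).X :=
  (Submodule.subtype (Submodule.map ((NM.one D).mod h.eig) (maximalIdeal R))).restrictScalars K

private lemma SUP_P_finite (h : QH K R D y m)
    (hfin : Module.Finite K ((NM.one D).red h.eig).X) : Module.Finite K (SUP_P h).X :=
  Module.Finite.of_injective (SUP_ι h) Subtype.val_injective

/-- The kernel modulo `y`. -/
private lemma SUP_ker (h : QH K R D y m) (A : NM D) (hy : ∀ x : A.X, y • x = 0 → x = 0) (n : ℕ)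
    (a : Matrix (Fin n) (Fin n) R) (p : (Fin n → R) →ₗ[R] A.X) (B : NM D)
    (f : B.X →ₗ[R] (Fin n → R)) (hf : Function.Injective f)
    (hfp : ∀ v, p v = 0 ↔ ∃ u, f u = v) (hfN : ∀ u, f (B.N u) = ((NM.one D).pow a).N (f u))
    (hfm : ∀ u i, f u i ∈ maximalIdeal R) :
    ∃ g : (B.red h.eig).X →ₗ[K] ((SUP_P h).pow a).X, Function.Injective g ∧
      ∀ q, g ((B.red h.eig).N q) = ((SUP_P h).pow a).N (g q) := by
  let g0 : B.X →ₗ[K] ((SUP_P h).pow a).X :=
    { toFun := fun u i => (⟨(NM.one D).mod h.eig (f u i), f u i, hfm u i, rfl⟩ :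
        Submodule.map ((NM.one D).mod h.eig) (maximalIdeal R))
      map_add' := fun u u' => by
        funext i
        apply Subtype.ext
        show (NM.one D).mod h.eig (f (u + u') i) =
          (NM.one D).mod h.eig (f u i) + (NM.one D).mod h.eig (f u' i)
        rw [map_add, Pi.add_apply]
        exact map_add ((NM.one D).mod h.eig) _ _
      map_smul' := fun c u => by
        funext i
        apply Subtype.ext
        show (NM.one D).mod h.eig (f (c • u) i) = c • (NM.one D).mod h.eig (f u i)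
        have h1 : f (c • u) = c • f u := by
          rw [← algebraMap_smul R c u, map_smul, algebraMap_smul]
        rw [h1]
        exact (((NM.one D).mod h.eig).restrictScalars K).map_smul c (f u i) }
  obtain ⟨g, hg⟩ := SUP_factor ((B.mod h.eig).restrictScalars K) (Submodule.mkQ_surjective _) g0 (by
    intro u hu
    obtain ⟨w, rfl⟩ := (SUP_mod B h.eig u).1 hu
    funext i
    apply Subtype.ext
    show (NM.one D).mod h.eig (f (y • w) i) = 0
    refine (SUP_mod (NM.one D) h.eig _).2 ⟨f w i, ?_⟩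
    rw [map_smul]
    rfl)
  have hgi : Function.Injective g := by
    rw [injective_iff_map_eq_zero]
    intro q hq
    obtain ⟨u, rfl⟩ : ∃ u, B.mod h.eig u = q := Submodule.mkQ_surjective _ q
    have h1 : g0 u = 0 := (hg u).symm.trans hq
    have h2 : ∀ i, ∃ w, f u i = y * w := by
      intro i
      exact (SUP_mod (NM.one D) h.eig _).1 (congrArg Subtype.val (congrFun h1 i))
    choose w hw using h2
    have h3 : f u = y • w := funext hw
    have h4 : p w = 0 := by
      apply hy
      rw [← map_smul, ← h3]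
      exact (hfp _).2 ⟨u, rfl⟩
    obtain ⟨u', hu'⟩ := (hfp w).1 h4
    refine (SUP_mod B h.eig u).2 ⟨u', hf ?_⟩
    rw [h3, map_smul, hu']
  have hgN : ∀ q, g ((B.red h.eig).N q) = ((SUP_P h).pow a).N (g q) := by
    intro q
    obtain ⟨u, rfl⟩ : ∃ u, B.mod h.eig u = q := Submodule.mkQ_surjective _ q
    have h1 : g (B.mod h.eig u) = g0 u := hg u
    have h2 : g ((B.red h.eig).N (B.mod h.eig u)) = g0 (B.N u) := hg (B.N u)
    rw [h1, h2]
    funext i
    apply Subtype.ext
    have e1 : ∀ (z : R) (c w : Fin n → R), (NM.one D).mod h.eig (D z + ∑ j, c j * w j) =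
        ((NM.one D).red h.eig).N ((NM.one D).mod h.eig z) +
          ∑ j, c j • (NM.one D).mod h.eig (w j) := by
      intro z c w
      refine (map_add ((NM.one D).mod h.eig) _ _).trans ?_
      refine congrArg₂ (· + ·) rfl ?_
      refine (map_sum ((NM.one D).mod h.eig) _ _).trans ?_
      exact Finset.sum_congr rfl fun j _ => map_smul ((NM.one D).mod h.eig) (c j) (w j)
    have e2 : SUP_ι h (((SUP_P h).pow a).N (g0 u) i) =
        ((NM.one D).red h.eig).N ((NM.one D).mod h.eig (f u i)) +
          ∑ j, a i j • (NM.one D).mod h.eig (f u j) := by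
      refine (map_add (SUP_ι h) _ _).trans ?_
      refine congrArg₂ (· + ·) rfl ?_
      exact map_sum (SUP_ι h) _ _
    refine Eq.trans ?_ e2.symm
    refine Eq.trans ?_ (e1 (f u i) (a i) (f u))
    exact congrArg (fun v => (NM.one D).mod h.eig (v i)) (hfN u)
  exact ⟨g, hgi, hgN⟩

end

theorem thm_SUP (hADD : St_ADD) (hNON : St_NON) (hANN : St_ANN) (hPOW : St_POW) (hRFN : St_RFN)
    (hGRD : St_GRD) : St_SUP := by
  classical
  intro K R _ _ _ _ _ _ _ D y m h A hAf hAt n a a0 p hp hpN hpm ha B f hf hfp hfN ν hν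
  -- the residue map
  have hK : ∀ k : K, algebraMap K R k ∈ maximalIdeal R → k = 0 := by
    intro k hk
    by_contra hk0
    exact (mem_maximalIdeal _).1 hk ((isUnit_iff_ne_zero.2 hk0).map (algebraMap K R))
  choose r hr using h.res
  have hru : ∀ x k, x - algebraMap K R k ∈ maximalIdeal R → r x = k := by
    intro x k hx
    have h1 := (maximalIdeal R).sub_mem hx (hr x)
    rw [sub_sub_sub_cancel_left, ← map_sub] at h1
    exact sub_eq_zero.1 (hK _ h1)
  have hradd : ∀ x x', r (x + x') = r x + r x' := by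
    intro x x'
    apply hru
    rw [map_add, add_sub_add_comm]
    exact (maximalIdeal R).add_mem (hr x) (hr x')
  have hrmul : ∀ x x', r (x * x') = r x * r x' := by
    intro x x'
    apply hru
    rw [map_mul]
    have h1 : x * x' - algebraMap K R (r x) * algebraMap K R (r x') =
        x * (x' - algebraMap K R (r x')) + algebraMap K R (r x') * (x - algebraMap K R (r x)) := by
      ring
    rw [h1]
    exact (maximalIdeal R).add_mem (Ideal.mul_mem_left _ _ (hr x'))
      (Ideal.mul_mem_left _ _ (hr x))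
  have hrmax : ∀ x ∈ maximalIdeal R, r x = 0 := by
    intro x hx
    apply hru
    rwa [map_zero, sub_zero]
  have hrD : ∀ x, r (D x) = 0 := by
    intro x
    apply hrmax
    have h1 := h.max _ (hr x)
    rwa [map_sub, Derivation.map_algebraMap, sub_zero] at h1
  have hralg : ∀ k : K, r (algebraMap K R k) = k := by
    intro k
    apply hru
    rw [sub_self]
    exact Submodule.zero_mem _
  let ρ : (Fin n → R) →ₗ[K] (Fin n → K) :=
    { toFun := fun v i => r (v i)
      map_add' := fun v w => funext fun i => hradd _ _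
      map_smul' := fun c v => funext fun i => by
        show r (c • v i) = c * r (v i)
        rw [Algebra.smul_def, hrmul, hralg] }
  have hρ : Function.Surjective ρ := fun w => ⟨fun i => algebraMap K R (w i), funext fun i =>
    hralg _⟩
  -- the quotient of `A / y`
  have hy : ∀ x : A.X, y • x = 0 → x = 0 := by
    intro x hx
    exact (hAt y x hx).resolve_left h.ne
  let P1 : (Fin n → R) →ₗ[K] (A.red h.eig).X := ((A.mod h.eig).comp p).restrictScalars K
  have hP1 : Function.Surjective P1 := (Submodule.mkQ_surjective _).comp hp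
  obtain ⟨σ, hσ⟩ := SUP_factor P1 hP1 ρ (by
    intro v hv
    obtain ⟨w', hw'⟩ := (SUP_mod A h.eig (p v)).1 hv
    obtain ⟨w, rfl⟩ := hp w'
    have h1 : p (v - y • w) = 0 := by
      rw [map_sub, map_smul, hw', sub_self]
    funext i
    apply hrmax
    have h2 := hpm _ h1 i
    have h3 : v i = (v - y • w) i + w i * y := by
      rw [Pi.sub_apply, Pi.smul_apply, smul_eq_mul]
      ring
    rw [h3]
    exact (maximalIdeal R).add_mem h2 (Ideal.mul_mem_left _ _ h.mem))
  have hσs : Function.Surjective σ := by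
    intro w
    obtain ⟨v, hv⟩ := hρ w
    exact ⟨P1 v, (hσ v).trans hv⟩
  have hσN : ∀ q, σ ((A.red h.eig).N q) = Matrix.toLin' a0 (σ q) := by
    intro q
    obtain ⟨v, rfl⟩ := hP1 q
    have h1 : (A.red h.eig).N (P1 v) = P1 (((NM.one D).pow a).N v) := by
      show A.mod h.eig (A.N (p v)) = A.mod h.eig (p (((NM.one D).pow a).N v))
      rw [hpN]
    refine ((congrArg σ h1).trans (hσ _)).trans ?_
    rw [hσ]
    funext i
    show r (D (v i) + ∑ j, a i j * v j) = (Matrix.toLin' a0 (ρ v)) i
    rw [hradd, hrD, zero_add, Matrix.toLin'_apply]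
    show r (∑ j, a i j * v j) = ∑ j, a0 i j * r (v j)
    have h2 : ∀ s : Finset (Fin n), r (∑ j ∈ s, a i j * v j) = ∑ j ∈ s, a0 i j * r (v j) := by
      intro s
      induction s using Finset.induction_on with
      | empty =>
        rw [Finset.sum_empty, Finset.sum_empty]
        exact hrmax _ (Submodule.zero_mem _)
      | insert j s hj ih =>
        rw [Finset.sum_insert hj, Finset.sum_insert hj, hradd, hrmul, ih, hru _ _ (ha i j)]
    exact h2 _
  have hfA : Module.Finite K (A.red h.eig).X := (hRFN K R D y m h A A).1 hAf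
  have hsup1 : ∀ l, cf (ch (Matrix.toLin' a0)) l ≠ 0 → cf (A.red h.eig).ch l ≠ 0 :=
    fun l hl => SUP_surj hADD hNON _ _ σ hσs hσN l hl
  -- the ideal `max / y`
  have hf1 : Module.Finite K ((NM.one D).red h.eig).X :=
    (hRFN K R D y m h (NM.one D) (NM.one D)).1 (inferInstanceAs (Module.Finite R R))
  have hfP : Module.Finite K (SUP_P h).X := SUP_P_finite h hf1
  have hsup2 : ∀ l, cf (SUP_P h).ch l ≠ 0 → ∃ k : ℕ, 1 ≤ k ∧ l = (k : AlgebraicClosure K) := by
    intro l hl
    obtain ⟨N, hN⟩ := h.wt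
    have h1 : Polynomial.aeval l (SUP_P h).N.charpoly = 0 :=
      ((hNON K _ K (SUP_P h).N 0).2.1 l).1 hl
    have h2 := hANN K _ (SUP_P h).N (∏ w ∈ Finset.Icc 1 N, (Polynomial.X - Polynomial.C (w : K)))
      (by
        refine LinearMap.ext fun x => ?_
        obtain ⟨x, s, hs, rfl⟩ := x
        have h3 := SUP_aeval (SUP_P h).N ((NM.one D).red h.eig).N (SUP_ι h) (fun _ => rfl)
          (∏ w ∈ Finset.Icc 1 N, (Polynomial.X - Polynomial.C (w : K)))
          ⟨(NM.one D).mod h.eig s, s, hs, rfl⟩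
        have h4 := SUP_aeval D.toLinearMap ((NM.one D).red h.eig).N
          (((NM.one D).mod h.eig).restrictScalars K) (fun _ => rfl)
          (∏ w ∈ Finset.Icc 1 N, (Polynomial.X - Polynomial.C (w : K))) s
        apply Subtype.ext
        refine (h3.trans h4.symm).trans ?_
        refine (SUP_mod (NM.one D) h.eig _).2 ?_
        obtain ⟨w, hw⟩ := Ideal.mem_span_singleton'.1 (hN s hs)
        exact ⟨w, (hw.symm.trans (mul_comm _ _))⟩) l h1
    rw [map_prod, Finset.prod_eq_zero_iff] at h2
    obtain ⟨k, hk, hk0⟩ := h2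
    refine ⟨k, (Finset.mem_Icc.1 hk).1, ?_⟩
    rw [map_sub, Polynomial.aeval_X, Polynomial.aeval_C, map_natCast, sub_eq_zero] at hk0
    exact hk0
  -- the kernel
  have hfm : ∀ u i, f u i ∈ maximalIdeal R := fun u i => hpm _ ((hfp _).2 ⟨u, rfl⟩) i
  obtain ⟨g, hgi, hgN⟩ := SUP_ker h A hy n a p B f hf hfp hfN hfm
  have hfPn : Module.Finite K ((SUP_P h).pow a).X :=
    inferInstanceAs (Module.Finite K (Fin n → (SUP_P h).X))
  have h1 : cf ((SUP_P h).pow a).ch ν ≠ 0 := SUP_inj hADD hNON _ _ g hgi hgN ν hν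
  rw [hPOW K R D y m h (SUP_P h) hfP n a a0 ha] at h1
  obtain ⟨b, c, hb, hc, hbc⟩ := (hGRD K).2.2.2.2.2.2.2.1 _ _ _ h1
  obtain ⟨k, hk, hck⟩ := hsup2 c hc
  exact ⟨b, k, hk, hsup1 b hb, by rw [hbc, hck]⟩

end Pool.Agent.ARS
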