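import Pool.Agent.ARS.StN
import Pool.Agent.HWC.ExistsAF

/-!
# ARS, module TR1 : the trace part of `End M`
-/

set_option autoImplicit false

namespace Pool.Agent.ARS

open IsLocalRing

section

variable {K R : Type} [Field K] [CommRing R] [Algebra K R] {D : Derivation K R R}

/-- the derivative of a linear form -/
private def TR1_d (M : NM D) (f : M.X →ₗ[R] R) : M.X →ₗ[R] R := (M.hom (NM.one D)).N f

private theorem TR1_stable (M : NM D) : ∀ φ ∈ trc M, (M.hom M).N φ ∈ trc M := by
  intro φ hφ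
  unfold trc at hφ
  induction hφ using Submodule.span_induction with
  | mem φ h =>
    obtain ⟨f, x, rfl⟩ := h
    have e : (M.hom M).N (f.smulRight x) =
        ((f.smulRight (M.N x) : M.X →ₗ[R] M.X) +
          (LinearMap.smulRight (TR1_d M f) x : M.X →ₗ[R] M.X) : M.X →ₗ[R] M.X) := by
      refine LinearMap.ext fun v => ?_
      show M.N (f v • x) - f (M.N v) • x = f v • M.N x + (D (f v) - f (M.N v)) • x
      rw [M.leib, sub_smul]
      abel
    rw [e]
    exact Submodule.add_mem _ (Submodule.subset_span ⟨f, M.N x, rfl⟩)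
      (Submodule.subset_span ⟨_, x, rfl⟩)
  | zero =>
    rw [map_zero]
    exact Submodule.zero_mem _
  | add φ ψ _ _ h1 h2 =>
    rw [map_add]
    exact Submodule.add_mem _ h1 h2
  | smul r φ h1 h2 =>
    rw [(M.hom M).leib]
    exact Submodule.add_mem _ (Submodule.smul_mem _ _ h1) (Submodule.smul_mem _ _ h2)

private theorem TR1_rank {M : NM D} {q : ℕ} (p : M.X →ₗ[R] (Fin q → R))
    (j : (Fin q → R) →ₗ[R] M.X) : (j.comp p : M.X →ₗ[R] M.X) ∈ trc M := by
  have e : (j.comp p : M.X →ₗ[R] M.X) =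
      ∑ i, (((LinearMap.proj i : (Fin q → R) →ₗ[R] R).comp p).smulRight
        (j (Pi.single i 1)) : M.X →ₗ[R] M.X) := by
    refine LinearMap.ext fun v => ?_
    rw [LinearMap.sum_apply]
    show j (p v) = ∑ i, p v i • j (Pi.single i 1)
    conv_lhs => rw [pi_eq_sum_univ' (p v)]
    rw [map_sum]
    refine Finset.sum_congr rfl fun i _ => ?_
    rw [← map_smul]
  have h : (∑ i, (((LinearMap.proj i : (Fin q → R) →ₗ[R] R).comp p).smulRight
        (j (Pi.single i 1)) : M.X →ₗ[R] M.X)) ∈ trc M :=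
    Submodule.sum_mem (trc M) fun i _ => Submodule.subset_span ⟨_, _, rfl⟩
  rw [e]
  exact h

private theorem TR1_factor {M : NM D} (φ : M.X →ₗ[R] M.X) (hφ : φ ∈ trc M) :
    ∃ (F : Type) (_ : AddCommGroup F) (_ : Module R F) (_ : Module.Free R F)
      (p : M.X →ₗ[R] F) (j : F →ₗ[R] M.X), φ = j.comp p := by
  unfold trc at hφ
  induction hφ using Submodule.span_induction with
  | mem φ h =>
    obtain ⟨f, x, rfl⟩ := h
    exact ⟨R, inferInstance, inferInstance, inferInstance, f, LinearMap.toSpanSingleton R M.X x,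
      LinearMap.ext fun v => rfl⟩
  | zero =>
    exact ⟨R, inferInstance, inferInstance, inferInstance, 0, 0, LinearMap.ext fun v => rfl⟩
  | add φ ψ _ _ h1 h2 =>
    obtain ⟨F, _, _, _, p, j, rfl⟩ := h1
    obtain ⟨F', _, _, _, p', j', rfl⟩ := h2
    exact ⟨F × F', inferInstance, inferInstance, inferInstance, p.prod p', j.coprod j',
      LinearMap.ext fun v => rfl⟩
  | smul r φ _ h2 =>
    obtain ⟨F, _, _, _, p, j, rfl⟩ := h2
    exact ⟨F, inferInstance, inferInstance, inferInstance, p, r • j,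
      LinearMap.ext fun v => rfl⟩

end

theorem thm_TR1 : St_TR1 := by
  intro K R _ _ _ _ _ _ D y m h M hfin hTF
  refine ⟨TR1_stable M, ?_, ?_⟩
  · obtain ⟨q, N, j, p, hjp, -⟩ := HWC.exists_AF R h.pkg M.X hTF y h.mem h.ne
    refine ⟨N, fun φ => ?_⟩
    have e : ((y ^ N) • φ : M.X →ₗ[R] M.X) = (φ.comp j).comp p := by
      refine LinearMap.ext fun v => ?_
      show y ^ N • φ v = φ (j (p v))
      rw [hjp, map_smul]
    rw [e]
    exact TR1_rank p (φ.comp j)
  · intro hid
    obtain ⟨F, _, _, _, p, j, hpj⟩ := TR1_factor _ hid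
    have : Module.Projective R M.X := Module.Projective.of_split p j hpj.symm
    exact Module.free_of_flat_of_isLocalRing

end Pool.Agent.ARS
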