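import Pool.Agent.ARS.StN
import Pool.Agent.HWC.Reflex

set_option autoImplicit false

namespace Pool.Agent.ARS

open IsLocalRing Module

private theorem TR2_div {R E Q : Type} [CommRing R] [IsDomain R] [AddCommGroup E] [Module R E]
    [AddCommGroup Q] [Module R Q] (s : R) (hs : s ≠ 0) (L : E →ₗ[R] Q →ₗ[R] R)
    (hL : ∀ e q, s ∣ L e q) : ∃ B : E →ₗ[R] Q →ₗ[R] R, ∀ e q, L e q = s * B e q := by
  choose c hc using hL
  have hadd : ∀ e e' q, c (e + e') q = c e q + c e' q := by
    intro e e' q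
    apply mul_left_cancel₀ hs
    rw [mul_add, ← hc, ← hc, ← hc, map_add]
    rfl
  have hsm : ∀ (r : R) e q, c (r • e) q = r • c e q := by
    intro r e q
    apply mul_left_cancel₀ hs
    rw [← hc, map_smul, LinearMap.smul_apply, hc e q, smul_eq_mul, smul_eq_mul]
    ring
  have hadd2 : ∀ e q q', c e (q + q') = c e q + c e q' := by
    intro e q q'
    apply mul_left_cancel₀ hs
    rw [mul_add, ← hc, ← hc, ← hc, map_add]
  have hsm2 : ∀ (r : R) e q, c e (r • q) = r • c e q := by
    intro r e q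
    apply mul_left_cancel₀ hs
    rw [← hc, map_smul, hc e q, smul_eq_mul, smul_eq_mul]
    ring
  exact ⟨LinearMap.mk₂ R c hadd hsm hadd2 hsm2, fun e q => hc e q⟩

private theorem TR2_core {R X : Type} [CommRing R] [IsDomain R] [AddCommGroup X] [Module R X]
    [Module.IsReflexive R X] (T : Submodule R (X →ₗ[R] X))
    (hT : T = Submodule.span R {φ : X →ₗ[R] X | ∃ (f : X →ₗ[R] R) (x : X), φ = f.smulRight x})
    (s : R) (hs : s ≠ 0) (hsT : s • (LinearMap.id : X →ₗ[R] X) ∈ T) :
    ∃ e : (X →ₗ[R] X) ≃ₗ[R] (T →ₗ[R] R), ∀ (a : X →ₗ[R] X) (f : X →ₗ[R] R) (x : X)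
      (h : f.smulRight x ∈ T), e a ⟨f.smulRight x, h⟩ = f (a x) := by
  have hmem : ∀ (f : X →ₗ[R] R) (x : X), f.smulRight x ∈ T := fun f x => by
    rw [hT]
    exact Submodule.subset_span ⟨f, x, rfl⟩
  -- a functional which is `s` times the trace
  have htr : ∃ t : (X →ₗ[R] X) →ₗ[R] R, ∀ (f : X →ₗ[R] R) (x : X),
      t (f.smulRight x) = s * f x := by
    have key : ∀ τ ∈ Submodule.span R {φ : X →ₗ[R] X | ∃ (f : X →ₗ[R] R) (x : X),
        φ = f.smulRight x}, ∃ t : (X →ₗ[R] X) →ₗ[R] R, ∀ (f : X →ₗ[R] R) (x : X),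
          t (f.smulRight x) = f (τ x) := by
      intro τ hτ
      induction hτ using Submodule.span_induction with
      | mem φ hφ =>
        obtain ⟨g, a, rfl⟩ := hφ
        refine ⟨g ∘ₗ (LinearMap.applyₗ a), fun f x => ?_⟩
        simp [mul_comm]
      | zero => exact ⟨0, fun f x => by simp⟩
      | add φ ψ _ _ h1 h2 =>
        obtain ⟨t1, h1⟩ := h1
        obtain ⟨t2, h2⟩ := h2
        exact ⟨t1 + t2, fun f x => by simp [h1, h2]⟩
      | smul r φ _ h1 =>
        obtain ⟨t1, h1⟩ := h1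
        exact ⟨r • t1, fun f x => by simp [h1]⟩
    rw [hT] at hsT
    obtain ⟨t, ht⟩ := key _ hsT
    exact ⟨t, fun f x => by rw [ht]; simp⟩
  obtain ⟨t, ht⟩ := htr
  -- the pairing
  let L : (X →ₗ[R] X) →ₗ[R] T →ₗ[R] R :=
    LinearMap.mk₂ R (fun e τ => t (e ∘ₗ τ.1)) (fun e e' τ => by
        rw [LinearMap.add_comp, map_add]) (fun r e τ => by
        rw [LinearMap.smul_comp, map_smul]) (fun e τ τ' => by
        rw [Submodule.coe_add, LinearMap.comp_add, map_add]) (fun r e τ => by
        rw [Submodule.coe_smul, LinearMap.comp_smul, map_smul])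
  have hcomp : ∀ (e : X →ₗ[R] X) (f : X →ₗ[R] R) (x : X),
      e ∘ₗ f.smulRight x = f.smulRight (e x) := by
    intro e f x
    ext v
    simp
  have hL : ∀ e τ, s ∣ L e τ := by
    rintro e ⟨τ, hτ⟩
    change s ∣ t (e ∘ₗ τ)
    rw [hT] at hτ
    induction hτ using Submodule.span_induction with
    | mem φ hφ =>
      obtain ⟨f, x, rfl⟩ := hφ
      rw [hcomp, ht]
      exact dvd_mul_right _ _
    | zero => simp
    | add φ ψ _ _ h1 h2 =>
      rw [LinearMap.comp_add, map_add]
      exact dvd_add h1 h2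
    | smul r φ _ h1 =>
      rw [LinearMap.comp_smul, map_smul, smul_eq_mul]
      exact h1.mul_left _
  obtain ⟨B, hB⟩ := TR2_div s hs L hL
  have hBf : ∀ (a : X →ₗ[R] X) (f : X →ₗ[R] R) (x : X) (h : f.smulRight x ∈ T),
      B a ⟨f.smulRight x, h⟩ = f (a x) := by
    intro a f x h
    apply mul_left_cancel₀ hs
    rw [← hB]
    change t (a ∘ₗ f.smulRight x) = _
    rw [hcomp, ht]
  have hinj : Function.Injective B := by
    rw [injective_iff_map_eq_zero]
    intro a ha
    ext x
    apply (Module.IsReflexive.bijective_dual_eval' (R := R) (M := X)).1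
    rw [LinearMap.zero_apply, map_zero]
    ext f
    rw [Module.Dual.eval_apply, ← hBf a f x (hmem f x), ha]
    rfl
  have hsurj : Function.Surjective B := by
    intro θ
    let ρ : X →ₗ[R] (X →ₗ[R] R) →ₗ[R] R :=
      LinearMap.mk₂ R (fun x f => θ ⟨f.smulRight x, hmem f x⟩) (fun x x' f => by
          rw [← map_add]
          congr 1
          ext v
          simp) (fun r x f => by
          rw [← map_smul]
          congr 1
          ext v
          simp [smul_smul, mul_comm]) (fun x f f' => by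
          rw [← map_add]
          congr 1
          ext v
          simp [add_smul]) (fun r x f => by
          rw [← map_smul]
          congr 1
          ext v
          simp [smul_smul])
    let a : X →ₗ[R] X := (Module.evalEquiv R X).symm.toLinearMap ∘ₗ ρ
    have ha : ∀ (f : X →ₗ[R] R) (x : X), f (a x) = θ ⟨f.smulRight x, hmem f x⟩ := by
      intro f x
      have h1 : Module.evalEquiv R X (a x) = ρ x := by
        change Module.evalEquiv R X ((Module.evalEquiv R X).symm (ρ x)) = ρ x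
        rw [LinearEquiv.apply_symm_apply]
      have h2 := LinearMap.congr_fun h1 f
      rw [Module.evalEquiv_apply] at h2
      exact h2
    refine ⟨a, ?_⟩
    rw [Submodule.linearMap_eq_iff_of_eq_span _ _ hT]
    rintro ⟨_, f, x, rfl⟩
    rw [hBf, ha]
  exact ⟨LinearEquiv.ofBijective B ⟨hinj, hsurj⟩, hBf⟩

private theorem TR2_ext {R X : Type} [CommRing R] [AddCommGroup X] [Module R X]
    (T : Submodule R (X →ₗ[R] X))
    (hT : T = Submodule.span R {φ : X →ₗ[R] X | ∃ (f : X →ₗ[R] R) (x : X), φ = f.smulRight x})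
    (g h : T →ₗ[R] R) (H : ∀ (f : X →ₗ[R] R) (x : X) (hm : f.smulRight x ∈ T),
      g ⟨f.smulRight x, hm⟩ = h ⟨f.smulRight x, hm⟩) : g = h := by
  rw [Submodule.linearMap_eq_iff_of_eq_span _ _ hT]
  rintro ⟨_, f, x, rfl⟩
  exact H f x _

theorem thm_TR2 (hTR1 : St_TR1) : St_TR2 := by
  intro K R _ _ _ _ _ _ D y m hQ M hfin hTF hT
  haveI : Module.Finite R M.X := hfin
  haveI : Module.IsReflexive R M.X := HWC.reflexive R hQ.pkg M.X hTF
  obtain ⟨-, ⟨j, hj⟩, -⟩ := hTR1 K R D y m hQ M hfin hTF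
  obtain ⟨e, he⟩ := TR2_core (R := R) (X := M.X) (trc M) rfl (y ^ j) (pow_ne_zero j hQ.ne)
    (hj LinearMap.id)
  have hmem : ∀ (f : M.X →ₗ[R] R) (x : M.X), f.smulRight x ∈ trc M := fun f x =>
    Submodule.subset_span ⟨f, x, rfl⟩
  have key : ∀ a : M.X →ₗ[R] M.X,
      (((M.hom M).sub (trc M) hT).hom (NM.one D)).N (e a) = e ((M.hom M).N a) := by
    intro a
    refine TR2_ext (R := R) (X := M.X) (trc M) rfl
      ((((M.hom M).sub (trc M) hT).hom (NM.one D)).N (e a)) (e ((M.hom M).N a)) ?_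
    intro f x hm
    let f' : M.X →ₗ[R] R := ((M.hom (NM.one D)).N f : M.X →ₗ[R] R)
    have hf' : ∀ v, f' v = D (f v) - f (M.N v) := fun v => rfl
    have hN : ∀ (h : (M.hom M).N (f.smulRight x) ∈ trc M),
        (⟨(M.hom M).N (f.smulRight x), h⟩ : trc M) =
          ⟨f'.smulRight x, hmem f' x⟩ + ⟨f.smulRight (M.N x), hmem f (M.N x)⟩ := by
      intro h
      apply Subtype.ext
      apply LinearMap.ext
      intro v
      change M.N (f v • x) - f (M.N v) • x = f' v • x + f v • M.N x
      rw [M.leib, hf', sub_smul]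
      abel
    have h1 : e a ⟨(M.hom M).N (f.smulRight x), hT _ (hmem f x)⟩ =
        f' (a x) + f (a (M.N x)) := by
      refine (congrArg (e a) (hN (hT _ (hmem f x)))).trans ?_
      refine ((e a).map_add _ _).trans ?_
      exact congrArg₂ (· + ·) (he a f' x _) (he a f (M.N x) _)
    rw [he]
    change D (e a ⟨f.smulRight x, _⟩) - e a ⟨(M.hom M).N (f.smulRight x), _⟩ =
      f (M.N (a x) - a (M.N x))
    rw [h1, he, hf', map_sub]
    abel
  refine ⟨e.symm, fun u => ?_⟩
  obtain ⟨a, rfl⟩ := e.surjective u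
  rw [key]
  change e.symm (e ((M.hom M).N a)) = (M.hom M).N (e.symm (e a))
  rw [LinearEquiv.symm_apply_apply, LinearEquiv.symm_apply_apply]

end Pool.Agent.ARS
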