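import Pool.Agent.ARS.StL

/-! TWI: eigenvalues of the twisted power. -/

set_option autoImplicit false

namespace Pool.Agent.ARS

open Polynomial

section matrix

variable {F : Type} [Field F]

/-- the matrix of the twisted power -/
private def TWI_kr {n : ℕ} {ι : Type} [DecidableEq ι] (a : Matrix (Fin n) (Fin n) F)
    (M : Matrix ι ι F) : Matrix (Σ _ : Fin n, ι) (Σ _ : Fin n, ι) F :=
  Matrix.of fun x y => (if x.1 = y.1 then M x.2 y.2 else 0) + (if x.2 = y.2 then a x.1 y.1 else 0)

private theorem TWI_kron {Q : Type} [AddCommGroup Q] [Module F Q] [Module.Finite F Q]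
    (A : Q →ₗ[F] Q) {n : ℕ} (a : Matrix (Fin n) (Fin n) F) {ι : Type} [Fintype ι] [DecidableEq ι]
    (b : Module.Basis ι F Q) :
    (tw A a).charpoly = (TWI_kr a (LinearMap.toMatrix b b A)).charpoly := by
  rw [← LinearMap.charpoly_toMatrix (tw A a) (Pi.basis fun _ : Fin n => b)]
  congr 1
  ext ⟨i, p⟩ ⟨j, q⟩
  rw [LinearMap.toMatrix_apply, Pi.basis_repr, Pi.basis_apply]
  show b.repr (A ((Pi.single j (b q) : Fin n → Q) i) +
    ∑ k, a i k • (Pi.single j (b q) : Fin n → Q) k) p = _
  have h1 : ∑ k, a i k • (Pi.single j (b q) : Fin n → Q) k = a i j • b q := by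
    rw [Finset.sum_eq_single j]
    · rw [Pi.single_eq_same]
    · intro k _ hk
      rw [Pi.single_eq_of_ne hk, smul_zero]
    · intro h
      exact absurd (Finset.mem_univ _) h
  rw [h1, map_add, Finsupp.add_apply, map_smul, Finsupp.smul_apply, Module.Basis.repr_self,
    Finsupp.single_apply]
  show _ = (if i = j then (LinearMap.toMatrix b b A) p q else 0) + (if p = q then a i j else 0)
  rw [LinearMap.toMatrix_apply]
  congr 1
  · by_cases hij : i = j
    · subst hij
      rw [Pi.single_eq_same, if_pos rfl]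
    · rw [Pi.single_eq_of_ne hij, if_neg hij, map_zero, map_zero]
      rfl
  · by_cases hpq : p = q
    · rw [if_pos hpq.symm, if_pos hpq, smul_eq_mul, mul_one]
    · rw [if_neg (fun h => hpq h.symm), if_neg hpq, smul_zero]

end matrix

section closed

variable {F R : Type} [Field F] [CommRing R]

/-- the sum of the values of `φ` at the roots of the characteristic polynomial -/
private noncomputable def TWI_s (φ : F → R) (p : F[X]) : R := (p.roots.map φ).sum

private theorem TWI_s_mul (φ : F → R) {p q : F[X]} (hp : p ≠ 0) (hq : q ≠ 0) :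
    TWI_s φ (p * q) = TWI_s φ p + TWI_s φ q := by
  unfold TWI_s
  rw [roots_mul (mul_ne_zero hp hq), Multiset.map_add, Multiset.sum_add]

private theorem TWI_s_comp (φ : F → R) (hφ : ∀ s t, φ (s + t) = φ s * φ t) (p : F[X]) (t : F) :
    TWI_s φ (p.comp (X + C (-t))) = φ t * TWI_s φ p := by
  unfold TWI_s
  have h1 := map_roots_comp_C_mul_X_add_C p 1 (-t) isUnit_one
  rw [C_1, one_mul] at h1
  conv_rhs => rw [← h1]
  rw [Multiset.map_map, ← Multiset.sum_map_mul_left]
  congr 1
  refine Multiset.map_congr rfl fun x _ => ?_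
  rw [Function.comp_apply, ← hφ, one_mul]
  congr 1
  ring

private theorem TWI_ex {P Q S : Type} [AddCommGroup P] [Module F P] [AddCommGroup Q]
    [Module F Q] [AddCommGroup S] [Module F S] {x : P →ₗ[F] P} {y : Q →ₗ[F] Q} {z : S →ₗ[F] S}
    (h : ExK x y z) {n : ℕ} (a : Matrix (Fin n) (Fin n) F) : ExK (tw x a) (tw y a) (tw z a) := by
  obtain ⟨f, g, hf, hg, hfg, hx, hz⟩ := h
  refine ⟨f.compLeft (Fin n), g.compLeft (Fin n), ?_, ?_, ?_, ?_, ?_⟩
  · intro u v huv
    funext i
    exact hf (congrFun huv i)
  · intro w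
    choose v hv using fun i => hg (w i)
    exact ⟨v, funext hv⟩
  · intro v
    constructor
    · intro hv
      choose u hu using fun i => (hfg (v i)).1 (congrFun hv i)
      exact ⟨u, funext hu⟩
    · rintro ⟨u, rfl⟩
      funext i
      exact (hfg _).2 ⟨u i, rfl⟩
  · intro u
    funext i
    show f (x (u i) + ∑ j, a i j • u j) = y (f (u i)) + ∑ j, a i j • f (u j)
    rw [map_add, hx, map_sum]
    congr 1
    refine Finset.sum_congr rfl fun j _ => ?_
    rw [map_smul]
  · intro v
    funext i
    show g (y (v i) + ∑ j, a i j • v j) = z (g (v i)) + ∑ j, a i j • g (v j)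
    rw [map_add, hz, map_sum]
    congr 1
    refine Finset.sum_congr rfl fun j _ => ?_
    rw [map_smul]

private theorem TWI_ac [IsAlgClosed F] (hADD : St_ADD) (φ : F → R)
    (hφ : ∀ s t, φ (s + t) = φ s * φ t) {n : ℕ} (a : Matrix (Fin n) (Fin n) F) :
    ∀ (d : ℕ) (Q : Type) [AddCommGroup Q] [Module F Q] [Module.Finite F Q] (A : Q →ₗ[F] Q),
      Module.finrank F Q = d →
      TWI_s φ (tw A a).charpoly = TWI_s φ (Matrix.toLin' a).charpoly * TWI_s φ A.charpoly := by
  intro d
  induction d with
  | zero =>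
    intro Q _ _ _ A hd
    have h1 : ∀ {S : Type} [AddCommGroup S] [Module F S] [Module.Finite F S] (B : S →ₗ[F] S),
        Module.finrank F S = 0 → TWI_s φ B.charpoly = 0 := by
      intro S _ _ _ B hS
      have h2 : B.charpoly.natDegree = 0 := by rw [LinearMap.charpoly_natDegree, hS]
      have h3 : B.charpoly = 1 := (LinearMap.charpoly_monic B).natDegree_eq_zero.1 h2
      unfold TWI_s
      rw [h3, roots_one]
      rfl
    rw [h1 A hd, mul_zero]
    apply h1
    rw [Module.finrank_pi_fintype]
    simp [hd]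
  | succ d ih =>
    intro Q _ _ _ A hd
    have hnt : Nontrivial Q := Module.nontrivial_of_finrank_pos (R := F) (by omega)
    obtain ⟨t, ht⟩ := Module.End.exists_eigenvalue (K := F) (V := Q) A
    obtain ⟨v, hv⟩ := ht.exists_hasEigenvector
    have hv0 : v ≠ 0 := hv.2
    have hvt : A v = t • v := hv.apply_eq_smul
    have hinv : (F ∙ v) ≤ (F ∙ v).comap A := by
      rw [Submodule.span_singleton_le_iff_mem, Submodule.mem_comap, hvt]
      exact Submodule.smul_mem _ _ (Submodule.mem_span_singleton_self v)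
    have hex : ExK (t • (LinearMap.id : F →ₗ[F] F)) A ((F ∙ v).mapQ (F ∙ v) A hinv) := by
      refine ⟨LinearMap.toSpanSingleton F Q v, (F ∙ v).mkQ, ?_, Submodule.mkQ_surjective _,
        ?_, ?_, ?_⟩
      · intro x y hxy
        have h1 : x • v = y • v := hxy
        exact smul_left_injective F hv0 h1
      · intro w
        rw [Submodule.mkQ_apply, Submodule.Quotient.mk_eq_zero, Submodule.mem_span_singleton]
        rfl
      · intro u
        show (t * u) • v = A (u • v)
        rw [map_smul, hvt, smul_smul, mul_comm]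
      · intro w
        rfl
    have hfr : Module.finrank F (Q ⧸ (F ∙ v)) = d := by
      have h1 := Submodule.finrank_quotient_add_finrank (F ∙ v)
      rw [finrank_span_singleton hv0, hd] at h1
      omega
    have e1 := hADD.1 F F Q (Q ⧸ (F ∙ v)) _ _ _ hex
    have e2 := hADD.1 F (Fin n → F) (Fin n → Q) (Fin n → Q ⧸ (F ∙ v)) _ _ _ (TWI_ex hex a)
    have ht1 : TWI_s φ (t • (LinearMap.id : F →ₗ[F] F)).charpoly = φ t := by
      have h1 : (t • (LinearMap.id : F →ₗ[F] F)) = 0 - (-t) • 1 := by
        refine LinearMap.ext fun x => ?_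
        show t * x = 0 - (-t) * x
        ring
      rw [h1, LinearMap.charpoly_sub_smul, LinearMap.charpoly_zero, Module.finrank_self, pow_one,
        TWI_s_comp φ hφ]
      unfold TWI_s
      rw [roots_X, Multiset.map_singleton, Multiset.sum_singleton, ← hφ, add_zero]
    have ht2 : TWI_s φ (tw (t • (LinearMap.id : F →ₗ[F] F)) a).charpoly =
        φ t * TWI_s φ (Matrix.toLin' a).charpoly := by
      have h1 : tw (t • (LinearMap.id : F →ₗ[F] F)) a = Matrix.toLin' a - (-t) • 1 := by
        refine LinearMap.ext fun q => ?_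
        funext i
        show t • q i + ∑ j, a i j • q j = (a.mulVec q) i - (-t) • q i
        rw [neg_smul, sub_neg_eq_add, add_comm]
        rfl
      rw [h1, LinearMap.charpoly_sub_smul, TWI_s_comp φ hφ]
    rw [e1, e2, TWI_s_mul φ (LinearMap.charpoly_monic _).ne_zero
      (LinearMap.charpoly_monic _).ne_zero, TWI_s_mul φ (LinearMap.charpoly_monic _).ne_zero
      (LinearMap.charpoly_monic _).ne_zero, ht1, ht2, ih _ _ hfr]
    ring

end closed

theorem thm_TWI (hADD : St_ADD) (_hSHF : St_SHF) (_hNON : St_NON) : St_TWI := by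
  intro K Q _ _ _ _ A n a
  have hch : ∀ {S : Type} [AddCommGroup S] [Module K S] [Module.Finite K S] (B : S →ₗ[K] S),
      ch B = TWI_s (fun a => (xp a : GR K))
        (B.charpoly.map (algebraMap K (AlgebraicClosure K))) := by
    intro S _ _ hS B
    unfold ch
    rw [dif_pos hS]
    rfl
  have hφ : ∀ s t : AlgebraicClosure K, (xp (s + t) : GR K) = xp s * xp t := by
    intro s t
    unfold xp
    rw [AddMonoidAlgebra.single_mul_single, mul_one]
  obtain ⟨M, hM⟩ : ∃ M, M = LinearMap.toMatrix (Module.finBasis K Q) (Module.finBasis K Q) A :=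
    ⟨_, rfl⟩
  have h1 : (tw A a).charpoly.map (algebraMap K (AlgebraicClosure K)) =
      (tw (Matrix.toLin' (M.map (algebraMap K (AlgebraicClosure K))))
        (a.map (algebraMap K (AlgebraicClosure K)))).charpoly := by
    rw [TWI_kron A a (Module.finBasis K Q), TWI_kron _ _ (Pi.basisFun _ _), ← hM,
      LinearMap.toMatrix_eq_toMatrix', LinearMap.toMatrix'_toLin', ← Matrix.charpoly_map]
    congr 1
    ext x y
    simp only [TWI_kr, Matrix.map_apply, Matrix.of_apply, map_add]
    congr 1
    · split_ifs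
      · rfl
      · exact map_zero _
    · split_ifs
      · rfl
      · exact map_zero _
  have h2 : A.charpoly.map (algebraMap K (AlgebraicClosure K)) =
      (Matrix.toLin' (M.map (algebraMap K (AlgebraicClosure K)))).charpoly := by
    rw [← LinearMap.charpoly_toMatrix A (Module.finBasis K Q), ← hM, ← Matrix.charpoly_map,
      ← LinearMap.charpoly_toMatrix _ (Pi.basisFun _ _), LinearMap.toMatrix_eq_toMatrix',
      LinearMap.toMatrix'_toLin']
  have h3 : (Matrix.toLin' a).charpoly.map (algebraMap K (AlgebraicClosure K)) =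
      (Matrix.toLin' (a.map (algebraMap K (AlgebraicClosure K)))).charpoly := by
    rw [← LinearMap.charpoly_toMatrix _ (Pi.basisFun _ _), LinearMap.toMatrix_eq_toMatrix',
      LinearMap.toMatrix'_toLin', ← Matrix.charpoly_map,
      ← LinearMap.charpoly_toMatrix _ (Pi.basisFun _ _), LinearMap.toMatrix_eq_toMatrix',
      LinearMap.toMatrix'_toLin']
  rw [hch (tw A a), hch A, hch (Matrix.toLin' a), h1, h2, h3]
  exact TWI_ac hADD _ hφ _ _ _ _ rfl

end Pool.Agent.ARS
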