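import Pool.Agent.ARS.StN

/-! # ARS, module WTR: the weights of `R / y` are natural numbers (MP_7dc157_al) -/

set_option autoImplicit false

namespace Pool.Agent.ARS

open IsLocalRing Polynomial

/-- `R / y R` with its scalar action of `K` is finite dimensional -/
private theorem WTR_fin {K R : Type} [Field K] [CommRing R] [IsLocalRing R]
    [Algebra K R] {D : Derivation K R R} {y : R} {m : ℕ} (h : QH K R D y m) :
    Module.Finite K ((NM.one D).red h.eig).X := by
  have hfin := h.fin
  let g : R →ₗ[R] R ⧸ (Ideal.span {y} • ⊤ : Submodule R R) := Submodule.mkQ _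
  have hg : ∀ a ∈ Ideal.span {y}, g a = 0 := by
    intro a ha
    rw [Submodule.mkQ_apply, Submodule.Quotient.mk_eq_zero]
    obtain ⟨c, rfl⟩ := Ideal.mem_span_singleton'.1 ha
    rw [Submodule.ideal_span_singleton_smul, Submodule.mem_smul_pointwise_iff_exists]
    exact ⟨c, trivial, by rw [smul_eq_mul, mul_comm]⟩
  let G : (R ⧸ Ideal.span {y}) →ₗ[R] R ⧸ (Ideal.span {y} • ⊤ : Submodule R R) :=
    Submodule.liftQ _ g (by intro a ha; exact hg a ha)
  have hG : Function.Surjective (G.restrictScalars K) := by
    intro q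
    obtain ⟨a, rfl⟩ := Submodule.mkQ_surjective _ q
    exact ⟨Submodule.Quotient.mk a, rfl⟩
  exact Module.Finite.of_surjective (G.restrictScalars K) hG

private theorem WTR_zero {K R : Type} [Field K] [CommRing R] [Algebra K R]
    {D : Derivation K R R} {y : R} {m : ℕ} (hy : D y = (m : R) * y) (a : R)
    (ha : a ∈ Ideal.span {y}) : (NM.one D).mod hy a = 0 := by
  have h1 : a ∈ (Ideal.span {y} • ⊤ : Submodule R R) := by
    obtain ⟨c, rfl⟩ := Ideal.mem_span_singleton'.1 ha
    rw [Submodule.ideal_span_singleton_smul, Submodule.mem_smul_pointwise_iff_exists]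
    exact ⟨c, trivial, by rw [smul_eq_mul, mul_comm]⟩
  exact (Submodule.Quotient.mk_eq_zero _).2 h1

private theorem WTR_aeval {K R : Type} [Field K] [CommRing R] [Algebra K R]
    {D : Derivation K R R} {y : R} {m : ℕ} (hy : D y = (m : R) * y) (q : K[X]) (a : R) :
    (aeval (((NM.one D).red hy).N : Module.End K _) q) ((NM.one D).mod hy a) =
      (NM.one D).mod hy ((aeval (D.toLinearMap : Module.End K R) q) a) := by
  have hN : ∀ b : R, ((NM.one D).red hy).N ((NM.one D).mod hy b) = (NM.one D).mod hy (D b) :=
    fun b => rfl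
  induction q using Polynomial.induction_on' with
  | add p q hp hq =>
    rw [map_add, LinearMap.add_apply, hp, hq, map_add, LinearMap.add_apply]
    exact (map_add ((NM.one D).mod hy) _ _).symm
  | monomial n c =>
    rw [aeval_monomial, aeval_monomial]
    have hpow : ∀ (n : ℕ) (b : R),
        ((((NM.one D).red hy).N : Module.End K _) ^ n) ((NM.one D).mod hy b) =
          (NM.one D).mod hy (((D.toLinearMap : Module.End K R) ^ n) b) := by
      intro n
      induction n with
      | zero => intro b; rfl
      | succ n ih =>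
        intro b
        rw [pow_succ, Module.End.mul_apply, hN, ih, pow_succ, Module.End.mul_apply]
        rfl
    rw [Module.End.mul_apply, Module.End.mul_apply, hpow]
    rw [Module.algebraMap_end_apply, Module.algebraMap_end_apply]
    rfl

theorem thm_WTR (hANN : St_ANN) (hNON : St_NON) : St_WTR := by
  intro K R _ _ _ _ _ _ D y m h ν hν
  have := WTR_fin h
  obtain ⟨n, hn⟩ := h.wt
  set P : K[X] := ∏ w ∈ Finset.Icc 1 n, (Polynomial.X - Polynomial.C (w : K)) with hP
  have hroot : aeval ν ((NM.one D).red h.eig).N.charpoly = 0 :=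
    ((hNON K ((NM.one D).red h.eig).X ((NM.one D).red h.eig).X ((NM.one D).red h.eig).N
      ((NM.one D).red h.eig).N).2.1 ν).1 hν
  have hann : aeval (((NM.one D).red h.eig).N : Module.End K _) (P * X) = 0 := by
    apply LinearMap.ext
    intro q
    obtain ⟨a, rfl⟩ : ∃ a : R, (NM.one D).mod h.eig a = q := Submodule.mkQ_surjective _ q
    rw [WTR_aeval, map_mul, aeval_X, Module.End.mul_apply, LinearMap.zero_apply]
    have hDa : D a ∈ maximalIdeal R := by
      obtain ⟨k, hk⟩ := h.res a
      have h1 := h.max _ hk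
      rwa [map_sub, D.map_algebraMap, sub_zero] at h1
    have h2 := hn _ hDa
    exact WTR_zero h.eig _ h2
  have h4 := hANN K ((NM.one D).red h.eig).X ((NM.one D).red h.eig).N (P * X) hann ν hroot
  rw [map_mul, aeval_X, hP, map_prod] at h4
  rcases mul_eq_zero.1 h4 with h5 | h5
  · obtain ⟨w, -, hw⟩ := Finset.prod_eq_zero_iff.1 h5
    refine ⟨w, ?_⟩
    rw [map_sub, aeval_X, aeval_C, map_natCast, sub_eq_zero] at hw
    exact hw
  · exact ⟨0, by rw [h5, Nat.cast_zero]⟩

end Pool.Agent.ARS
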