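import Pool.Agent.ARS.END
import Pool.Agent.ARS.FND
import Pool.Agent.ARS.Ext
import Pool.Agent.ARS.GRD
import Pool.Agent.ARS.ADD
import Pool.Agent.ARS.NON
import Pool.Agent.ARS.ANN
import Pool.Agent.ARS.SHF
import Pool.Agent.ARS.NEG
import Pool.Agent.ARS.TWI
import Pool.Agent.ARS.HOM
import Pool.Agent.ARS.ISO
import Pool.Agent.ARS.RFN
import Pool.Agent.ARS.REX
import Pool.Agent.ARS.POW
import Pool.Agent.ARS.GOR
import Pool.Agent.ARS.DUR
import Pool.Agent.ARS.COV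
import Pool.Agent.ARS.SUP
import Pool.Agent.ARS.HEX
import Pool.Agent.ARS.CHF
import Pool.Agent.ARS.HSUt
import Pool.Agent.ARS.STP
import Pool.Agent.ARS.ABS
import Pool.Agent.ARS.WTR
import Pool.Agent.ARS.PAL
import Pool.Agent.ARS.TR1
import Pool.Agent.ARS.TR2
import Pool.Agent.ARS.FINt
import Pool.Agent.ARS.CONN
import Pool.Agent.ARS.SGQ
import Pool.Agent.HWC.PkgOf
import Pool.Agent.HWG.Final

/-! ARS: the closed theorems. -/

set_option autoImplicit false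

namespace Pool.Agent.ARS

open IsLocalRing

theorem cl_ARQ : St_ARQ := by
  have hTWI : St_TWI := thm_TWI thm_ADD thm_SHF thm_NON
  have hHOM : St_HOM := thm_HOM hTWI thm_NEG thm_NON
  have hPOW : St_POW := thm_POW thm_ADD thm_NON hTWI
  have hGOR : St_GOR := thm_GOR thm_ADD thm_NON hHOM
  have hDUR : St_DUR := thm_DUR hGOR thm_ISO thm_RFN
  have hSUP : St_SUP := thm_SUP thm_ADD thm_NON thm_ANN hPOW thm_RFN thm_GRD
  have hCHF : St_CHF := thm_CHF hPOW thm_NEG thm_ISO thm_RFN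
  have hHSU : St_HSU := thm_HSUt hHOM thm_ADD thm_NON thm_GRD thm_RFN
  have hSTP : St_STP := thm_STP thm_ISO thm_RFN thm_REX thm_COV hSUP thm_HEX hCHF thm_ADD
  have hWTR : St_WTR := thm_WTR thm_ANN thm_NON
  have hABS : St_ABS := thm_ABS hSTP hHSU hWTR thm_GRD
  have hPAL : St_PAL := thm_PAL thm_GRD thm_NON thm_ISO thm_RFN
  have hTR2 : St_TR2 := thm_TR2 thm_TR1
  have hFIN : St_FIN := thm_FINt thm_ADD thm_SHF thm_NON thm_GRD thm_RFN
  exact thm_ARQ (thm_END thm_GRD thm_ISO thm_RFN hDUR hABS hPAL thm_TR1 hTR2 hFIN) thm_CON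
    thm_Ext thm_TF

/-- the ring `K[[G]]`: everything about it -/
theorem cl_pack (S : HWG.SG) (K : Type) [Field K] :
    ∃ (_ : IsLocalRing (S.R K)) (_ : IsNoetherianRing (S.R K)),
      (∀ x : S.R K, x ∈ maximalIdeal (S.R K) ↔ PowerSeries.coeff 0 (x : PowerSeries K) = 0) ∧
      HWC.GorOne (S.R K) ∧ HWC.Pkg (S.R K) := by
  obtain ⟨h1, h2, h3, h4⟩ := HWG.thm_Pack HWG.thm_Unit HWG.thm_Divide S K (HWG.thm_Gor S K)
  exact ⟨h1, HWG.thm_Noether HWG.thm_Unit HWG.thm_Divide S K, h2, h3, h4⟩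

theorem cl_ALL : St_ALL := by
  intro S K _ _
  obtain ⟨h1, h2, h3, h4, h5⟩ := cl_pack S K
  obtain ⟨_, D, y, m, h⟩ := thm_SGQ S K h3 h5
  exact cl_ARQ K (S.R K) D y m h

end Pool.Agent.ARS
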