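import Pool.Agent.ARS.StN

/-! [COV] Minimal covers with a connection. -/

set_option autoImplicit false

namespace Pool.Agent.ARS

open IsLocalRing

/-- a generating family of minimal length -/
private theorem cov_gen {R X : Type} [CommRing R] [IsLocalRing R] [AddCommGroup X] [Module R X]
    [Module.Finite R X] : ∃ (n : ℕ) (x : Fin n → X), Submodule.span R (Set.range x) = ⊤ ∧
      ∀ v : Fin n → R, ∑ i, v i • x i = 0 → ∀ i, v i ∈ maximalIdeal R := by
  classical
  have hex : ∃ n : ℕ, ∃ x : Fin n → X, Submodule.span R (Set.range x) = ⊤ :=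
    Module.Finite.exists_fin
  obtain ⟨x, hx⟩ := Nat.find_spec hex
  refine ⟨Nat.find hex, x, hx, fun v hv i => ?_⟩
  by_contra hi
  rw [mem_maximalIdeal, mem_nonunits_iff, not_not] at hi
  obtain ⟨u, hu⟩ := hi
  -- the length is positive
  obtain ⟨k, hk⟩ : ∃ k, Nat.find hex = k + 1 := by
    have h0 : Nat.find hex ≠ 0 := by
      intro h0
      have := i.2
      omega
    exact ⟨Nat.find hex - 1, by omega⟩
  have hlt : k < Nat.find hex := by omega
  refine Nat.find_min hex hlt ?_
  -- the family without `i`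
  let e : Fin (k + 1) ≃ Fin (Nat.find hex) := finCongr hk.symm
  let i' : Fin (k + 1) := e.symm i
  refine ⟨fun j => x (e (i'.succAbove j)), ?_⟩
  rw [eq_top_iff]
  refine le_trans (le_of_eq hx.symm) ?_
  rw [Submodule.span_le]
  have hother : ∀ l, l ≠ i → x l ∈ Submodule.span R (Set.range fun j => x (e (i'.succAbove j))) := by
    intro l hl
    have hl' : e.symm l ≠ i' := fun h => hl (e.symm.injective h)
    obtain ⟨j, hj⟩ := Fin.exists_succAbove_eq hl'
    refine Submodule.subset_span ⟨j, ?_⟩
    show x (e (i'.succAbove j)) = x l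
    rw [hj, Equiv.apply_symm_apply]
  rintro _ ⟨l, rfl⟩
  by_cases hl : l = i
  · subst hl
    have h1 : v l • x l = - ∑ j ∈ Finset.univ.erase l, v j • x j := by
      rw [eq_neg_iff_add_eq_zero, ← hv]
      exact Finset.add_sum_erase _ (fun j => v j • x j) (Finset.mem_univ l)
    have h2 : x l = (↑u⁻¹ : R) • (v l • x l) := by
      rw [smul_smul, ← hu, Units.inv_mul, one_smul]
    rw [h2, h1]
    refine Submodule.smul_mem _ _ (Submodule.neg_mem _ (Submodule.sum_mem _ fun j hj => ?_))
    exact Submodule.smul_mem _ _ (hother j (Finset.ne_of_mem_erase hj))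
  · exact hother l hl

theorem thm_COV : St_COV := by
  intro K R _ _ _ _ _ _ D y m h A hA
  obtain ⟨n, x, hx, hmin⟩ := cov_gen (R := R) (X := A.X)
  have hsp : ∀ z : A.X, ∃ c : Fin n → R, ∑ i, c i • x i = z := by
    intro z
    have hz : z ∈ Submodule.span R (Set.range x) := by rw [hx]; trivial
    exact (Submodule.mem_span_range_iff_exists_fun R).1 hz
  choose c hc using hsp
  choose k hk using h.res
  let p : (Fin n → R) →ₗ[R] A.X :=
    { toFun := fun v => ∑ i, v i • x i
      map_add' := fun v w => by simp only [Pi.add_apply, add_smul, Finset.sum_add_distrib]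
      map_smul' := fun r v => by
        simp only [Pi.smul_apply, smul_eq_mul, mul_smul, Finset.smul_sum, RingHom.id_apply] }
  refine ⟨n, fun i j => c (A.N (x j)) i, fun i j => k (c (A.N (x j)) i), p,
    fun z => ⟨c z, hc z⟩, ?_, fun v hv i => hmin v hv i, fun i j => hk _⟩
  intro v
  show ∑ i, (D (v i) + ∑ j, c (A.N (x j)) i • v j) • x i = A.N (∑ i, v i • x i)
  rw [map_sum]
  simp only [A.leib, add_smul, Finset.sum_add_distrib, Finset.sum_smul]
  congr 1
  rw [Finset.sum_comm]
  refine Finset.sum_congr rfl fun j _ => ?_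
  conv_rhs => rw [← hc (A.N (x j))]
  rw [Finset.smul_sum]
  refine Finset.sum_congr rfl fun i _ => ?_
  rw [smul_smul, smul_eq_mul, mul_comm]

end Pool.Agent.ARS
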