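import Pool.Agent.HWC.Defs

/-! helper11, for helper9's ARS. The Ext modules: statements. -/

set_option autoImplicit false

namespace Pool.Agent.ARS

open CategoryTheory CategoryTheory.Abelian

/-- maps from the kernel of a finite free cover of `X` to `M` extend -/
def ExtProp (R X M : Type) [CommRing R] [AddCommGroup X] [Module R X] [AddCommGroup M]
    [Module R M] : Prop :=
  ∀ (n : ℕ) (p : (Fin n → R) →ₗ[R] X), Function.Surjective p →
    ∀ ψ : LinearMap.ker p →ₗ[R] M, ∃ φ : (Fin n → R) →ₗ[R] M, ∀ k : LinearMap.ker p, φ k = ψ k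

/-- `Ext ^ i (X, M) = 0` for all `i ≥ 1` -/
def EV (R X M : Type) [CommRing R] [HasExt.{0} (ModuleCat.{0} R)] [AddCommGroup X] [Module R X]
    [AddCommGroup M] [Module R M] : Prop :=
  ∀ i : ℕ, 1 ≤ i → Subsingleton (Ext (ModuleCat.of R X) (ModuleCat.of R M) i)

/-- (E1) -/
def St_Ext : Prop := ∀ (R : Type) [CommRing R] [HasExt.{0} (ModuleCat.{0} R)]
  (X M : Type) [AddCommGroup X] [Module R X] [AddCommGroup M] [Module R M], EV R X M →
  ExtProp R X M ∧ ∀ (n : ℕ) (p : (Fin n → R) →ₗ[R] X), Function.Surjective p →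
    EV R (LinearMap.ker p) M

/-- (E2) -/
def St_TF : Prop := ∀ (R : Type) [CommRing R] [IsDomain R] [IsLocalRing R] [IsNoetherianRing R],
  HWC.Pkg R → ∀ (M : Type) [AddCommGroup M] [Module R M] [Module.Finite R M],
  ExtProp R M R → HWC.TF R M

/-- (E3) every extension of `X` by `M` splits -/
def St_Split : Prop := ∀ (R : Type) [CommRing R] (X M E : Type) [AddCommGroup X] [Module R X]
  [Module.Finite R X] [AddCommGroup M] [Module R M] [AddCommGroup E] [Module R E], ExtProp R X M →
  ∀ (j : M →ₗ[R] E) (q : E →ₗ[R] X), Function.Injective j → Function.Surjective q →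
    (∀ e, q e = 0 ↔ ∃ m, j m = e) → ∃ s : X →ₗ[R] E, ∀ x, q (s x) = x

end Pool.Agent.ARS
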