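import Pool.Agent.HWC.Defs
import Pool.Agent.HWG.Defs
import Pool.Agent.ARS.StE

/-! Definitions for (ARC) over quasi-homogeneous one-dimensional Gorenstein local domains
(MP_7dc157_al). -/

set_option autoImplicit false

namespace Pool.Agent.ARS

open IsLocalRing

/-! ### the group ring and characters of endomorphisms -/

/-- the group ring `ℤ[L]` of the additive group of an algebraic closure `L` of `K` -/
abbrev GR (K : Type) [Field K] : Type := AddMonoidAlgebra ℤ (AlgebraicClosure K)

/-- `x ^ a` -/
noncomputable def xp {K : Type} [Field K] (a : AlgebraicClosure K) : GR K :=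
  AddMonoidAlgebra.single a 1

/-- `x ↦ x⁻¹` -/
noncomputable def iv {K : Type} [Field K] : GR K →+* GR K :=
  AddMonoidAlgebra.mapDomainRingHom ℤ (negAddMonoidHom : AlgebraicClosure K →+ AlgebraicClosure K)

/-- the character of an endomorphism of a finite dimensional space: the sum of `x ^ a` over the
roots `a` of the characteristic polynomial in the algebraic closure -/
noncomputable def ch {K Q : Type} [Field K] [AddCommGroup Q] [Module K Q] (A : Q →ₗ[K] Q) :
    GR K := by
  classical
  exact if h : Module.Finite K Q then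
    ((A.charpoly.aroots (AlgebraicClosure K)).map fun a => xp a).sum else 0

/-- exact sequences of spaces with an endomorphism -/
def ExK {K A B C : Type} [Field K] [AddCommGroup A] [Module K A] [AddCommGroup B] [Module K B]
    [AddCommGroup C] [Module K C] (a : A →ₗ[K] A) (b : B →ₗ[K] B) (c : C →ₗ[K] C) : Prop :=
  ∃ (f : A →ₗ[K] B) (g : B →ₗ[K] C), Function.Injective f ∧ Function.Surjective g ∧
    (∀ v, g v = 0 ↔ ∃ u, f u = v) ∧ (∀ u, f (a u) = b (f u)) ∧ ∀ v, g (b v) = c (g v)

/-- the operator `q ↦ (i ↦ A q_i + ∑ j, a i j • q_j)` -/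
def tw {K Q : Type} [Field K] [AddCommGroup Q] [Module K Q] (A : Q →ₗ[K] Q) {n : ℕ}
    (a : Matrix (Fin n) (Fin n) K) : (Fin n → Q) →ₗ[K] (Fin n → Q) where
  toFun q i := A (q i) + ∑ j, a i j • q j
  map_add' p q := by
    funext i
    simp only [Pi.add_apply, map_add, smul_add, Finset.sum_add_distrib]
    abel
  map_smul' c q := by
    funext i
    simp only [Pi.smul_apply, map_smul, RingHom.id_apply, smul_add, Finset.smul_sum]
    congr 1
    refine Finset.sum_congr rfl fun j _ => smul_comm _ _ _

/-! ### modules with a connection -/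

/-- an `R`-module with a connection along the derivation `D` -/
structure NM {K R : Type} [Field K] [CommRing R] [Algebra K R] (D : Derivation K R R) where
  X : Type
  [ia : AddCommGroup X]
  [ik : Module K X]
  [ir : Module R X]
  [it : IsScalarTower K R X]
  N : X →ₗ[K] X
  leib : ∀ (r : R) (x : X), N (r • x) = D r • x + r • N x

attribute [instance] NM.ia NM.ik NM.ir NM.it

variable {K R : Type} [Field K] [CommRing R] [Algebra K R] {D : Derivation K R R}

/-- the ring -/
def NM.one (D : Derivation K R R) : NM D where
  X := R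
  N := D.toLinearMap
  leib r x := by
    show D (r * x) = D r * x + r * D x
    rw [D.leibniz]
    simp only [smul_eq_mul]
    ring

/-- submodules stable under the connection -/
def NM.sub (A : NM D) (P : Submodule R A.X) (h : ∀ x ∈ P, A.N x ∈ P) : NM D where
  X := P
  N := (A.N.comp (P.subtype.restrictScalars K)).codRestrict (P.restrictScalars K)
    fun x => h x x.2
  leib r x := Subtype.ext (A.leib r x)

/-- quotient modules -/
def NM.quo (A : NM D) (P : Submodule R A.X) (h : ∀ x ∈ P, A.N x ∈ P) : NM D where
  X := A.X ⧸ P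
  N := 
    { toFun := QuotientAddGroup.map P.toAddSubgroup P.toAddSubgroup A.N.toAddMonoidHom
        fun x hx => h x hx
      map_add' := map_add _
      map_smul' := by
        intro c x
        obtain ⟨x, rfl⟩ := P.mkQ_surjective x
        show P.mkQ (A.N (c • x)) = c • P.mkQ (A.N x)
        rw [map_smul]
        rfl }
  leib r x := by
    obtain ⟨x, rfl⟩ := P.mkQ_surjective x
    show P.mkQ (A.N (r • x)) = D r • P.mkQ x + r • P.mkQ (A.N x)
    rw [A.leib, map_add, map_smul, map_smul]

/-- linear maps -/
def NM.hom (A B : NM D) : NM D where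
  X := A.X →ₗ[R] B.X
  N := 
    { toFun := fun f => 
        { toFun := fun x => B.N (f x) - f (A.N x)
          map_add' := fun x y => by simp only [map_add]; abel
          map_smul' := fun r x => by
            simp only [map_smul, A.leib, B.leib, map_add, RingHom.id_apply, smul_sub]
            abel }
      map_add' := fun f g => by
        ext x
        show B.N (f x + g x) - (f (A.N x) + g (A.N x)) = 
          (B.N (f x) - f (A.N x)) + (B.N (g x) - g (A.N x))
        rw [map_add]
        abel
      map_smul' := fun c f => by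
        ext x
        show B.N (c • f x) - c • f (A.N x) = c • (B.N (f x) - f (A.N x))
        rw [map_smul, smul_sub] }
  leib r f := by
    ext x
    show B.N (r • f x) - r • f (A.N x) = D r • f x + r • (B.N (f x) - f (A.N x))
    rw [B.leib, smul_sub]
    abel

/-- powers, with a twisted connection -/
def NM.pow (A : NM D) {n : ℕ} (a : Matrix (Fin n) (Fin n) R) : NM D where
  X := Fin n → A.X
  N := 
    { toFun := fun q i => A.N (q i) + ∑ j, a i j • q j
      map_add' := fun p q => by
        funext i
        simp only [Pi.add_apply, map_add, smul_add, Finset.sum_add_distrib]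
        abel
      map_smul' := fun c q => by
        funext i
        simp only [Pi.smul_apply, map_smul, RingHom.id_apply, smul_add, Finset.smul_sum]
        congr 1
        refine Finset.sum_congr rfl fun j _ => smul_comm _ _ _ }
  leib r q := by
    funext i
    show A.N (r • q i) + ∑ j, a i j • r • q j = D r • q i + r • (A.N (q i) + ∑ j, a i j • q j)
    rw [A.leib, smul_add, Finset.smul_sum, add_assoc]
    congr 2
    refine Finset.sum_congr rfl fun j _ => smul_comm _ _ _

/-- exact sequences of modules with a connection -/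
def Ex (A B C : NM D) : Prop :=
  ∃ (f : A.X →ₗ[R] B.X) (g : B.X →ₗ[R] C.X), Function.Injective f ∧ Function.Surjective g ∧
    (∀ v, g v = 0 ↔ ∃ u, f u = v) ∧ (∀ u, f (A.N u) = B.N (f u)) ∧ ∀ v, g (B.N v) = C.N (g v)

/-- isomorphisms -/
def Iso (A B : NM D) : Prop := ∃ e : A.X ≃ₗ[R] B.X, ∀ u, e (A.N u) = B.N (e u)

/-- `y • X` is stable if `D y` is a multiple of `y` -/
theorem stable_y (A : NM D) {y : R} {m : ℕ} (hy : D y = (m : R) * y) :
    ∀ x ∈ (Ideal.span {y} • ⊤ : Submodule R A.X), A.N x ∈ (Ideal.span {y} • ⊤ : Submodule R A.X) := by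
  intro x hx
  rw [Submodule.ideal_span_singleton_smul, Submodule.mem_smul_pointwise_iff_exists] at hx ⊢
  obtain ⟨w, _, rfl⟩ := hx
  refine ⟨(m : R) • w + A.N w, trivial, ?_⟩
  rw [A.leib, hy, smul_add, mul_comm, mul_smul]

/-- the reduction `X / y X` -/
def NM.red (A : NM D) {y : R} {m : ℕ} (hy : D y = (m : R) * y) : NM D :=
  A.quo (Ideal.span {y} • ⊤) (stable_y A hy)

/-- the reduction of an element -/
def NM.mod (A : NM D) {y : R} {m : ℕ} (hy : D y = (m : R) * y) : A.X →ₗ[R] (A.red hy).X :=
  (Ideal.span {y} • ⊤ : Submodule R A.X).mkQ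

/-- the character of a module with a connection (meaningful for finite dimensional modules) -/
noncomputable def NM.ch (A : NM D) : GR K := ARS.ch A.N

/-- a quasi-homogeneous one-dimensional Gorenstein local domain: `K` is the residue field, `D` a
derivation, `y` an eigenvector in the maximal ideal; the eigenvalues of `D` on `max / (y)` are
positive integers -/
structure QH (K R : Type) [Field K] [CommRing R] [IsLocalRing R] [Algebra K R]
    (D : Derivation K R R) (y : R) (m : ℕ) : Prop where
  pkg : HWC.Pkg R
  max : ∀ a ∈ maximalIdeal R, D a ∈ maximalIdeal R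
  res : ∀ a : R, ∃ k : K, a - algebraMap K R k ∈ maximalIdeal R
  mem : y ∈ maximalIdeal R
  ne : y ≠ 0
  pos : 0 < m
  eig : D y = (m : R) * y
  fin : Module.Finite K (R ⧸ Ideal.span {y})
  wt : ∃ n : ℕ, ∀ a ∈ maximalIdeal R,
    (Polynomial.aeval (D.toLinearMap : Module.End K R)
      (∏ w ∈ Finset.Icc 1 n, (Polynomial.X - Polynomial.C (w : K)))) a ∈ Ideal.span {y}

/-- `ExtProp` for `X` and all its syzygies, up to order `k` -/
def ExtAll (R M : Type) [CommRing R] [AddCommGroup M] [Module R M] :
    ℕ → ∀ (X : Type) [AddCommGroup X] [Module R X], Prop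
  | 0, _, _, _ => True
  | k + 1, X, _, _ => ExtProp R X M ∧ ∀ (n : ℕ) (p : (Fin n → R) →ₗ[R] X),
      Function.Surjective p → ExtAll R M k (LinearMap.ker p)

/-- (ARC), in the words of the frozen statement S02051 -/
def ARC (R : Type) [CommRing R] : Prop :=
  ∀ [CategoryTheory.HasExt.{0} (ModuleCat.{0} R)],
    ∀ (M : Type) [AddCommGroup M] [Module R M] [Module.Finite R M],
      (∀ i : ℕ, 1 ≤ i →
        Subsingleton (CategoryTheory.Abelian.Ext (ModuleCat.of R M) (ModuleCat.of R M) i) ∧
        Subsingleton (CategoryTheory.Abelian.Ext (ModuleCat.of R M) (ModuleCat.of R R) i)) →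
      Module.Free R M

end Pool.Agent.ARS
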