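import Pool.Agent.ARS.StN

/-!
# ARS: module FIN, equal characters imply equality of submodules
-/

set_option autoImplicit false

namespace Pool.Agent.ARS

open IsLocalRing

private theorem FIN_fg {K X Y : Type} [Field K] [AddCommGroup X] [Module K X] [AddCommGroup Y]
    [Module K Y] (f : X →ₗ[K] Y) (hf : Function.Surjective f) (hfin : Module.Finite K Y) :
    ∃ V : Submodule K X, V.FG ∧ ∀ x, ∃ v ∈ V, f v = f x := by
  obtain ⟨s, hs⟩ := hfin.fg_top
  refine ⟨Submodule.span K (Function.surjInv hf '' (s : Set Y)),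
    Submodule.fg_span (s.finite_toSet.image _), ?_⟩
  intro x
  have h1 : f x ∈ Submodule.map f (Submodule.span K (Function.surjInv hf '' (s : Set Y))) := by
    rw [Submodule.map_span, ← Set.image_comp]
    have h2 : (f ∘ Function.surjInv hf) '' (s : Set Y) = (s : Set Y) := by
      have h3 : (f ∘ Function.surjInv hf) = id := funext fun y => Function.surjInv_eq hf y
      rw [h3, Set.image_id]
    rw [h2, hs]
    trivial
  obtain ⟨v, hv, h2⟩ := h1
  exact ⟨v, hv, h2⟩

private theorem FIN_pow {K X : Type} [Field K] [AddCommGroup X] [Module K X]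
    (μ : X →ₗ[K] X) (V : Submodule K X) (hV : V.FG) (h : ∀ x, ∃ v ∈ V, ∃ w, x = v + μ w) (j : ℕ) :
    ∃ W : Submodule K X, W.FG ∧ ∀ x, ∃ v ∈ W, ∃ w, x = v + (μ ^ j) w := by
  induction j with
  | zero => exact ⟨⊥, Submodule.fg_bot, fun x => ⟨0, zero_mem _, x, by simp⟩⟩
  | succ j ih =>
    obtain ⟨W, hW, hw⟩ := ih
    refine ⟨W ⊔ V.map (μ ^ j), hW.sup (hV.map _), ?_⟩
    intro x
    obtain ⟨v, hv, w, rfl⟩ := hw x
    obtain ⟨v', hv', w', rfl⟩ := h w
    refine ⟨v + (μ ^ j) v', add_mem (Submodule.mem_sup_left hv)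
      (Submodule.mem_sup_right ⟨v', hv', rfl⟩), w', ?_⟩
    rw [map_add, ← add_assoc, pow_succ]
    rfl

private theorem FIN_top {K X Y : Type} [Field K] [AddCommGroup X] [Module K X] [AddCommGroup Y]
    [Module K Y] (q : X →ₗ[K] Y) (hq : Function.Surjective q) (W : Submodule K X) (hW : W.FG)
    (h : ∀ x, ∃ v ∈ W, q x = q v) : Module.Finite K Y := by
  refine ⟨?_⟩
  have h1 : (⊤ : Submodule K Y) = W.map q := by
    symm
    rw [eq_top_iff]
    intro y _
    obtain ⟨x, rfl⟩ := hq y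
    obtain ⟨v, hv, h2⟩ := h x
    exact ⟨v, hv, h2.symm⟩
  rw [h1]
  exact hW.map q

variable {K R : Type} [Field K] [CommRing R] [Algebra K R] {D : Derivation K R R}

private theorem FIN_mem (E : NM D) (T : Submodule R E.X) (y : R) (x : E.X) :
    x ∈ (Ideal.span {y} • T : Submodule R E.X) ↔ ∃ t ∈ T, y • t = x := by
  rw [Submodule.ideal_span_singleton_smul, Submodule.mem_smul_pointwise_iff_exists]

private theorem FIN_stab (E : NM D) {y : R} {m : ℕ} (hy : D y = (m : R) * y)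
    (T : Submodule R E.X) (hT : ∀ x ∈ T, E.N x ∈ T) :
    ∀ x ∈ (Ideal.span {y} • T : Submodule R E.X), E.N x ∈ (Ideal.span {y} • T : Submodule R E.X) := by
  intro x hx
  rw [FIN_mem] at hx ⊢
  obtain ⟨w, hw, rfl⟩ := hx
  refine ⟨(m : R) • w + E.N w, add_mem (T.smul_mem _ hw) (hT w hw), ?_⟩
  rw [E.leib, hy, smul_add, mul_comm, mul_smul]

private theorem FIN_le (E : NM D) (T : Submodule R E.X) (y : R) :
    (Ideal.span {y} • T : Submodule R E.X) ≤ T := Submodule.smul_le_right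

/-- `T / y T → E / y T → E / T` -/
private theorem FIN_ex1 (E : NM D) {y : R} {m : ℕ} (hy : D y = (m : R) * y)
    (T : Submodule R E.X) (hT : ∀ x ∈ T, E.N x ∈ T) :
    ExK ((E.sub T hT).red hy).N (E.quo _ (FIN_stab E hy T hT)).N (E.quo T hT).N := by
  let P : Submodule R E.X := Ideal.span {y} • T
  let P' : Submodule R T := Ideal.span {y} • ⊤
  have hPT : P ≤ T := FIN_le E T y
  have hmem' : ∀ t : T, t ∈ P' ↔ ∃ t' : T, y • t' = t := by
    intro t
    show t ∈ (Ideal.span {y} • ⊤ : Submodule R T) ↔ _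
    rw [Submodule.ideal_span_singleton_smul, Submodule.mem_smul_pointwise_iff_exists]
    simp
  have hcomap : P' ≤ P.comap T.subtype := by
    intro t ht
    obtain ⟨t', rfl⟩ := (hmem' t).1 ht
    exact (FIN_mem E T y _).2 ⟨t', t'.2, rfl⟩
  let f : (T ⧸ P') →ₗ[R] (E.X ⧸ P) := P'.mapQ P T.subtype hcomap
  let g : (E.X ⧸ P) →ₗ[R] (E.X ⧸ T) := P.mapQ T LinearMap.id hPT
  refine ⟨f.restrictScalars K, g.restrictScalars K, ?_, ?_, ?_, ?_, ?_⟩
  · intro a b hab
    obtain ⟨a, rfl⟩ := P'.mkQ_surjective a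
    obtain ⟨b, rfl⟩ := P'.mkQ_surjective b
    have h1 : P.mkQ (T.subtype a) = P.mkQ (T.subtype b) := hab
    have h2 : (a : E.X) - b ∈ P := (Submodule.Quotient.eq P).1 h1
    obtain ⟨t, ht, h3⟩ := (FIN_mem E T y _).1 h2
    have h4 : a - b ∈ P' := (hmem' _).2 ⟨⟨t, ht⟩, Subtype.ext h3⟩
    exact (Submodule.Quotient.eq P').2 h4
  · intro b
    obtain ⟨b, rfl⟩ := T.mkQ_surjective b
    exact ⟨P.mkQ b, rfl⟩
  · intro b
    obtain ⟨b, rfl⟩ := P.mkQ_surjective b
    constructor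
    · intro h
      have h1 : T.mkQ b = 0 := h
      have h2 : b ∈ T := (Submodule.Quotient.mk_eq_zero T).1 h1
      exact ⟨P'.mkQ ⟨b, h2⟩, rfl⟩
    · rintro ⟨u, hu⟩
      obtain ⟨u, rfl⟩ := P'.mkQ_surjective u
      have h1 : P.mkQ (T.subtype u) = P.mkQ b := hu
      have h2 : (u : E.X) - b ∈ P := (Submodule.Quotient.eq P).1 h1
      have h3 : b ∈ T := by
        have h4 := T.sub_mem u.2 (hPT h2)
        rwa [sub_sub_cancel] at h4
      exact (Submodule.Quotient.mk_eq_zero T).2 h3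
  · intro u
    obtain ⟨u, rfl⟩ := P'.mkQ_surjective u
    rfl
  · intro u
    obtain ⟨u, rfl⟩ := P.mkQ_surjective u
    rfl

/-- multiplication by `y` -/
private def FIN_mul (E : NM D) (y : R) : E.X →ₗ[R] E.X where
  toFun x := y • x
  map_add' := smul_add y
  map_smul' r x := smul_comm y r x

/-- `E / T → E / y T → E / y E` -/
private theorem FIN_ex2 (E : NM D) {y : R} {m : ℕ} (hy : D y = (m : R) * y)
    (hreg : ∀ x : E.X, y • x = 0 → x = 0)
    (T : Submodule R E.X) (hT : ∀ x ∈ T, E.N x ∈ T) :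
    ExK ((E.quo T hT).N + (m : K) • LinearMap.id) (E.quo _ (FIN_stab E hy T hT)).N
      (E.red hy).N := by
  let P : Submodule R E.X := Ideal.span {y} • T
  let Q : Submodule R E.X := Ideal.span {y} • ⊤
  have hPQ : P ≤ Q := by
    intro x hx
    obtain ⟨t, _, h⟩ := (FIN_mem E T y x).1 hx
    exact (FIN_mem E ⊤ y x).2 ⟨t, trivial, h⟩
  have hcomap : T ≤ P.comap (FIN_mul E y) := by
    intro t ht
    exact (FIN_mem E T y _).2 ⟨t, ht, rfl⟩
  let f : (E.X ⧸ T) →ₗ[R] (E.X ⧸ P) := T.mapQ P (FIN_mul E y) hcomap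
  let g : (E.X ⧸ P) →ₗ[R] (E.X ⧸ Q) := P.mapQ Q LinearMap.id hPQ
  have key : ∀ v, f (T.mkQ v) = P.mkQ (y • v) := fun v => rfl
  refine ⟨f.restrictScalars K, g.restrictScalars K, ?_, ?_, ?_, ?_, ?_⟩
  · intro a b hab
    obtain ⟨a, rfl⟩ := T.mkQ_surjective a
    obtain ⟨b, rfl⟩ := T.mkQ_surjective b
    have h1 : P.mkQ (y • a) = P.mkQ (y • b) := hab
    have h2 : y • a - y • b ∈ P := (Submodule.Quotient.eq P).1 h1
    obtain ⟨t, ht, h3⟩ := (FIN_mem E T y _).1 h2
    have h4 : a - b - t = 0 := by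
      apply hreg
      rw [smul_sub, smul_sub, ← h3, sub_self]
    have h5 : a - b ∈ T := by
      rw [sub_eq_zero.1 h4]
      exact ht
    exact (Submodule.Quotient.eq T).2 h5
  · intro b
    obtain ⟨b, rfl⟩ := Q.mkQ_surjective b
    exact ⟨P.mkQ b, rfl⟩
  · intro b
    obtain ⟨b, rfl⟩ := P.mkQ_surjective b
    constructor
    · intro h
      have h1 : Q.mkQ b = 0 := h
      have h2 : b ∈ Q := (Submodule.Quotient.mk_eq_zero Q).1 h1
      obtain ⟨t, _, rfl⟩ := (FIN_mem E ⊤ y _).1 h2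
      exact ⟨T.mkQ t, rfl⟩
    · rintro ⟨u, hu⟩
      obtain ⟨u, rfl⟩ := T.mkQ_surjective u
      have h1 : P.mkQ (y • u) = P.mkQ b := hu
      have h2 : y • u - b ∈ P := (Submodule.Quotient.eq P).1 h1
      have h3 : b ∈ Q := by
        have h4 := Q.sub_mem ((FIN_mem E ⊤ y _).2 ⟨u, trivial, rfl⟩) (hPQ h2)
        rwa [sub_sub_cancel] at h4
      exact (Submodule.Quotient.mk_eq_zero Q).2 h3
  · intro u
    obtain ⟨u, rfl⟩ := T.mkQ_surjective u
    show P.mkQ (y • (E.N u + (m : K) • u)) = P.mkQ (E.N (y • u))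
    congr 1
    rw [E.leib, hy, smul_add, add_comm]
    congr 1
    rw [mul_smul, smul_comm ((m : R)) y u]
    congr 1
    rw [Nat.cast_smul_eq_nsmul, Nat.cast_smul_eq_nsmul]
  · intro u
    obtain ⟨u, rfl⟩ := P.mkQ_surjective u
    have e1 : (E.quo _ (FIN_stab E hy T hT)).N (P.mkQ u) = P.mkQ (E.N u) := rfl
    have e2 : (E.red hy).N (Q.mkQ u) = Q.mkQ (E.N u) := rfl
    have e3 : ∀ v, g (P.mkQ v) = Q.mkQ v := fun v => rfl
    exact (congrArg g e1).trans ((e3 (E.N u)).trans e2.symm)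

theorem thm_FIN (hADD : St_ADD) (hSHF : St_SHF) (hNON : St_NON) (hGRD : St_GRD)
    (hRFN : St_RFN) : St_FIN := by
  intro K R _ _ _ _ _ _ _ D y m h E hE hTF T hT hj hch
  obtain ⟨j, hj⟩ := hj
  have hy := h.eig
  have hreg : ∀ x : E.X, y • x = 0 → x = 0 := fun x hx => (hTF y x hx).resolve_left h.ne
  -- finiteness
  have hTfin : Module.Finite R (E.sub T hT).X := by
    have : IsNoetherian R E.X := isNoetherian_of_isNoetherianRing_of_finite R E.X
    have h2 : IsNoetherian R T := inferInstance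
    exact (inferInstance : Module.Finite R T)
  have fin1 : Module.Finite K ((E.sub T hT).red h.eig).X :=
    (hRFN K R D y m h (E.sub T hT) E).1 hTfin
  have fin2 : Module.Finite K (E.red h.eig).X := (hRFN K R D y m h E E).1 hE
  have fin3 : Module.Finite K (E.quo T hT).X := by
    let Q : Submodule R E.X := Ideal.span {y} • ⊤
    obtain ⟨V, hV, hV'⟩ := FIN_fg (K := K) (Q.mkQ.restrictScalars K) Q.mkQ_surjective fin2
    let μ : E.X →ₗ[K] E.X := (LinearMap.lsmul R E.X y).restrictScalars K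
    have hμ : ∀ x, μ x = y • x := fun x => rfl
    have hμj : ∀ (i : ℕ) x, (μ ^ i) x = y ^ i • x := by
      intro i
      induction i with
      | zero => intro x; simp
      | succ i ih =>
        intro x
        rw [pow_succ, Module.End.mul_apply, ih, hμ, smul_smul, ← pow_succ]
    obtain ⟨W, hW, hW'⟩ := FIN_pow μ V hV (by
      intro x
      obtain ⟨v, hv, h1⟩ := hV' x
      have h2 : Q.mkQ x = Q.mkQ v := h1.symm
      have h3 : x - v ∈ Q := (Submodule.Quotient.eq Q).1 h2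
      obtain ⟨t, _, h4⟩ := (FIN_mem E ⊤ y _).1 h3
      refine ⟨v, hv, t, ?_⟩
      rw [hμ, h4]
      abel) j
    refine FIN_top (K := K) (T.mkQ.restrictScalars K) T.mkQ_surjective W hW ?_
    intro x
    obtain ⟨v, hv, w, rfl⟩ := hW' x
    refine ⟨v, hv, ?_⟩
    show T.mkQ (v + (μ ^ j) w) = T.mkQ v
    have h1 : (μ ^ j) w ∈ T := by
      rw [hμj]
      exact hj w
    rw [map_add, (Submodule.Quotient.mk_eq_zero T).2 h1 |> fun e => (e : T.mkQ ((μ ^ j) w) = 0),
      add_zero]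
  have ex1 := FIN_ex1 E hy T hT
  have ex2 := FIN_ex2 E hy hreg T hT
  have fin4 : Module.Finite K (E.quo _ (FIN_stab E hy T hT)).X :=
    (hADD.2 _ _ _ _ _ _ _ ex1).2 fin1 fin3
  have c1 := ((hADD.2 _ _ _ _ _ _ _ ex1).1 fin4).2.2
  have c2 := ((hADD.2 _ _ _ _ _ _ _ ex2).1 fin4).2.2
  have c3 := hSHF K (E.quo T hT).X (E.quo T hT).N (m : K)
  have c4 : ch ((E.sub T hT).red h.eig).N = ch (E.red h.eig).N := hch
  obtain ⟨g1, -, -, -, -, g6, -⟩ := hGRD K
  have c5 : (1 - xp (algebraMap K (AlgebraicClosure K) (m : K))) * ch (E.quo T hT).N = 0 := by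
    rw [c3] at c2
    rw [c1, c4] at c2
    linear_combination c2
  rcases g1 _ _ c5 with h1 | h1
  · exfalso
    have h2 : (xp (0 : AlgebraicClosure K) : GR K) =
        xp (algebraMap K (AlgebraicClosure K) (m : K)) := by
      rw [g6]
      exact sub_eq_zero.1 h1
    have h3 : (0 : AlgebraicClosure K) = algebraMap K (AlgebraicClosure K) (m : K) :=
      AddMonoidAlgebra.single_left_injective (one_ne_zero : (1 : ℤ) ≠ 0) h2
    have h4 : (m : K) = 0 := by
      apply (algebraMap K (AlgebraicClosure K)).injective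
      rw [map_zero]
      exact h3.symm
    exact h.pos.ne' (Nat.cast_eq_zero.1 h4)
  · have h2 : Subsingleton (E.quo T hT).X :=
      (hNON K (E.quo T hT).X (E.quo T hT).X (E.quo T hT).N (E.quo T hT).N).2.2.1 h1
    have h3 : Subsingleton (E.X ⧸ T) := h2
    rw [eq_top_iff]
    intro x _
    exact (Submodule.Quotient.mk_eq_zero T).1 (Subsingleton.elim (T.mkQ x) 0)

end Pool.Agent.ARS
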