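import Pool.Agent.ARS.StN

/-!
# ARS : module HSU, weights of the reduction of `Hom(A, M)`
-/

set_option autoImplicit false

namespace Pool.Agent.ARS

open IsLocalRing

section HSU

/-- the coefficients of the character of a stable subspace -/
private theorem HSU_le (hADD : St_ADD) (hNON : St_NON) (hGRD : St_GRD) (K X Y : Type) [Field K]
    [CharZero K] [AddCommGroup X] [Module K X] [AddCommGroup Y] [Module K Y] [Module.Finite K Y]
    (a : X →ₗ[K] X) (b : Y →ₗ[K] Y) (f : X →ₗ[K] Y) (hf : Function.Injective f)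
    (hab : ∀ u, f (a u) = b (f u)) (ν : AlgebraicClosure K) :
    cf (ch a) ν ≤ cf (ch b) ν := by
  have hle : LinearMap.range f ≤ (LinearMap.range f).comap b := by
    rintro _ ⟨u, rfl⟩
    exact ⟨a u, hab u⟩
  have hex : ExK a b ((LinearMap.range f).mapQ (LinearMap.range f) b hle) := by
    refine ⟨f, (LinearMap.range f).mkQ, hf, (LinearMap.range f).mkQ_surjective, fun v => ?_, hab,
      fun v => ?_⟩
    · rw [Submodule.mkQ_apply, Submodule.Quotient.mk_eq_zero]
      exact Iff.rfl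
    · rfl
  have h1 := (hADD.2 K X Y (Y ⧸ LinearMap.range f) a b _ hex).1 inferInstance
  have h2 := (hNON K (Y ⧸ LinearMap.range f) Y
    ((LinearMap.range f).mapQ (LinearMap.range f) b hle) b).1 ν
  have h3 := (hGRD K).2.2.2.2.2.2.2.2.1 (ch a)
    (ch ((LinearMap.range f).mapQ (LinearMap.range f) b hle)) ν
  rw [h1.2.2, h3]
  linarith

variable {K R : Type} [Field K] [CommRing R] [Algebra K R] {D : Derivation K R R}

/-- a linear map gives a map of the reductions -/
private theorem HSU_comap (A M : NM D) (y : R) (φ : A.X →ₗ[R] M.X) :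
    (Ideal.span {y} • ⊤ : Submodule R A.X) ≤
      (Ideal.span {y} • ⊤ : Submodule R M.X).comap φ := by
  intro x hx
  rw [Submodule.ideal_span_singleton_smul, Submodule.mem_smul_pointwise_iff_exists] at hx
  obtain ⟨w, _, rfl⟩ := hx
  rw [Submodule.mem_comap, map_smul, Submodule.ideal_span_singleton_smul,
    Submodule.mem_smul_pointwise_iff_exists]
  exact ⟨φ w, trivial, rfl⟩

/-- the map of the reductions, as a function of the map -/
private def HSU_map (A M : NM D) {y : R} {m : ℕ} (hy : D y = (m : R) * y) :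
    (A.X →ₗ[R] M.X) →ₗ[R] ((A.red hy).X →ₗ[R] (M.red hy).X) where
  toFun φ := (Ideal.span {y} • ⊤ : Submodule R A.X).mapQ (Ideal.span {y} • ⊤ : Submodule R M.X) φ
    (HSU_comap A M y φ)
  map_add' φ ψ := by
    apply LinearMap.ext
    intro x
    obtain ⟨x, rfl⟩ := (Ideal.span {y} • ⊤ : Submodule R A.X).mkQ_surjective x
    rfl
  map_smul' r φ := by
    apply LinearMap.ext
    intro x
    obtain ⟨x, rfl⟩ := (Ideal.span {y} • ⊤ : Submodule R A.X).mkQ_surjective x
    rfl

private theorem HSU_map_mk (A M : NM D) {y : R} {m : ℕ} (hy : D y = (m : R) * y)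
    (φ : A.X →ₗ[R] M.X) (x : A.X) :
    HSU_map A M hy φ (A.mod hy x) = M.mod hy (φ x) := rfl

private theorem HSU_ker (A M : NM D) {y : R} {m : ℕ} (hy : D y = (m : R) * y)
    (hM : ∀ x : M.X, y • x = 0 → x = 0) (φ : A.X →ₗ[R] M.X) :
    HSU_map A M hy φ = 0 ↔ φ ∈ (Ideal.span {y} • ⊤ : Submodule R (A.X →ₗ[R] M.X)) := by
  rw [Submodule.ideal_span_singleton_smul, Submodule.mem_smul_pointwise_iff_exists]
  have hz : ∀ x : M.X, M.mod hy x = 0 ↔ ∃ w : M.X, y • w = x := by
    intro x
    refine (Submodule.Quotient.mk_eq_zero (Ideal.span {y} • ⊤ : Submodule R M.X)).trans ?_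
    rw [Submodule.ideal_span_singleton_smul, Submodule.mem_smul_pointwise_iff_exists]
    exact ⟨fun ⟨w, _, hw⟩ => ⟨w, hw⟩, fun ⟨w, hw⟩ => ⟨w, trivial, hw⟩⟩
  have hinj : ∀ u v : M.X, y • u = y • v → u = v := by
    intro u v huv
    rw [← sub_eq_zero, ← smul_sub] at huv
    exact sub_eq_zero.1 (hM _ huv)
  constructor
  · intro h
    have h1 : ∀ x : A.X, ∃ w : M.X, y • w = φ x := fun x =>
      (hz (φ x)).1 (by
        rw [← HSU_map_mk A M hy φ x, h]
        rfl)
    choose ψ hψ using h1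
    refine ⟨{ toFun := ψ, map_add' := fun u v => ?_, map_smul' := fun r u => ?_ }, trivial, ?_⟩
    · apply hinj
      rw [smul_add, hψ, hψ, hψ, map_add]
    · apply hinj
      rw [hψ, RingHom.id_apply, smul_comm, hψ, map_smul]
    · apply LinearMap.ext
      intro x
      exact hψ x
  · rintro ⟨ψ, _, rfl⟩
    apply LinearMap.ext
    intro x
    obtain ⟨x, rfl⟩ := (Ideal.span {y} • ⊤ : Submodule R A.X).mkQ_surjective x
    exact (hz _).2 ⟨ψ x, rfl⟩

end HSU

/-- [HSU] Weights of `Hom(A, M) / y`. -/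
theorem thm_HSU (hHOM : St_HOM) (hADD : St_ADD) (hNON : St_NON) (hGRD : St_GRD)
    (hRFN : St_RFN) : St_HSU := by
  intro K R _ _ _ _ _ _ _ D y m h A M hA hM hTF ν hν
  have hy := h.eig
  have hP : Module.Finite K (A.red h.eig).X := (hRFN K R D y m h A M).1 hA
  have hQ : Module.Finite K (M.red h.eig).X := (hRFN K R D y m h M A).1 hM
  have hMy : ∀ x : M.X, y • x = 0 → x = 0 := fun x hx => (hTF y x hx).resolve_left h.ne
  let S : Submodule R (A.X →ₗ[R] M.X) := Ideal.span {y} • ⊤
  have hker := HSU_ker A M h.eig hMy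
  let G : ((A.X →ₗ[R] M.X) ⧸ S) →ₗ[R] ((A.red h.eig).X →ₗ[R] (M.red h.eig).X) :=
    S.liftQ (HSU_map A M h.eig) fun φ hφ => (hker φ).2 hφ
  have hG : ∀ φ, G (S.mkQ φ) = HSU_map A M h.eig φ := fun φ => rfl
  have hGinj : Function.Injective G := by
    rw [injective_iff_map_eq_zero]
    intro x hx
    obtain ⟨φ, rfl⟩ := S.mkQ_surjective x
    rw [hG] at hx
    exact (Submodule.Quotient.mk_eq_zero _).2 ((hker φ).1 hx)
  let T : ((A.hom M).red h.eig).X →ₗ[K] ((A.red h.eig).X →ₗ[K] (M.red h.eig).X) :=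
    { toFun := fun x => (G x).restrictScalars K
      map_add' := fun x x' => by
        apply LinearMap.ext
        intro p
        exact LinearMap.congr_fun (map_add G x x') p
      map_smul' := fun c x => by
        obtain ⟨φ, rfl⟩ := S.mkQ_surjective x
        apply LinearMap.ext
        intro p
        obtain ⟨x, rfl⟩ := (Ideal.span {y} • ⊤ : Submodule R A.X).mkQ_surjective p
        rfl }
  have hT : ∀ x p, T x p = G x p := fun x p => rfl
  have hTinj : Function.Injective T := by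
    intro x x' hxx
    apply hGinj
    apply LinearMap.ext
    intro p
    exact LinearMap.congr_fun hxx p
  have hcomm : ∀ x, T (((A.hom M).red h.eig).N x) = hm (A.red h.eig).N (M.red h.eig).N (T x) := by
    intro x
    obtain ⟨φ, rfl⟩ := S.mkQ_surjective x
    apply LinearMap.ext
    intro p
    obtain ⟨x, rfl⟩ := (Ideal.span {y} • ⊤ : Submodule R A.X).mkQ_surjective p
    show M.mod h.eig (M.N (φ x) - φ (A.N x)) = M.mod h.eig (M.N (φ x)) - M.mod h.eig (φ (A.N x))
    rw [map_sub]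
  have h1 := HSU_le hADD hNON hGRD K _ _ ((A.hom M).red h.eig).N
    (hm (A.red h.eig).N (M.red h.eig).N) T hTinj hcomm ν
  have h2 : 0 ≤ cf ((A.hom M).red h.eig).ch ν := by
    have hfin : Module.Finite K ((A.hom M).red h.eig).X := Module.Finite.of_injective T hTinj
    exact (hNON K ((A.hom M).red h.eig).X K ((A.hom M).red h.eig).N LinearMap.id).1 ν
  have h3 : cf (ch (hm (A.red h.eig).N (M.red h.eig).N)) ν ≠ 0 := by
    have h4 : 0 < cf ((A.hom M).red h.eig).ch ν := lt_of_le_of_ne h2 (Ne.symm hν)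
    exact (lt_of_lt_of_le h4 h1).ne'
  rw [hHOM] at h3
  obtain ⟨b, c, hb, hc, hbc⟩ := (hGRD K).2.2.2.2.2.2.2.1 _ _ _ h3
  rw [(hGRD K).2.2.1] at hb
  refine ⟨c, -b, hc, hb, ?_⟩
  rw [hbc]
  ring

end Pool.Agent.ARS
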