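import Pool.Agent.ARS.StN
import Pool.Agent.HWG.Unit
import Pool.Agent.HWG.Pack
import Pool.Agent.HWG.Gor
import Pool.Agent.HWG.Noether

/-!
helper11. The ring `K[[G]]` of a symmetric numerical semigroup `G` is quasi-homogeneous: the Euler
derivation `X d/dX`, the parameter `y = X ^ (F + 1)`.
-/

set_option autoImplicit false

namespace Pool.Agent.ARS

open PowerSeries IsLocalRing
open Pool.Agent.HWG (SG)

/-- the `K`-algebra structure of `K[[G]]` -/
noncomputable instance algSG (S : SG) (K : Type) [Field K] : Algebra K (S.R K) :=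
  RingHom.toAlgebra
    { toFun := fun c => ⟨C c, by
        intro n hn
        rw [coeff_C] at hn
        split_ifs at hn with h
        · rw [h]; exact S.zero
        · exact absurd rfl hn⟩
      map_one' := Subtype.ext (map_one C)
      map_mul' := fun a b => Subtype.ext (map_mul C a b)
      map_zero' := Subtype.ext (map_zero C)
      map_add' := fun a b => Subtype.ext (map_add C a b) }

section

variable (S : SG) {K : Type} [Field K]

theorem coe_alg (c : K) : ((algebraMap K (S.R K) c : S.R K) : PowerSeries K) = C c := rfl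

theorem coe_sm (c : K) (f : S.R K) : ((c • f : S.R K) : PowerSeries K) = C c * f := by
  rw [Algebra.smul_def]
  rfl

/-- the Euler derivation of the power series ring, as a function -/
noncomputable def eu (f : PowerSeries K) : PowerSeries K := PowerSeries.mk fun n => (n : K) * coeff n f

theorem coeff_eu (f : PowerSeries K) (n : ℕ) : coeff n (eu f) = (n : K) * coeff n f := by
  unfold eu
  rw [coeff_mk]

theorem eu_mul (f g : PowerSeries K) : eu (f * g) = f * eu g + g * eu f := by
  ext n
  rw [coeff_eu, map_add, mul_comm g, coeff_mul, coeff_mul, coeff_mul, Finset.mul_sum,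
    ← Finset.sum_add_distrib]
  refine Finset.sum_congr rfl fun p hp => ?_
  rw [coeff_eu, coeff_eu, ← Finset.HasAntidiagonal.mem_antidiagonal.1 hp, Nat.cast_add]
  ring

theorem eu_mem (f : PowerSeries K) (hf : f ∈ S.R K) : eu f ∈ S.R K := by
  intro n hn
  rw [coeff_eu] at hn
  exact hf n (right_ne_zero_of_mul hn)

variable (K)

/-- the Euler derivation of `K[[G]]` -/
noncomputable def euD : Derivation K (S.R K) (S.R K) :=
  Derivation.mk'
    { toFun := fun f => ⟨eu (f : PowerSeries K), eu_mem S (f : PowerSeries K) f.2⟩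
      map_add' := fun f g => Subtype.ext (by
        ext n
        show coeff n (eu ((f : PowerSeries K) + (g : PowerSeries K))) =
          coeff n (eu (f : PowerSeries K) + eu (g : PowerSeries K))
        rw [map_add, coeff_eu, coeff_eu, coeff_eu, map_add, mul_add])
      map_smul' := fun c f => Subtype.ext (by
        show eu ((c • f : S.R K) : PowerSeries K) =
          ((c • (⟨eu (f : PowerSeries K), eu_mem S (f : PowerSeries K) f.2⟩ : S.R K) : S.R K) :
            PowerSeries K)
        rw [coe_sm, coe_sm]
        show eu (C c * (f : PowerSeries K)) = C c * eu (f : PowerSeries K)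
        ext n
        rw [coeff_eu, coeff_C_mul, coeff_C_mul, coeff_eu]
        ring) }
    (fun f g => Subtype.ext (eu_mul (f : PowerSeries K) g))

variable {K}

theorem coe_euD (f : S.R K) : ((euD S K f : S.R K) : PowerSeries K) = eu f := rfl

theorem coeff_aeval (p : Polynomial K) (f : S.R K) (n : ℕ) :
    coeff n ((Polynomial.aeval ((euD S K).toLinearMap : Module.End K (S.R K)) p f : S.R K) :
      PowerSeries K) = p.eval (n : K) * coeff n (f : PowerSeries K) := by
  have hpow : ∀ (k : ℕ) (f : S.R K),
      coeff n (((((euD S K).toLinearMap : Module.End K (S.R K)) ^ k) f : S.R K) : PowerSeries K) =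
      (n : K) ^ k * coeff n (f : PowerSeries K) := by
    intro k
    induction k with
    | zero => intro f; rw [pow_zero, pow_zero, one_mul]; rfl
    | succ k ih =>
      intro f
      rw [pow_succ, Module.End.mul_apply, ih]
      show (n : K) ^ k * coeff n (eu (f : PowerSeries K)) = _
      rw [coeff_eu]
      ring
  induction p using Polynomial.induction_on' with
  | add p q hp hq =>
    rw [map_add, LinearMap.add_apply, Subring.coe_add, map_add, hp, hq, Polynomial.eval_add,
      add_mul]
  | monomial k c =>
    rw [Polynomial.aeval_monomial, Polynomial.eval_monomial]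
    show coeff n ((algebraMap K (Module.End K (S.R K)) c
      ((((euD S K).toLinearMap : Module.End K (S.R K)) ^ k) f) : S.R K) : PowerSeries K) = _
    rw [Module.algebraMap_end_apply, coe_sm, coeff_C_mul, hpow]
    ring

theorem mem_span (f : S.R K) (h : ∀ n, n ≤ 2 * S.F + 1 → coeff n (f : PowerSeries K) = 0) :
    f ∈ Ideal.span {S.x K} := by
  have h1 : X ^ (2 * S.F + 2) ∣ (f : PowerSeries K) := by
    rw [X_pow_dvd_iff]
    intro m hm
    exact h m (by omega)
  obtain ⟨g, hg⟩ := h1
  rw [Ideal.mem_span_singleton]
  refine ⟨⟨X ^ (S.F + 1) * g, S.mem_big g⟩, Subtype.ext ?_⟩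
  show (f : PowerSeries K) = X ^ (S.F + 1) * (X ^ (S.F + 1) * g)
  rw [hg, ← mul_assoc, ← pow_add]
  congr 2
  omega

end

theorem Inst_QH (S : SG) (K : Type) [Field K] [IsLocalRing (S.R K)]
    (hmax : ∀ x : S.R K, x ∈ maximalIdeal (S.R K) ↔ coeff 0 (x : PowerSeries K) = 0)
    (hpkg : HWC.Pkg (S.R K)) : QH K (S.R K) (euD S K) (S.x K) (S.F + 1) := by
  classical
  have hx0 : coeff 0 ((S.x K : S.R K) : PowerSeries K) = 0 := by
    show coeff 0 (X ^ (S.F + 1) : PowerSeries K) = 0
    rw [coeff_X_pow, if_neg (by omega)]
  refine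
    { pkg := hpkg
      max := ?_
      res := ?_
      mem := (hmax _).2 hx0
      ne := fun h => pow_ne_zero (S.F + 1) X_ne_zero (congrArg Subtype.val h)
      pos := by omega
      eig := ?_
      fin := ?_
      wt := ?_ }
  · intro a ha
    rw [hmax, coe_euD, coeff_eu, Nat.cast_zero, zero_mul]
  · intro a
    refine ⟨coeff 0 (a : PowerSeries K), ?_⟩
    rw [hmax]
    show coeff 0 ((a : PowerSeries K) - C (coeff 0 (a : PowerSeries K))) = 0
    rw [map_sub, coeff_zero_C, sub_self]
  · refine Subtype.ext ?_
    ext n
    rw [coe_euD, coeff_eu, Subring.coe_mul]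
    show (n : K) * coeff n (X ^ (S.F + 1) : PowerSeries K) =
      coeff n ((((S.F + 1 : ℕ) : S.R K) : PowerSeries K) * X ^ (S.F + 1))
    have h1 : (((S.F + 1 : ℕ) : S.R K) : PowerSeries K) = C ((S.F + 1 : ℕ) : K) := by
      rw [map_natCast]
      exact map_natCast (S.R K).subtype _
    rw [h1, coeff_C_mul, coeff_X_pow]
    split_ifs with h
    · rw [h]
    · rw [mul_zero, mul_zero]
  · let ψ : (Fin (2 * S.F + 2) → K) →ₗ[K] (S.R K ⧸ Ideal.span {S.x K}) :=
      { toFun := fun v => Ideal.Quotient.mk _ ⟨PowerSeries.mk fun n =>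
          if h : n < 2 * S.F + 2 then (if S.G n then v ⟨n, h⟩ else 0) else 0, by
            intro n hn
            rw [coeff_mk] at hn
            split_ifs at hn with h1 h2
            · exact h2
            · exact absurd rfl hn
            · exact absurd rfl hn⟩
        map_add' := fun v w => by
          rw [← map_add]
          congr 1
          refine Subtype.ext ?_
          ext n
          rw [Subring.coe_add, map_add, coeff_mk, coeff_mk, coeff_mk]
          split_ifs
          · rfl
          · rw [add_zero]
          · rw [add_zero]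
        map_smul' := fun c v => by
          rw [RingHom.id_apply]
          show _ = Ideal.Quotient.mk (Ideal.span {S.x K}) (c • _)
          congr 1
          refine Subtype.ext ?_
          ext n
          rw [coe_sm, coeff_C_mul, coeff_mk, coeff_mk]
          split_ifs
          · rfl
          · rw [mul_zero]
          · rw [mul_zero] }
    apply Module.Finite.of_surjective ψ
    intro q
    obtain ⟨f, rfl⟩ := Ideal.Quotient.mk_surjective q
    refine ⟨fun i => coeff (i : ℕ) (f : PowerSeries K), ?_⟩
    show Ideal.Quotient.mk (Ideal.span {S.x K}) _ = _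
    rw [Ideal.Quotient.mk_eq_mk_iff_sub_mem]
    apply mem_span
    intro n hn
    rw [AddSubgroupClass.coe_sub, map_sub, coeff_mk, dif_pos (by omega : n < 2 * S.F + 2)]
    split_ifs with h
    · exact sub_self _
    · have : coeff n (f : PowerSeries K) = 0 := by
        by_contra h1
        exact h (f.2 n h1)
      rw [this, sub_zero]
  · refine ⟨2 * S.F + 1, fun a ha => ?_⟩
    apply mem_span
    intro n hn
    rw [coeff_aeval]
    rcases Nat.eq_zero_or_pos n with rfl | hn0
    · rw [(hmax a).1 ha, mul_zero]
    · rw [Polynomial.eval_prod, Finset.prod_eq_zero (i := n) (Finset.mem_Icc.2 ⟨hn0, hn⟩), zero_mul]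
      rw [Polynomial.eval_sub, Polynomial.eval_X, Polynomial.eval_C, sub_self]

theorem thm_SGQ : St_SGQ := by
  intro S K _ _ _ hmax hpkg
  exact ⟨algSG S K, euD S K, S.x K, S.F + 1, Inst_QH S K hmax hpkg⟩

theorem thm_Inst (S : SG) (K : Type) [Field K] : ∃ _ : IsLocalRing (S.R K),
    IsNoetherianRing (S.R K) ∧ HWC.GorOne (S.R K) ∧
    QH K (S.R K) (euD S K) (S.x K) (S.F + 1) := by
  obtain ⟨hl, hmax, hgor, hpkg⟩ := HWG.thm_Pack HWG.thm_Unit HWG.thm_Divide S K (HWG.thm_Gor S K)
  exact ⟨hl, HWG.thm_Noether HWG.thm_Unit HWG.thm_Divide S K, hgor, Inst_QH S K hmax hpkg⟩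

end Pool.Agent.ARS
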