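import Pool.Agent.ARS.Defs

/-! Statements of the modules of ARS, part L: linear algebra over a field `K`, characters of
endomorphisms (`ch`, `Defs.lean`).  `L = AlgebraicClosure K`.  Do not change this file. -/

set_option autoImplicit false

namespace Pool.Agent.ARS

open Polynomial

/-- coefficients -/
noncomputable def cf {K : Type} [Field K] (f : GR K) (a : AlgebraicClosure K) : ℤ := f.coeff a

/-- the operator `φ ↦ B φ - φ A` -/
def hm {K P Q : Type} [Field K] [AddCommGroup P] [Module K P] [AddCommGroup Q] [Module K Q]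
    (A : P →ₗ[K] P) (B : Q →ₗ[K] Q) : (P →ₗ[K] Q) →ₗ[K] (P →ₗ[K] Q) where
  toFun φ := B.comp φ - φ.comp A
  map_add' φ ψ := by rw [LinearMap.comp_add, LinearMap.add_comp]; abel
  map_smul' c φ := by
    rw [LinearMap.comp_smul, LinearMap.smul_comp, RingHom.id_apply, smul_sub]

/-- [GRD] `ℤ[L]` is a domain (`L` is a `ℚ`-vector space, so it has `TwoUniqueSums`, see
`Mathlib/Algebra/Group/UniqueProds/VectorSpace.lean` and `MonoidAlgebra/NoZeroDivisors.lean`);
`iv (iv f) = f`; coefficients of `iv f`, of `xp a * f`; the support of a product. -/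
def St_GRD : Prop := ∀ (K : Type) [Field K] [CharZero K],
  (∀ f g : GR K, f * g = 0 → f = 0 ∨ g = 0) ∧ (∀ f : GR K, iv (iv f) = f) ∧
  (∀ (f : GR K) (a : AlgebraicClosure K), cf (iv f) a = cf f (-a)) ∧
  (∀ (a : AlgebraicClosure K), (iv (xp a) : GR K) = xp (-a)) ∧
  (∀ (a b : AlgebraicClosure K), (xp a * xp b : GR K) = xp (a + b)) ∧
  (xp (0 : AlgebraicClosure K) : GR K) = 1 ∧
  (∀ (f : GR K) (a b : AlgebraicClosure K), cf (xp a * f) b = cf f (b - a)) ∧
  (∀ (f g : GR K) (a : AlgebraicClosure K), cf (f * g) a ≠ 0 →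
    ∃ b c, cf f b ≠ 0 ∧ cf g c ≠ 0 ∧ a = b + c) ∧
  (∀ (f g : GR K) (a : AlgebraicClosure K), cf (f + g) a = cf f a + cf g a) ∧
  (∀ (f g : GR K) (a : AlgebraicClosure K), cf (f - g) a = cf f a - cf g a) ∧
  (∀ f : GR K, (∀ a, cf f a = 0) → f = 0)

/-- [ADD] Characters are additive on exact sequences. Proof: `B` is the direct sum of the image
of `f` and of a complement `W ≅ C`; in a basis adapted to it the matrix of `b` is block
triangular with diagonal blocks the matrices of `a`, `c` (`Matrix.charpoly_fromBlocks_zero₁₂` or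
`₂₁`; `LinearMap.charpoly_toMatrix`), so `charpoly b = charpoly a * charpoly c`;
`Polynomial.aroots_mul`. -/
def St_ADD : Prop :=
  (∀ (K A B C : Type) [Field K] [AddCommGroup A] [Module K A] [Module.Finite K A]
    [AddCommGroup B] [Module K B] [Module.Finite K B]
    [AddCommGroup C] [Module K C] [Module.Finite K C] (a : A →ₗ[K] A) (b : B →ₗ[K] B)
    (c : C →ₗ[K] C), ExK a b c → b.charpoly = a.charpoly * c.charpoly) ∧
  ∀ (K A B C : Type) [Field K] [AddCommGroup A] [Module K A]
    [AddCommGroup B] [Module K B] [AddCommGroup C] [Module K C] (a : A →ₗ[K] A) (b : B →ₗ[K] B)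
    (c : C →ₗ[K] C), ExK a b c →
    (Module.Finite K B → Module.Finite K A ∧ Module.Finite K C ∧ ch b = ch a + ch c) ∧
    (Module.Finite K A → Module.Finite K C → Module.Finite K B)

/-- [NON] Coefficients are nonnegative (a sum of `xp`), the support is the set of roots of the
characteristic polynomial in `L`, the character vanishes only for the zero space (degree of
`charpoly` = `finrank`; over `L` it splits), a scalar on a one-dimensional space, independence of
the model. -/
def St_NON : Prop := ∀ (K Q Q' : Type) [Field K] [AddCommGroup Q] [Module K Q] [Module.Finite K Q]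
  [AddCommGroup Q'] [Module K Q'] (A : Q →ₗ[K] Q) (A' : Q' →ₗ[K] Q'),
  (∀ a, 0 ≤ cf (ch A) a) ∧
  (∀ a, cf (ch A) a ≠ 0 ↔ aeval a A.charpoly = 0) ∧
  (ch A = 0 → Subsingleton Q) ∧
  (Subsingleton Q → ch A = 0) ∧
  (∀ c : K, Module.finrank K Q = 1 → (∀ v, A v = c • v) →
    ch A = xp (algebraMap K (AlgebraicClosure K) c)) ∧
  (∀ e : Q ≃ₗ[K] Q', (∀ v, e (A v) = A' (e v)) → ch A' = ch A)

/-- [ANN] The support of the character consists of roots of every annihilating polynomial.
Proof: a root `a` of `charpoly A` in `L` is an eigenvalue of `A.baseChange L`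
(`LinearMap.charpoly_baseChange`, `Module.End.hasEigenvalue_iff_isRoot_charpoly`), and
`aeval (A.baseChange L) p = (aeval A p).baseChange L = 0`; or `minpoly K A ∣ p` and the roots of
`charpoly` are roots of `minpoly`. -/
def St_ANN : Prop := ∀ (K Q : Type) [Field K] [AddCommGroup Q] [Module K Q] [Module.Finite K Q]
  (A : Q →ₗ[K] Q) (p : K[X]), aeval (A : Module.End K Q) p = 0 →
  ∀ a : AlgebraicClosure K, aeval a A.charpoly = 0 → aeval a p = 0

/-- [SHF] Shift by a scalar. Proof: `charpoly (A + c) = (charpoly A).comp (X - C c)`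
(`LinearMap.charpoly_sub_smul` or similar), the roots move by `c`. -/
def St_SHF : Prop := ∀ (K Q : Type) [Field K] [AddCommGroup Q] [Module K Q] [Module.Finite K Q]
  (A : Q →ₗ[K] Q) (c : K),
  ch (A + c • LinearMap.id) = xp (algebraMap K (AlgebraicClosure K) c) * ch A

/-- [NEG] Transpose and negative. Proof: `Matrix.charpoly_transpose`; over `L` the polynomial
`charpoly` is the product of the `X - a`, and `charpoly (-A)` is up to sign `charpoly A` at
`-X`. -/
def St_NEG : Prop := ∀ (K : Type) [Field K] (n : ℕ) (a : Matrix (Fin n) (Fin n) K),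
  ch (Matrix.toLin' (-a.transpose)) = iv (ch (Matrix.toLin' a))

/-- [TWI] (uses ADD, SHF, NON) The twisted power: eigenvalues are the sums. Proof: first over an
algebraically closed field `L` (any type), in the form: for `A : Q →ₗ[L] Q` the polynomial
`charpoly (tw A a)` is the product over the roots `t` of `charpoly A` (with multiplicity) of
`charpoly (a + t)`. Induction on `finrank Q` with an eigenvector `v` of `A` (eigenvalue `t`): the
exact sequence `(L v)^n → Q^n → (Q / L v)^n` and `charpoly b = charpoly a * charpoly c` of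
`St_ADD`; on `(L v)^n` the operator `tw` is `toLin' (a + t)`. Then base change:
`charpoly` of `tw A a` mapped to `L` is `charpoly` of `tw (A.baseChange L) (a.map ..)` via
`L ⊗ (Fin n → Q) ≃ (Fin n → L ⊗ Q)` (`LinearMap.charpoly_baseChange`). -/
def St_TWI : Prop := ∀ (K Q : Type) [Field K] [AddCommGroup Q] [Module K Q] [Module.Finite K Q]
  (A : Q →ₗ[K] Q) (n : ℕ) (a : Matrix (Fin n) (Fin n) K),
  ch (tw A a) = ch (Matrix.toLin' a) * ch A

/-- [HOM] (uses TWI, NEG, NON) Proof: in a basis `e` of `P` with matrix `a` of `A` the map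
`φ ↦ (φ (e i))_i` identifies `hm A B` with `tw B (-a.transpose)`. -/
def St_HOM : Prop := ∀ (K P Q : Type) [Field K] [AddCommGroup P] [Module K P] [Module.Finite K P]
  [AddCommGroup Q] [Module K Q] [Module.Finite K Q] (A : P →ₗ[K] P) (B : Q →ₗ[K] Q),
  ch (hm A B) = iv (ch A) * ch B

end Pool.Agent.ARS
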